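import Mathlib

/-!
Étale cohomology with coefficients in `𝔾ₘ`, on the big étale site of schemes, and
`n`-Hilbertian and `n`-Brauertsch fields.
-/

open CategoryTheory AlgebraicGeometry Opposite Limits

namespace Pool.Agent.Lib.MP_b73640_ag

/-- Abelian sheaves on the big étale site of schemes. -/
abbrev EtSh := Sheaf Scheme.etaleTopology.{0} AddCommGrpCat.{1}

instance : IsGrothendieckAbelian.{1} EtSh := by
  have : EssentiallySmall.{1} Scheme.{0} := inferInstance
  exact Sheaf.isGrothendieckAbelian_of_essentiallySmall _ _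

/-- Units of a ring, written additively, and lifted to `Type 1`. -/
abbrev UnitsOf (A : Type) [CommRing A] : Type 1 := ULift.{1} (Additive Aˣ)

/-- The map on units given by a ring homomorphism. -/
def unitsMap {A B : Type} [CommRing A] [CommRing B] (φ : A →+* B) : UnitsOf A →+ UnitsOf B where
  toFun x := ⟨Additive.ofMul (Units.map (φ : A →* B) x.down.toMul)⟩
  map_zero' := congrArg ULift.up (congrArg Additive.ofMul (map_one (Units.map (φ : A →* B))))
  map_add' x y := congrArg ULift.up (congrArg Additive.ofMul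
    (map_mul (Units.map (φ : A →* B)) x.down.toMul y.down.toMul))

theorem unitsMap_id (A : CommRingCat.{0}) :
    AddCommGrpCat.ofHom (unitsMap (CommRingCat.Hom.hom (𝟙 A))) =
      𝟙 (AddCommGrpCat.of (UnitsOf A)) := by
  ext x
  simp [unitsMap]

theorem unitsMap_comp {A B C : CommRingCat.{0}} (φ : A ⟶ B) (ψ : B ⟶ C) :
    AddCommGrpCat.ofHom (unitsMap (φ ≫ ψ).hom) =
      AddCommGrpCat.ofHom (unitsMap φ.hom) ≫ AddCommGrpCat.ofHom (unitsMap ψ.hom) := by
  ext x
  rfl

/-- The functor of units, from commutative rings to abelian groups. -/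
noncomputable def unitsFunctor : CommRingCat.{0} ⥤ AddCommGrpCat.{1} where
  obj A := AddCommGrpCat.of (UnitsOf A)
  map φ := AddCommGrpCat.ofHom (unitsMap φ.hom)
  map_id A := unitsMap_id A
  map_comp φ ψ := unitsMap_comp φ ψ

/-- The presheaf of units `X ↦ Γ(X, 𝒪_X)ˣ`, written additively. -/
noncomputable def unitsPresheaf : Scheme.{0}ᵒᵖ ⥤ AddCommGrpCat.{1} := Scheme.Γ ⋙ unitsFunctor

open LaurentPolynomial in
/-- The unit `T` of `ℤ[T, T⁻¹]`. -/
noncomputable def unitT : (ℤ[T;T⁻¹])ˣ where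
  val := T 1
  inv := T (-1)
  val_inv := by rw [← T_add, add_neg_cancel, T_zero]
  inv_val := by rw [← T_add, neg_add_cancel, T_zero]

open LaurentPolynomial in
theorem unitT_zpow (n : ℤ) : ((unitT ^ n : (ℤ[T;T⁻¹])ˣ) : ℤ[T;T⁻¹]) = T n := by
  obtain ⟨m, rfl | rfl⟩ := n.eq_nat_or_neg
  · simp [unitT, T_pow]
  · rw [zpow_neg, zpow_natCast, ← inv_pow, Units.val_pow_eq_pow_val]
    change (T (-1)) ^ m = _
    rw [T_pow]
    simp

open LaurentPolynomial in
/-- Units are the points of `Spec ℤ[T, T⁻¹]`. -/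
noncomputable def unitsEquiv (A : Type) [CommRing A] : (ℤ[T;T⁻¹] →+* A) ≃ Aˣ where
  toFun f := Units.map (f : ℤ[T;T⁻¹] →* A) unitT
  invFun u := LaurentPolynomial.eval₂ (Int.castRingHom A) u
  left_inv f := by
    refine RingHom.ext fun p => ?_
    induction p using LaurentPolynomial.induction_on' with
    | add p q hp hq => simp only [map_add, hp, hq]
    | C_mul_T n a =>
      rw [LaurentPolynomial.eval₂_C_mul_T, map_mul, ← unitT_zpow, ← map_zpow]
      congr 1
      simp
  right_inv u := by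
    ext
    simp [unitT]

instance : Scheme.etaleTopology.{0}.Subcanonical :=
  .of_le (Scheme.etaleTopology_le_proetaleTopology.trans Scheme.proetaleTopology_le_fpqcTopology)

/-- Units are the morphisms to `Spec ℤ[T, T⁻¹]`. -/
noncomputable def homEquivUnits (X : Scheme.{0}) :
    (X ⟶ Spec (.of (LaurentPolynomial ℤ))) ≃ (Γ(X, ⊤))ˣ where
  toFun f := unitsEquiv Γ(X, ⊤) ((Scheme.ΓSpecIso (.of (LaurentPolynomial ℤ))).inv ≫ f.appTop).hom
  invFun u := X.toSpecΓ ≫ Spec.map (CommRingCat.ofHom ((unitsEquiv _).symm u))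
  left_inv f := by
    apply (ΓSpec.adjunction.homEquiv _ _).symm.injective
    apply Quiver.Hom.unop_inj
    rw [Adjunction.homEquiv_symm_apply, Adjunction.homEquiv_symm_apply]
    dsimp
    simp only [Scheme.toSpecΓ_appTop, Scheme.ΓSpecIso_naturality, Iso.inv_hom_id_assoc]
    apply CommRingCat.hom_ext
    apply (unitsEquiv _).injective
    rw [CommRingCat.hom_ofHom, Equiv.apply_symm_apply]
    rfl
  right_inv u := by
    conv_rhs => rw [← (unitsEquiv Γ(X, ⊤)).apply_symm_apply u]
    simp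

theorem isSheaf_unitsPresheaf : Presheaf.IsSheaf Scheme.etaleTopology unitsPresheaf := by
  apply Presheaf.isSheaf_of_isSheaf_comp _ _ (forget AddCommGrpCat.{1})
  rw [isSheaf_iff_isSheaf_of_type]
  refine (Presieve.isSheaf_iff_of_nat_equiv (J := Scheme.etaleTopology.{0})
    (P₁ := yoneda.obj (Spec (.of (LaurentPolynomial ℤ))))
    (P₂ := unitsPresheaf ⋙ forget AddCommGrpCat.{1})
    (fun X => (homEquivUnits X).trans (Additive.ofMul.trans Equiv.ulift.{1}.symm)) ?_).1
    (GrothendieckTopology.Subcanonical.isSheaf_of_isRepresentable _)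
  intro X Y f x
  rfl

/-- The sheaf `𝔾ₘ`. -/
noncomputable def Gm : EtSh := ⟨unitsPresheaf, isSheaf_unitsPresheaf⟩

/-- The abelian sheaf `ℤ[X]` freely generated by the scheme `X`. -/
noncomputable def Zf : Scheme.{0} ⥤ EtSh :=
  uliftYoneda.{1} ⋙ (Functor.whiskeringRight _ _ _).obj AddCommGrpCat.free.{1} ⋙
    presheafToSheaf Scheme.etaleTopology.{0} AddCommGrpCat.{1}

/-- Étale cohomology `Hⁿ(X, G)` of an abelian sheaf. -/
noncomputable abbrev HG (G : EtSh) (n : ℕ) (X : Scheme.{0}) : Type 1 := Abelian.Ext (Zf.obj X) G n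

/-- Pullback `Hⁿ(X, G) → Hⁿ(Y, G)` along a morphism `f : Y ⟶ X`. -/
noncomputable def pb (G : EtSh) {n : ℕ} {X Y : Scheme.{0}} (f : Y ⟶ X) : HG G n X →+ HG G n Y :=
  (Abelian.Ext.mk₀ (Zf.map f)).precomp G (zero_add n)

/-- The restriction `α|ₛ ∈ Hⁿ(Spec κ(s), 𝔾ₘ)` of a class to a point. -/
noncomputable def atPoint {n : ℕ} {S : Scheme.{0}} (α : HG Gm n S) (s : S) :
    HG Gm n (Spec (S.residueField s)) :=
  pb Gm (S.fromSpecResidueField s) α

attribute [local instance] MvPolynomial.gradedAlgebra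

/-- The projective line over a field. -/
noncomputable abbrev P1 (F : Type) [Field F] : Scheme.{0} :=
  Proj (MvPolynomial.homogeneousSubmodule (Fin 2) F)

/-- The structure morphism `Proj 𝒜 ⟶ Spec R` of a graded `R`-algebra. -/
noncomputable def projToSpec {R A : Type} [CommRing R] [CommRing A] [Algebra R A]
    (𝒜 : ℕ → Submodule R A) [GradedAlgebra 𝒜] : Proj 𝒜 ⟶ Spec (.of R) :=
  Proj.toSpecZero 𝒜 ≫ Spec.map (CommRingCat.ofHom (algebraMap R (𝒜 0)))

/-- The structure morphism `ℙ¹_F ⟶ Spec F`. -/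
noncomputable def P1.toSpec (F : Type) [Field F] : P1 F ⟶ Spec (.of F) :=
  projToSpec (MvPolynomial.homogeneousSubmodule (Fin 2) F)

/-- `F` is `n`-Hilbertian: for every nonempty open `U ⊆ ℙ¹_F` and every class `α ∈ Hⁿ(U, 𝔾ₘ)` whose
order is invertible in `F`, infinitely many closed points `s` of `U` with residue field `F` are such
that `α|ₛ` has the same order as `α`. -/
def IsNHilbertian (n : ℕ) (F : Type) [Field F] : Prop :=
  ∀ (U : (P1 F).Opens), (U : Set (P1 F)).Nonempty → ∀ α : HG Gm n (U : Scheme.{0}),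
    ((addOrderOf α : ℕ) : F) ≠ 0 →
    {s : (U : Scheme.{0}) | IsClosed {s} ∧
      IsIso ((U : Scheme.{0}).fromSpecResidueField s ≫ U.ι ≫ P1.toSpec F) ∧
      addOrderOf (atPoint α s) = addOrderOf α}.Infinite

/-- A curve over `F`: an integral separated `F`-scheme of finite type of dimension one. -/
structure IsCurve {F : Type} [Field F] {S : Scheme.{0}} (p : S ⟶ Spec (.of F)) : Prop where
  isIntegral : IsIntegral S
  isSeparated : IsSeparated p
  locallyOfFiniteType : LocallyOfFiniteType p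
  quasiCompact : QuasiCompact p
  dim : topologicalKrullDim S = 1

/-- `F` is `n`-Brauertsch: for every curve `S` over `F` and every finite family of classes
`α₁, …, αₘ ∈ Hⁿ(S, 𝔾ₘ)` whose orders are invertible in `F`, infinitely many closed points `s` of
`S` are such that every `αᵢ|ₛ` has the same order as `αᵢ`. -/
def IsNBrauertsch (n : ℕ) (F : Type) [Field F] : Prop :=
  ∀ (S : Scheme.{0}) (p : S ⟶ Spec (.of F)), IsCurve p → ∀ (m : ℕ) (α : Fin m → HG Gm n S),
    (∀ i, ((addOrderOf (α i) : ℕ) : F) ≠ 0) →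
    {s : S | IsClosed {s} ∧ ∀ i, addOrderOf (atPoint (α i) s) = addOrderOf (α i)}.Infinite

end Pool.Agent.Lib.MP_b73640_ag
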