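import Mathlib
import Pool.Agent.Lib.MP_b73640_ag.Defs

/-! The module statements. -/

open CategoryTheory AlgebraicGeometry Opposite Limits TopologicalSpace

namespace Pool.Agent.Lib.MP_b73640_ag

attribute [local instance] MvPolynomial.gradedAlgebra

/-- Restriction of continuous functions. -/
noncomputable def resC (K : Type) [TopologicalSpace K] [CommRing K] [IsTopologicalRing K]
    {W' W : Opens ℝ} (h : W' ≤ W) : C(W, K) →+* C(W', K) where
  toFun f := f.comp ⟨Set.inclusion h, continuous_inclusion h⟩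
  map_one' := rfl
  map_mul' _ _ := rfl
  map_zero' := rfl
  map_add' _ _ := rfl

/-- Evaluation of continuous functions. -/
noncomputable def evC (K : Type) [TopologicalSpace K] [CommRing K] [IsTopologicalRing K]
    {W : Opens ℝ} (a : W) : C(W, K) →+* K where
  toFun f := f a
  map_one' := rfl
  map_mul' _ _ := rfl
  map_zero' := rfl
  map_add' _ _ := rfl

/-- Module A. Étale coverings of `Spec C(W, ℂ)` split locally on `W`. -/
def LiftStmt : Prop := ∀ (W : Opens ℝ) (a : W) (R : Sieve (Spec (.of C(W, ℂ)))),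
  R ∈ Scheme.etaleTopology.{0} _ →
  ∃ (W' : Opens ℝ) (h : W' ≤ W), (a : ℝ) ∈ W' ∧ R (Spec.map (CommRingCat.ofHom (resC ℂ h)))

/-- Module A'. Étale coverings of `Spec ℂ` split. -/
def LiftCStmt : Prop := ∀ R : Sieve (Spec (.of ℂ)), R ∈ Scheme.etaleTopology.{0} _ → R (𝟙 _)

/-- Module B. Classes of positive degree are étale locally trivial. -/
def LocTrivStmt : Prop := ∀ (G : EtSh) (X : Scheme.{0}) (n : ℕ) (β : HG G (n + 1) X),
  ∃ R ∈ Scheme.etaleTopology.{0} X, ∀ (Y : Scheme.{0}) (f : Y ⟶ X), R f → pb G f β = 0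

/-- Gaussian extensions: `B = A[i]` with `2 ∈ Aˣ`. -/
structure Gauss (A B : Type) [CommRing A] [CommRing B] [Algebra A B] where
  i : B
  i_mul_i : i * i = -1
  two : IsUnit (2 : A)
  bij : Function.Bijective (fun p : A × A => algebraMap A B p.1 + algebraMap A B p.2 * i)
  σ : B →ₐ[A] B
  σ_i : σ i = -i

/-- `ℤ/2`-torsors `π : Y ⟶ X` for the étale topology. -/
structure Tor where
  X : Scheme.{0}
  Y : Scheme.{0}
  π : Y ⟶ X
  σ : Y ⟶ Y
  σ_π : σ ≫ π = π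
  σ_σ : σ ≫ σ = 𝟙 Y
  cover : Sieve.generate (Presieve.singleton π) ∈ Scheme.etaleTopology.{0} X
  free : ∀ (T : Scheme.{0}) (g : T ⟶ Y), g ≫ σ = g → IsEmpty T
  two : ∀ (T : Scheme.{0}) (g h : T ⟶ Y), g ≫ π = h ≫ π →
    ∃ R ∈ Scheme.etaleTopology.{0} T, ∀ (T' : Scheme.{0}) (f : T' ⟶ T), R f →
      f ≫ g = f ≫ h ∨ f ≫ g = f ≫ h ≫ σ

/-- Module C. Gaussian extensions give `ℤ/2`-torsors (see `Tor`). -/
def GaussStmt : Prop := ∀ (A B : Type) [CommRing A] [CommRing B] [Algebra A B] (g : Gauss A B),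
  Sieve.generate (Presieve.singleton (Spec.map (CommRingCat.ofHom (algebraMap A B)))) ∈
    Scheme.etaleTopology.{0} (Spec (.of A)) ∧
  (∀ (T : Scheme.{0}) (k : T ⟶ Spec (.of B)),
    k ≫ Spec.map (CommRingCat.ofHom (g.σ : B →+* B)) = k → IsEmpty T) ∧
  (∀ (T : Scheme.{0}) (k l : T ⟶ Spec (.of B)),
    k ≫ Spec.map (CommRingCat.ofHom (algebraMap A B)) =
      l ≫ Spec.map (CommRingCat.ofHom (algebraMap A B)) →
    ∃ R ∈ Scheme.etaleTopology.{0} T, ∀ (T' : Scheme.{0}) (f : T' ⟶ T), R f →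
      f ≫ k = f ≫ l ∨ f ≫ k = f ≫ l ≫ Spec.map (CommRingCat.ofHom (g.σ : B →+* B)))

/-- Module E. Mayer-Vietoris. -/
def MVStmt : Prop := ∀ (G : EtSh) (X : Scheme.{0}) (U V : X.Opens), U ⊔ V = ⊤ →
  ∀ (n : ℕ) (β : HG G n (U ⊓ V : X.Opens)), ∃ α : HG G (n + 1) X,
    pb G U.ι α = 0 ∧ pb G V.ι α = 0 ∧ (∀ k : ℕ, k • β = 0 → k • α = 0) ∧
    (α = 0 → ∃ (b : HG G n U) (c : HG G n V),
      β = pb G (X.homOfLE inf_le_left) b - pb G (X.homOfLE inf_le_right) c)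

/-- A function `x`, invertible on the intersection of two open sets covering `X`, together with
real paths in the two open sets, both with the same end points in the intersection, where `x` takes
the values `1` and `-1`. -/
structure Moeb (X : Scheme.{0}) where
  U : X.Opens
  V : X.Opens
  sup_eq : U ⊔ V = ⊤
  two : IsUnit (2 : Γ((U ⊓ V : X.Opens), ⊤))
  x : (Γ((U ⊓ V : X.Opens), ⊤))ˣ
  P : Spec (.of C((⊤ : Opens ℝ), ℝ)) ⟶ U
  Q : Spec (.of C((⊤ : Opens ℝ), ℝ)) ⟶ V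
  rp : Spec (.of ℝ) ⟶ (U ⊓ V : X.Opens)
  rm : Spec (.of ℝ) ⟶ (U ⊓ V : X.Opens)
  Pp : Spec.map (CommRingCat.ofHom (evC ℝ (W := ⊤) ⟨1, trivial⟩)) ≫ P =
    rp ≫ X.homOfLE inf_le_left
  Qp : Spec.map (CommRingCat.ofHom (evC ℝ (W := ⊤) ⟨1, trivial⟩)) ≫ Q =
    rp ≫ X.homOfLE inf_le_right
  Pm : Spec.map (CommRingCat.ofHom (evC ℝ (W := ⊤) ⟨-1, trivial⟩)) ≫ P =
    rm ≫ X.homOfLE inf_le_left
  Qm : Spec.map (CommRingCat.ofHom (evC ℝ (W := ⊤) ⟨-1, trivial⟩)) ≫ Q =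
    rm ≫ X.homOfLE inf_le_right
  xp : (rp.appTop ≫ (Scheme.ΓSpecIso (.of ℝ)).hom).hom (x : Γ((U ⊓ V : X.Opens), ⊤)) = 1
  xm : (rm.appTop ≫ (Scheme.ΓSpecIso (.of ℝ)).hom).hom (x : Γ((U ⊓ V : X.Opens), ⊤)) = -1

/-- Module G. The projective line over a real field. -/
def MoebStmt : Prop := ∀ (F : Type) [Field F], (F →+* ℝ) →
  Nonempty (Moeb (P1 F)) ∧
  Nonempty (Moeb ((⊤ : (P1 F).Opens) : Scheme.{0})) ∧
  Nonempty (Moeb ((Proj.basicOpen (MvPolynomial.homogeneousSubmodule (Fin 2) F)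
    (MvPolynomial.X 0 ^ 2 + MvPolynomial.X 1 ^ 2) : (P1 F).Opens) : Scheme.{0}))

/-- Module G2. The projective line is a curve. -/
def CurveStmt : Prop := ∀ (F : Type) [Field F], IsCurve (P1.toSpec F)

/-- Module H. Finitely generated real fields of large transcendence degree. -/
def FieldStmt : Prop := ∀ m : ℕ, ∃ (F : Type) (_ : Field F) (k : Subfield F),
  PerfectField k ∧ (m : Cardinal) ≤ Algebra.trdeg k F ∧ Algebra.EssFiniteType k F ∧
    Nonempty (F →+* ℝ)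

/-- Module F. The class of a Möbius datum. -/
def MainStmt : Prop := ∀ X : Scheme.{0}, Nonempty (Moeb X) →
  ∃ α : HG Gm 3 X, addOrderOf α = 2 ∧ ∀ s : X, atPoint α s = 0

end Pool.Agent.Lib.MP_b73640_ag
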