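import Mathlib
import Pool.Agent.Lib.MP_b73640_ag.Stmts

/-! Sections of a sheaf as morphisms from `Zf`, and local triviality of classes of positive degree. -/

open CategoryTheory AlgebraicGeometry Opposite Limits

namespace Pool.Agent.Lib.MP_b73640_ag

/-- The presheaf of abelian groups freely generated by `X`. -/
noncomputable abbrev preZf (X : Scheme.{0}) : Scheme.{0}ᵒᵖ ⥤ AddCommGrpCat.{1} :=
  uliftYoneda.{1}.obj X ⋙ AddCommGrpCat.free.{1}

theorem Zf_obj (X : Scheme.{0}) :
    Zf.obj X = (presheafToSheaf Scheme.etaleTopology.{0} AddCommGrpCat.{1}).obj (preZf X) := rfl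

/-- The canonical section of `Zf.obj X` over `X`. -/
noncomputable def one (X : Scheme.{0}) : (Zf.obj X).obj.obj (op X) :=
  (toSheafify Scheme.etaleTopology.{0} (preZf X)).app (op X) (FreeAbelianGroup.of ⟨𝟙 X⟩)

theorem Zf_map_one {X Y : Scheme.{0}} (f : Y ⟶ X) :
    (Zf.map f).hom.app (op Y) (one Y) = (Zf.obj X).obj.map f.op (one X) := by
  have h1 := toSheafify_naturality Scheme.etaleTopology.{0}
    (Functor.whiskerRight (uliftYoneda.{1}.map f) AddCommGrpCat.free.{1})
  have h2 := (toSheafify Scheme.etaleTopology.{0} (preZf X)).naturality f.op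
  have h1' := ConcreteCategory.congr_hom (congr_app h1 (op Y)) (FreeAbelianGroup.of ⟨𝟙 Y⟩)
  have h2' := ConcreteCategory.congr_hom h2 (FreeAbelianGroup.of ⟨𝟙 X⟩)
  refine Eq.trans h1'.symm (Eq.trans ?_ h2')
  change (toSheafify Scheme.etaleTopology.{0} (preZf X)).app (op Y)
      (FreeAbelianGroup.of ⟨𝟙 Y ≫ f⟩) =
    (toSheafify Scheme.etaleTopology.{0} (preZf X)).app (op Y) (FreeAbelianGroup.of ⟨f ≫ 𝟙 X⟩)
  rw [Category.id_comp, Category.comp_id]

/-- Morphisms from `Zf.obj X` to a sheaf are the sections of the sheaf over `X`. -/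
noncomputable def secEquiv (X : Scheme.{0}) (G : EtSh) : (Zf.obj X ⟶ G) ≃+ G.obj.obj (op X) where
  toEquiv := ((sheafificationAdjunction Scheme.etaleTopology.{0} AddCommGrpCat.{1}).homEquiv
    (preZf X) G).trans
    (((AddCommGrpCat.adj.{1}.whiskerRight Scheme.{0}ᵒᵖ).homEquiv (uliftYoneda.{1}.obj X)
      G.obj).trans uliftYonedaEquiv)
  map_add' f g := by
    change (f + g).hom.app (op X) (one X) = f.hom.app (op X) (one X) + g.hom.app (op X) (one X)
    rfl

theorem secEquiv_apply (X : Scheme.{0}) (G : EtSh) (f : Zf.obj X ⟶ G) :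
    secEquiv X G f = f.hom.app (op X) (one X) := rfl

theorem secEquiv_comp (X : Scheme.{0}) {G G' : EtSh} (f : Zf.obj X ⟶ G) (g : G ⟶ G') :
    secEquiv X G' (f ≫ g) = g.hom.app (op X) (secEquiv X G f) := rfl

theorem secEquiv_map {X Y : Scheme.{0}} (G : EtSh) (h : Y ⟶ X) (f : Zf.obj X ⟶ G) :
    secEquiv Y G (Zf.map h ≫ f) = G.obj.map h.op (secEquiv X G f) := by
  have h1 := ConcreteCategory.congr_hom (f.hom.naturality h.op) (one X)
  rw [secEquiv_comp, secEquiv_apply, secEquiv_apply, Zf_map_one h]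
  exact h1

/-- A section of a quotient sheaf lifts locally. -/
theorem exists_lift {X : Scheme.{0}} {I Q : EtSh} (p : I ⟶ Q) [Epi p] (q : Zf.obj X ⟶ Q) :
    ∃ R ∈ Scheme.etaleTopology.{0} X, ∀ (Y : Scheme.{0}) (f : Y ⟶ X), R f →
      ∃ i : Zf.obj Y ⟶ I, i ≫ p = Zf.map f ≫ q := by
  have hp : Sheaf.IsLocallySurjective p := (Sheaf.isLocallySurjective_iff_epi' AddCommGrpCat.{1} p).2 inferInstance
  refine ⟨_, Presheaf.imageSieve_mem Scheme.etaleTopology.{0} p.hom (U := op X)
    (secEquiv X Q q), fun Y f hf => ?_⟩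
  obtain ⟨t, ht⟩ := hf
  refine ⟨(secEquiv Y I).symm t, (secEquiv Y Q).injective ?_⟩
  rw [secEquiv_comp, secEquiv_map, AddEquiv.apply_symm_apply]
  exact ht

theorem pb_apply (G : EtSh) {n : ℕ} {X Y : Scheme.{0}} (f : Y ⟶ X) (α : HG G n X) :
    pb G f α = (Abelian.Ext.mk₀ (Zf.map f)).comp α (zero_add n) := rfl

theorem locTriv : LocTrivStmt := by
  intro G X n
  induction n generalizing G with
  | zero =>
    intro β
    let S := ShortComplex.mk (Injective.ι G) (cokernel.π (Injective.ι G)) (cokernel.condition _)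
    have hS : S.ShortExact :=
      { exact := ShortComplex.exact_cokernel _ }
    obtain ⟨q, hq⟩ := Abelian.Ext.covariant_sequence_exact₁ (Zf.obj X) hS β
      (Abelian.Ext.eq_zero_of_injective _) (n₀ := 0) rfl
    obtain ⟨q, rfl⟩ := (Abelian.Ext.mk₀_bijective _ _).2 q
    obtain ⟨R, hR, h⟩ := exists_lift S.g q
    refine ⟨R, hR, fun Y f hf => ?_⟩
    obtain ⟨i, hi⟩ := h Y f hf
    rw [← hq, pb_apply, Abelian.Ext.mk₀_comp_mk₀_assoc, ← hi, ← Abelian.Ext.mk₀_comp_mk₀,
      Abelian.Ext.comp_assoc_of_second_deg_zero, hS.comp_extClass, Abelian.Ext.comp_zero]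
  | succ n ih =>
    intro β
    let S := ShortComplex.mk (Injective.ι G) (cokernel.π (Injective.ι G)) (cokernel.condition _)
    have hS : S.ShortExact :=
      { exact := ShortComplex.exact_cokernel _ }
    obtain ⟨q, hq⟩ := Abelian.Ext.covariant_sequence_exact₁ (Zf.obj X) hS β
      (Abelian.Ext.eq_zero_of_injective _) (n₀ := n + 1) rfl
    obtain ⟨R, hR, h⟩ := ih _ q
    refine ⟨R, hR, fun Y f hf => ?_⟩
    have hi := h Y f hf
    rw [pb_apply] at hi
    rw [← hq, pb_apply, ← Abelian.Ext.comp_assoc, hi, Abelian.Ext.zero_comp]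
    all_goals omega

end Pool.Agent.Lib.MP_b73640_ag
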