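import Mathlib
import Pool.Agent.Lib.MP_b73640_ag.LocTriv

/-! The exact sequences `0 ⟶ K ⟶ ℤ[Y] ⟶ ℤ[X] ⟶ 0` and `0 ⟶ ℤ[X] ⟶ ℤ[Y] ⟶ K ⟶ 0` of a
`ℤ/2`-torsor `Y ⟶ X`. -/

open CategoryTheory AlgebraicGeometry Opposite Limits

namespace Pool.Agent.Lib.MP_b73640_ag

/-- The induced morphism of free presheaves. -/
noncomputable abbrev preMap {X Y : Scheme.{0}} (f : Y ⟶ X) : preZf Y ⟶ preZf X :=
  Functor.whiskerRight (uliftYoneda.{1}.map f) AddCommGrpCat.free.{1}

/-- The generator of `preZf Y` given by `g : T ⟶ Y`. -/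
noncomputable def gen {T Y : Scheme.{0}} (g : T ⟶ Y) : (preZf Y).obj (op T) :=
  (FreeAbelianGroup.of (ULift.up g) : FreeAbelianGroup (ULift.{1} (T ⟶ Y)))

theorem preMap_gen {T X Y : Scheme.{0}} (f : Y ⟶ X) (g : T ⟶ Y) :
    (preMap f).app (op T) (gen g) = gen (g ≫ f) := rfl

theorem map_gen {T T' Y : Scheme.{0}} (k : T' ⟶ T) (g : T ⟶ Y) :
    (preZf Y).map k.op (gen g) = gen (k ≫ g) := rfl

theorem gen_induction {T Y : Scheme.{0}} {C : (preZf Y).obj (op T) → Prop}
    (x : (preZf Y).obj (op T)) (h0 : C 0) (h1 : ∀ g : T ⟶ Y, C (gen g))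
    (hn : ∀ x, C x → C (-x)) (ha : ∀ x y, C x → C y → C (x + y)) : C x :=
  FreeAbelianGroup.induction_on (motive := C) x h0 (fun g => h1 g.down) (fun _ h => hn _ h) ha

/-- Sections which are locally in the image. -/
def locRange {P Q : Scheme.{0}ᵒᵖ ⥤ AddCommGrpCat.{1}} (f : P ⟶ Q) (T : Scheme.{0}) :
    AddSubgroup (Q.obj (op T)) where
  carrier := {x | ∃ S ∈ Scheme.etaleTopology.{0} T, ∀ (T' : Scheme.{0}) (k : T' ⟶ T), S k →
        ∃ y : P.obj (op T'), f.app (op T') y = Q.map k.op x}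
  zero_mem' := ⟨⊤, Scheme.etaleTopology.{0}.top_mem T, fun T' k _ => ⟨0, by simp⟩⟩
  add_mem' := by
    rintro x x' ⟨S, hS, h⟩ ⟨S', hS', h'⟩
    refine ⟨S ⊓ S', Scheme.etaleTopology.{0}.intersection_covering hS hS', fun T' k hk => ?_⟩
    obtain ⟨y, hy⟩ := h T' k hk.1
    obtain ⟨y', hy'⟩ := h' T' k hk.2
    exact ⟨y + y', by rw [map_add, map_add, hy, hy']⟩
  neg_mem' := by
    rintro x ⟨S, hS, h⟩
    refine ⟨S, hS, fun T' k hk => ?_⟩
    obtain ⟨y, hy⟩ := h T' k hk
    exact ⟨-y, by rw [map_neg, map_neg, hy]⟩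

theorem app_mem_locRange {P Q : Scheme.{0}ᵒᵖ ⥤ AddCommGrpCat.{1}} (f : P ⟶ Q) (T : Scheme.{0})
    (y : P.obj (op T)) : f.app (op T) y ∈ locRange f T :=
  ⟨⊤, Scheme.etaleTopology.{0}.top_mem T, fun _ k _ => ⟨P.map k.op y,
    ConcreteCategory.congr_hom (f.naturality k.op) y⟩⟩

theorem exact_of_locally {P Q R : Scheme.{0}ᵒᵖ ⥤ AddCommGrpCat.{1}} (f : P ⟶ Q) (g : Q ⟶ R)
    (w : f ≫ g = 0)
    (h : ∀ (T : Scheme.{0}) (x : Q.obj (op T)), g.app (op T) x = 0 → x ∈ locRange f T) :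
    ((ShortComplex.mk f g w).map
      (presheafToSheaf Scheme.etaleTopology.{0} AddCommGrpCat.{1})).Exact := by
  let H := (ShortComplex.mk f g w).leftHomologyData
  have key : Presheaf.IsLocallySurjective Scheme.etaleTopology.{0} H.f' := by
    constructor
    intro T z
    have hx : g.app (op T) (H.i.app (op T) z) = 0 := by
      have := ConcreteCategory.congr_hom (congr_app H.wi (op T)) z
      exact this
    obtain ⟨S, hS, hy⟩ := h T _ hx
    refine Scheme.etaleTopology.{0}.superset_covering ?_ hS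
    intro T' k hk
    obtain ⟨y, hy⟩ := hy T' k hk
    refine ⟨y, ?_⟩
    have hinj : Function.Injective (H.i.app (op T')) := by
      rw [← AddCommGrpCat.mono_iff_injective]
      infer_instance
    apply hinj
    have h1 := ConcreteCategory.congr_hom (congr_app H.f'_i (op T')) y
    have h2 := ConcreteCategory.congr_hom (H.i.naturality k.op) z
    exact h1.trans (hy.trans h2.symm)
  have k2 := (Presheaf.isLocallySurjective_presheafToSheaf_map_iff
    Scheme.etaleTopology.{0} H.f').2 key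
  rw [(H.map (presheafToSheaf Scheme.etaleTopology.{0} AddCommGrpCat.{1})).exact_iff_epi_f',
    ShortComplex.LeftHomologyData.map_f']
  exact (Sheaf.isLocallySurjective_iff_epi' AddCommGrpCat.{1} _).1 k2

theorem exact_of_locally' {P Q R : Scheme.{0}ᵒᵖ ⥤ AddCommGrpCat.{1}} (f : P ⟶ Q) (g : Q ⟶ R)
    (w : f ≫ g = 0)
    (h : ∀ (T : Scheme.{0}) (x : Q.obj (op T)), g.app (op T) x = 0 → x ∈ locRange f T)
    {f' : (presheafToSheaf Scheme.etaleTopology.{0} AddCommGrpCat.{1}).obj P ⟶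
      (presheafToSheaf Scheme.etaleTopology.{0} AddCommGrpCat.{1}).obj Q}
    {g' : (presheafToSheaf Scheme.etaleTopology.{0} AddCommGrpCat.{1}).obj Q ⟶
      (presheafToSheaf Scheme.etaleTopology.{0} AddCommGrpCat.{1}).obj R}
    (hf : (presheafToSheaf Scheme.etaleTopology.{0} AddCommGrpCat.{1}).map f = f')
    (hg : (presheafToSheaf Scheme.etaleTopology.{0} AddCommGrpCat.{1}).map g = g')
    (w' : f' ≫ g' = 0) : (ShortComplex.mk f' g' w').Exact := by
  subst hf hg
  exact exact_of_locally f g w h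

theorem epi_of_locally {P Q : Scheme.{0}ᵒᵖ ⥤ AddCommGrpCat.{1}} (f : P ⟶ Q)
    (h : ∀ (T : Scheme.{0}) (x : Q.obj (op T)), x ∈ locRange f T) :
    Epi ((presheafToSheaf Scheme.etaleTopology.{0} AddCommGrpCat.{1}).map f) := by
  have key : Presheaf.IsLocallySurjective Scheme.etaleTopology.{0} f := by
    constructor
    intro T z
    obtain ⟨S, hS, hy⟩ := h T z
    refine Scheme.etaleTopology.{0}.superset_covering ?_ hS
    intro T' k hk
    exact hy T' k hk
  have k2 := (Presheaf.isLocallySurjective_presheafToSheaf_map_iff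
    Scheme.etaleTopology.{0} f).2 key
  exact (Sheaf.isLocallySurjective_iff_epi' AddCommGrpCat.{1} _).1 k2

/-- In a type with a free involution there is a set of representatives of the orbits. -/
theorem exists_reps {H : Type*} (τ : H → H) (h1 : ∀ h, τ (τ h) = h) (h2 : ∀ h, τ h ≠ h) :
    ∃ D : H → Prop, ∀ h, D (τ h) ↔ ¬ D h := by
  refine ⟨fun h => WellOrderingRel h (τ h), fun h => ?_⟩
  simp only [h1]
  constructor
  · intro a b
    exact asymm a b
  · intro a
    rcases trichotomous_of WellOrderingRel h (τ h) with b | b | b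
    · exact absurd b a
    · exact absurd b.symm (h2 h)
    · exact b

open Classical in
/-- The free abelian group on a type with a free involution. -/
theorem exists_retract {H : Type*} (τ : H → H) (h1 : ∀ h, τ (τ h) = h) (h2 : ∀ h, τ h ≠ h) :
    ∃ ρ : FreeAbelianGroup H →+ FreeAbelianGroup H, ∀ x,
      ρ x + FreeAbelianGroup.map τ (ρ (FreeAbelianGroup.map τ x)) = x := by
  obtain ⟨D, hD⟩ := exists_reps τ h1 h2
  refine ⟨FreeAbelianGroup.lift (fun h => if D h then FreeAbelianGroup.of h else 0), fun x => ?_⟩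
  induction x using FreeAbelianGroup.induction_on with
  | zero => simp
  | of h =>
    by_cases hh : D h <;> simp [hD, hh, h1]
  | neg h ih =>
    rw [map_neg, map_neg, map_neg, map_neg, ← neg_add, ih]
  | add x y hx hy =>
    rw [map_add, map_add, map_add, map_add, add_add_add_comm, hx, hy]


namespace Tor

variable (T : Tor)

/-- `ℤ[Y] ⟶ ℤ[X]`. -/
noncomputable abbrev p : Zf.obj T.Y ⟶ Zf.obj T.X := Zf.map T.π

/-- The involution of `ℤ[Y]`. -/
noncomputable abbrev s : Zf.obj T.Y ⟶ Zf.obj T.Y := Zf.map T.σ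

theorem s_p : T.s ≫ T.p = T.p := by
  rw [← Functor.map_comp, T.σ_π]

theorem s_s : T.s ≫ T.s = 𝟙 _ := by
  rw [← Functor.map_comp, T.σ_σ, CategoryTheory.Functor.map_id]

theorem sub_p : (𝟙 _ - T.s) ≫ T.p = 0 := by
  rw [Preadditive.sub_comp, Category.id_comp, s_p, sub_self]

theorem sub_add : (𝟙 _ - T.s) ≫ (𝟙 _ + T.s) = 0 := by
  rw [Preadditive.sub_comp, Category.id_comp, Preadditive.comp_add, Category.comp_id, s_s]
  abel

theorem add_sub : (𝟙 _ + T.s) ≫ (𝟙 _ - T.s) = 0 := by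
  rw [Preadditive.add_comp, Category.id_comp, Preadditive.comp_sub, Category.comp_id, s_s]
  abel

theorem pre_s_s : preMap T.σ ≫ preMap T.σ = 𝟙 _ := by
  rw [preMap, ← Functor.whiskerRight_comp, ← Functor.map_comp, T.σ_σ, CategoryTheory.Functor.map_id]
  exact ((Functor.whiskeringRight _ _ _).obj AddCommGrpCat.free.{1}).map_id _

theorem pre_s_p : preMap T.σ ≫ preMap T.π = preMap T.π := by
  rw [preMap, preMap, ← Functor.whiskerRight_comp, ← Functor.map_comp, T.σ_π]

theorem pre_sub_p : (𝟙 _ - preMap T.σ) ≫ preMap T.π = 0 := by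
  rw [Preadditive.sub_comp, Category.id_comp, pre_s_p, sub_self]

theorem pre_sub_add : (𝟙 _ - preMap T.σ) ≫ (𝟙 _ + preMap T.σ) = 0 := by
  rw [Preadditive.sub_comp, Category.id_comp, Preadditive.comp_add, Category.comp_id, pre_s_s]
  abel

theorem pre_add_sub : (𝟙 _ + preMap T.σ) ≫ (𝟙 _ - preMap T.σ) = 0 := by
  rw [Preadditive.add_comp, Category.id_comp, Preadditive.comp_sub, Category.comp_id, pre_s_s]
  abel

instance : Epi T.p := by
  refine epi_of_locally (preMap T.π) fun Z x => ?_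
  induction x using gen_induction with
  | h0 => exact zero_mem _
  | hn x hx => exact neg_mem hx
  | ha x y hx hy => exact add_mem hx hy
  | h1 g =>
    refine ⟨_, Scheme.etaleTopology.{0}.pullback_stable g T.cover, fun Z' k hk => ?_⟩
    obtain ⟨_, a, _, ⟨rfl⟩, ha⟩ := hk
    exact ⟨gen a, by rw [preMap_gen, map_gen, ha]⟩

theorem map_sub_eq : (presheafToSheaf Scheme.etaleTopology.{0} AddCommGrpCat.{1}).map
    (𝟙 _ - preMap T.σ) = 𝟙 _ - T.s := by
  rw [Functor.map_sub, CategoryTheory.Functor.map_id]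
  rfl

theorem map_add_eq : (presheafToSheaf Scheme.etaleTopology.{0} AddCommGrpCat.{1}).map
    (𝟙 _ + preMap T.σ) = 𝟙 _ + T.s := by
  rw [Functor.map_add, CategoryTheory.Functor.map_id]
  rfl

open Classical in
/-- A section of `π` on generators. -/
noncomputable def psi (Z : Scheme.{0}) :
    (preZf T.X).obj (op Z) →+ (preZf T.Y).obj (op Z) :=
  (FreeAbelianGroup.lift fun c =>
    if h : ∃ k : Z ⟶ T.Y, k ≫ T.π = c.down then FreeAbelianGroup.of ⟨h.choose⟩ else 0 :
    FreeAbelianGroup (ULift.{1} (Z ⟶ T.X)) →+ FreeAbelianGroup (ULift.{1} (Z ⟶ T.Y)))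

theorem psi_gen (Z : Scheme.{0}) (k : Z ⟶ T.Y) :
    ∃ k' : Z ⟶ T.Y, k' ≫ T.π = k ≫ T.π ∧ T.psi Z (gen (k ≫ T.π)) = gen k' := by
  have h : ∃ k' : Z ⟶ T.Y, k' ≫ T.π = k ≫ T.π := ⟨k, rfl⟩
  refine ⟨h.choose, h.choose_spec, ?_⟩
  refine (FreeAbelianGroup.lift_apply_of _ _).trans ?_
  exact dif_pos h

theorem pre_sub_apply {Z : Scheme.{0}} (x : (preZf T.Y).obj (op Z)) :
    (𝟙 _ - preMap T.σ).app (op Z) x = x - (preMap T.σ).app (op Z) x := rfl

theorem pre_add_apply {Z : Scheme.{0}} (x : (preZf T.Y).obj (op Z)) :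
    (𝟙 _ + preMap T.σ).app (op Z) x = x + (preMap T.σ).app (op Z) x := rfl

theorem exists_retract (Z : Scheme.{0}) (hZ : ¬ IsEmpty Z) :
    ∃ ρ : (preZf T.Y).obj (op Z) →+ (preZf T.Y).obj (op Z), ∀ x : (preZf T.Y).obj (op Z),
      ρ x + (preMap T.σ).app (op Z) (ρ ((preMap T.σ).app (op Z) x)) = x := by
  refine MP_b73640_ag.exists_retract
    (fun k : ULift.{1} (Z ⟶ T.Y) => ULift.up (k.down ≫ T.σ)) (fun k => ?_) (fun k hk => hZ ?_)
  · change ULift.up ((k.down ≫ T.σ) ≫ T.σ) = k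
    rw [Category.assoc, T.σ_σ, Category.comp_id]
  · exact T.free Z k.down (congrArg ULift.down hk)

theorem mem_of_isEmpty {P Q : Scheme.{0}ᵒᵖ ⥤ AddCommGrpCat.{1}} (f : P ⟶ Q) (Z : Scheme.{0})
    (hZ : IsEmpty Z) (x : Q.obj (op Z)) : x ∈ locRange f Z :=
  ⟨⊥, Z.bot_mem_grothendieckTopology, fun _ _ h => h.elim⟩

theorem exact_sub_p : (ShortComplex.mk (𝟙 _ - T.s) T.p T.sub_p).Exact := by
  refine exact_of_locally' (𝟙 _ - preMap T.σ) (preMap T.π) T.pre_sub_p (fun Z x hx => ?_)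
    T.map_sub_eq rfl _
  have key : ∀ x : (preZf T.Y).obj (op Z), x - T.psi Z ((preMap T.π).app (op Z) x) ∈
      locRange (𝟙 _ - preMap T.σ) Z := by
    intro x
    induction x using gen_induction with
    | h0 =>
      rw [map_zero, map_zero, sub_zero]
      exact zero_mem _
    | hn x hx =>
      have := neg_mem hx
      rw [map_neg, map_neg]
      convert this using 1
      abel
    | ha x y hx hy =>
      rw [map_add, map_add, add_sub_add_comm]
      exact add_mem hx hy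
    | h1 g =>
      rw [preMap_gen]
      obtain ⟨k', h1, h2⟩ := T.psi_gen Z g
      rw [h2]
      obtain ⟨R, hR, h⟩ := T.two Z g k' h1.symm
      refine ⟨R, hR, fun Z' f hf => ?_⟩
      rcases h Z' f hf with h3 | h3
      · refine ⟨0, ?_⟩
        rw [map_zero, map_sub, map_gen, map_gen, h3, sub_self]
      · refine ⟨-gen (f ≫ k'), ?_⟩
        rw [map_neg, map_sub, map_gen, map_gen, h3, ← Category.assoc]
        rw [pre_sub_apply, preMap_gen]
        abel
  have := key x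
  rwa [hx, map_zero, sub_zero] at this

theorem exact_add_sub : (ShortComplex.mk (𝟙 _ + T.s) (𝟙 _ - T.s) T.add_sub).Exact := by
  refine exact_of_locally' (𝟙 _ + preMap T.σ) (𝟙 _ - preMap T.σ) T.pre_add_sub (fun Z x hx => ?_)
    T.map_add_eq T.map_sub_eq _
  by_cases hZ : IsEmpty Z
  · exact mem_of_isEmpty _ _ hZ _
  · obtain ⟨ρ, hρ⟩ := T.exists_retract Z hZ
    rw [pre_sub_apply, sub_eq_zero] at hx
    have h := hρ x
    rw [← hx] at h
    have h2 := app_mem_locRange (𝟙 _ + preMap T.σ) Z (ρ x)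
    rwa [pre_add_apply, h] at h2

theorem exact_sub_add : (ShortComplex.mk (𝟙 _ - T.s) (𝟙 _ + T.s) T.sub_add).Exact := by
  refine exact_of_locally' (𝟙 _ - preMap T.σ) (𝟙 _ + preMap T.σ) T.pre_sub_add (fun Z x hx => ?_)
    T.map_sub_eq T.map_add_eq _
  by_cases hZ : IsEmpty Z
  · exact mem_of_isEmpty _ _ hZ _
  · obtain ⟨ρ, hρ⟩ := T.exists_retract Z hZ
    rw [pre_add_apply, add_eq_zero_iff_neg_eq] at hx
    have h := hρ x
    rw [← hx, map_neg, map_neg, ← sub_eq_add_neg] at h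
    have h2 := app_mem_locRange (𝟙 _ - preMap T.σ) Z (ρ x)
    rwa [pre_sub_apply, h] at h2

/-- The kernel of `ℤ[Y] ⟶ ℤ[X]`. -/
noncomputable abbrev K : EtSh := kernel T.p

/-- `1 - s` as a morphism to the kernel of `ℤ[Y] ⟶ ℤ[X]`. -/
noncomputable abbrev u : Zf.obj T.Y ⟶ T.K := kernel.lift T.p (𝟙 _ - T.s) T.sub_p

theorem u_ι : T.u ≫ kernel.ι T.p = 𝟙 _ - T.s := kernel.lift_ι _ _ _

instance : Epi T.u :=
  (ShortComplex.exact_iff_epi_kernel_lift _).1 T.exact_sub_p

theorem ι_add : kernel.ι T.p ≫ (𝟙 _ + T.s) = 0 := by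
  rw [← cancel_epi T.u, ← Category.assoc, u_ι, sub_add, comp_zero]

theorem exact1 : (ShortComplex.mk (kernel.ι T.p) T.p (kernel.condition _)).ShortExact :=
  { exact := ShortComplex.exact_kernel _ }

/-- The norm `ℤ[X] ⟶ ℤ[Y]`. -/
noncomputable def N : Zf.obj T.X ⟶ Zf.obj T.Y := T.exact1.exact.desc (𝟙 _ + T.s) T.ι_add

theorem p_N : T.p ≫ T.N = 𝟙 _ + T.s := T.exact1.exact.g_desc _ _

theorem N_p : T.N ≫ T.p = 𝟙 _ + 𝟙 _ := by
  rw [← cancel_epi T.p, ← Category.assoc, p_N, Preadditive.add_comp, s_p, Preadditive.comp_add,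
    Category.id_comp, Category.comp_id]

theorem N_sub : T.N ≫ (𝟙 _ - T.s) = 0 := by
  rw [← cancel_epi T.p, ← Category.assoc, p_N, add_sub, comp_zero]

theorem N_s : T.N ≫ T.s = T.N := by
  have := T.N_sub
  rw [Preadditive.comp_sub, Category.comp_id, sub_eq_zero] at this
  exact this.symm

theorem N_u : T.N ≫ T.u = 0 := by
  rw [← cancel_mono (kernel.ι T.p), Category.assoc, u_ι, N_sub, zero_comp]

instance : Mono T.N := by
  refine Preadditive.mono_of_cancel_zero _ fun {A} f hf => ?_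
  obtain ⟨A', a, ha, g, hg⟩ := surjective_up_to_refinements_of_epi T.p f
  have h1 : g ≫ (𝟙 _ + T.s) = 0 := by
    rw [← p_N, ← Category.assoc, ← hg, Category.assoc, hf, comp_zero]
  obtain ⟨A'', b, hb, h, hh⟩ := T.exact_sub_add.exact_up_to_refinements g h1
  have h2 : b ≫ g ≫ T.p = 0 := by
    rw [← Category.assoc, hh, Category.assoc, sub_p, comp_zero]
  rw [← hg] at h2
  rw [← cancel_epi (b ≫ a), Category.assoc, h2, comp_zero]

theorem exact2 : (ShortComplex.mk T.N T.u T.N_u).ShortExact :=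
  { exact := by
      rw [ShortComplex.exact_iff_exact_up_to_refinements]
      intro A g hg
      have hg' : g ≫ (𝟙 _ - T.s) = 0 := by
        rw [← u_ι, ← Category.assoc, hg, zero_comp]
      obtain ⟨A', a, ha, h, hh⟩ := T.exact_add_sub.exact_up_to_refinements g hg'
      exact ⟨A', a, ha, h ≫ T.p, by rw [Category.assoc, p_N, hh]⟩ }

theorem N_natural (T T' : Tor) (f : T.X ⟶ T'.X) (g : T.Y ⟶ T'.Y) (h : g ≫ T'.π = T.π ≫ f)
    (h' : T.σ ≫ g = g ≫ T'.σ) : Zf.map f ≫ T'.N = T.N ≫ Zf.map g := by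
  rw [← cancel_epi T.p, ← Category.assoc, ← Category.assoc, p_N, ← Functor.map_comp, ← h,
    Functor.map_comp, Category.assoc, p_N, Preadditive.add_comp, Preadditive.comp_add,
    Category.id_comp, Category.comp_id, ← Functor.map_comp, ← h', Functor.map_comp]

end Tor

end Pool.Agent.Lib.MP_b73640_ag
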