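import Mathlib
import Pool.Agent.Lib.MP_b73640_ag.Stmts
import Pool.Agent.Lib.MP_b73640_ag.LocTriv
import Pool.Agent.Lib.MP_b73640_ag.TorSeq

/-! Cup product with the class of a torsor. -/

open CategoryTheory AlgebraicGeometry Opposite Limits Abelian

namespace Pool.Agent.Lib.MP_b73640_ag

/-- Morphisms of torsors. -/
structure TorHom (T' T : Tor) where
  f : T'.X ⟶ T.X
  g : T'.Y ⟶ T.Y
  w : g ≫ T.π = T'.π ≫ f
  v : T'.σ ≫ g = g ≫ T.σ

namespace Tor

variable (T : Tor) (G : EtSh)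

/-- The map `Hⁿ(X, G) → Hⁿ⁺²(X, G)` given by the class of the torsor. -/
noncomputable def cup (n : ℕ) : HG G n T.X →+ HG G (n + 2) T.X :=
  (T.exact1.extClass.precomp G (show 1 + (n + 1) = n + 2 by omega)).comp
    (T.exact2.extClass.precomp G (show 1 + n = n + 1 by omega))

/-- The transfer. -/
noncomputable def tr (n : ℕ) : HG G n T.Y →+ HG G n T.X :=
  (Ext.mk₀ T.N).precomp G (zero_add n)

theorem cup_apply {n : ℕ} (β : HG G n T.X) : T.cup G n β =
    T.exact1.extClass.comp (T.exact2.extClass.comp β (show 1 + n = n + 1 by omega))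
      (show 1 + (n + 1) = n + 2 by omega) := rfl

theorem tr_apply {n : ℕ} (γ : HG G n T.Y) : T.tr G n γ = (Ext.mk₀ T.N).comp γ (zero_add n) := rfl

theorem cup_tr {n : ℕ} (γ : HG G n T.Y) : T.cup G n (T.tr G n γ) = 0 := by
  rw [cup_apply, tr_apply, T.exact2.extClass_comp_assoc, Ext.comp_zero]

theorem pb_tr {n : ℕ} (γ : HG G n T.Y) : pb G T.π (T.tr G n γ) = γ + pb G T.σ γ := by
  rw [pb_apply, tr_apply, Ext.mk₀_comp_mk₀_assoc, T.p_N, Ext.mk₀_add, Ext.add_comp,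
    Ext.mk₀_id_comp, pb_apply]

theorem tr_pb {n : ℕ} (β : HG G n T.X) : T.tr G n (pb G T.π β) = β + β := by
  rw [pb_apply, tr_apply, Ext.mk₀_comp_mk₀_assoc, T.N_p, Ext.mk₀_add, Ext.add_comp,
    Ext.mk₀_id_comp]

theorem two_cup {n : ℕ} (β : HG G n T.X) : (2 : ℕ) • T.cup G n β = 0 := by
  rw [← map_nsmul, two_nsmul, ← tr_pb, cup_tr]

theorem exists_tr {n : ℕ} (β : HG G n T.X) (h : T.cup G n β = 0)
    (h0 : ∀ γ : HG G (n + 1) T.Y, γ = 0) : ∃ γ : HG G n T.Y, T.tr G n γ = β := by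
  rw [cup_apply] at h
  obtain ⟨x, hx⟩ := Ext.contravariant_sequence_exact₁ T.exact1 G
    (T.exact2.extClass.comp β (show 1 + n = n + 1 by omega)) _ h
  have hx0 : x = 0 := h0 x
  rw [hx0, Ext.comp_zero] at hx
  exact Ext.contravariant_sequence_exact₁ T.exact2 G β _ hx.symm

end Tor

namespace TorHom

variable {T' T : Tor} (h : TorHom T' T) (G : EtSh)

/-- The map on kernels. -/
noncomputable def k : T'.K ⟶ T.K :=
  kernel.map T'.p T.p (Zf.map h.g) (Zf.map h.f) (by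
    rw [← Functor.map_comp, ← Functor.map_comp, h.w])

theorem k_ι : h.k ≫ kernel.ι T.p = kernel.ι T'.p ≫ Zf.map h.g := by
  simp [k]

theorem u_k : T'.u ≫ h.k = Zf.map h.g ≫ T.u := by
  rw [← cancel_mono (kernel.ι T.p)]
  simp only [Category.assoc, k_ι, kernel.lift_ι, kernel.lift_ι_assoc, Preadditive.sub_comp,
    Preadditive.comp_sub, Category.id_comp, Category.comp_id]
  rw [← Functor.map_comp, ← Functor.map_comp, h.v]

theorem ext1 : T'.exact1.extClass.comp (Ext.mk₀ h.k) (add_zero 1) =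
    (Ext.mk₀ (Zf.map h.f)).comp T.exact1.extClass (zero_add 1) :=
  ShortComplex.ShortExact.extClass_naturality T'.exact1 T.exact1
    { τ₁ := h.k, τ₂ := Zf.map h.g, τ₃ := Zf.map h.f, comm₁₂ := h.k_ι,
      comm₂₃ := by
        dsimp
        rw [← Functor.map_comp, ← Functor.map_comp, h.w] }

theorem ext2 : T'.exact2.extClass.comp (Ext.mk₀ (Zf.map h.f)) (add_zero 1) =
    (Ext.mk₀ h.k).comp T.exact2.extClass (zero_add 1) :=
  ShortComplex.ShortExact.extClass_naturality T'.exact2 T.exact2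
    { τ₁ := Zf.map h.f, τ₂ := Zf.map h.g, τ₃ := h.k,
      comm₁₂ := Tor.N_natural T' T h.f h.g h.w h.v,
      comm₂₃ := h.u_k.symm }

theorem pb_cup {n : ℕ} (β : HG G n T.X) :
    pb G h.f (T.cup G n β) = T'.cup G n (pb G h.f β) := by
  rw [pb_apply, pb_apply, Tor.cup_apply, Tor.cup_apply]
  rw [← Ext.comp_assoc (Ext.mk₀ (Zf.map h.f)) T.exact1.extClass _ (zero_add 1) _ _, ← h.ext1]
  rw [Ext.comp_assoc_of_second_deg_zero]
  rw [← Ext.comp_assoc (Ext.mk₀ h.k) T.exact2.extClass _ (zero_add 1) _ _, ← h.ext2]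
  rw [Ext.comp_assoc_of_second_deg_zero]
  all_goals omega

theorem pb_tr {n : ℕ} (γ : HG G n T.Y) : pb G h.f (T.tr G n γ) = T'.tr G n (pb G h.g γ) := by
  rw [pb_apply, pb_apply, Tor.tr_apply, Tor.tr_apply, Ext.mk₀_comp_mk₀_assoc,
    Ext.mk₀_comp_mk₀_assoc, Tor.N_natural T' T h.f h.g h.w h.v]

end TorHom

/-- Classes of degree `n + 2` which vanish on the torsor are, locally, cup products. -/
theorem Tor.exists_cup (T : Tor) (G : EtSh) {n : ℕ} (β : HG G (n + 2) T.X)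
    (hβ : pb G T.π β = 0) : ∃ γ : HG G (n + 1) T.Y, ∀ (T' : Tor) (h : TorHom T' T),
      pb G h.g γ = 0 → ∃ β' : HG G n T'.X, T'.cup G n β' = pb G h.f β := by
  obtain ⟨κ, hκ⟩ := Ext.contravariant_sequence_exact₃ T.exact1 G β hβ
    (show 1 + (n + 1) = n + 2 by omega)
  refine ⟨(Ext.mk₀ T.u).comp κ (zero_add _), fun T' h hγ => ?_⟩
  rw [pb_apply, Ext.mk₀_comp_mk₀_assoc, ← h.u_k, ← Ext.mk₀_comp_mk₀_assoc] at hγ
  obtain ⟨β', hβ'⟩ := Ext.contravariant_sequence_exact₃ T'.exact2 G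
    ((Ext.mk₀ h.k).comp κ (zero_add _)) hγ (show 1 + n = n + 1 by omega)
  refine ⟨β', ?_⟩
  rw [Tor.cup_apply, hβ', ← hκ, pb_apply]
  rw [← Ext.comp_assoc (Ext.mk₀ (Zf.map h.f)) T.exact1.extClass _ (zero_add 1) _ _, ← h.ext1]
  rw [Ext.comp_assoc_of_second_deg_zero]
  all_goals omega

end Pool.Agent.Lib.MP_b73640_ag
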