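import Mathlib
import Pool.Agent.Lib.MP_b73640_ag.Stmts

/-! Module G2: the projective line over a field is a curve. -/

open CategoryTheory AlgebraicGeometry Opposite Limits TopologicalSpace

namespace Pool.Agent.Lib.MP_b73640_ag.CurveG2

attribute [local instance] MvPolynomial.gradedAlgebra

variable (F : Type) [Field F]

instance tower : IsScalarTower F ((MvPolynomial.homogeneousSubmodule (Fin 2) F) 0) (MvPolynomial (Fin 2) F) :=
  @IsScalarTower.of_algebraMap_eq F ((MvPolynomial.homogeneousSubmodule (Fin 2) F) 0) (MvPolynomial (Fin 2) F) _ _ _ _ _ _ (fun _ => rfl)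

instance finType : Algebra.FiniteType ((MvPolynomial.homogeneousSubmodule (Fin 2) F) 0) (MvPolynomial (Fin 2) F) := by
  exact Algebra.FiniteType.of_restrictScalars_finiteType F ((MvPolynomial.homogeneousSubmodule (Fin 2) F) 0) (MvPolynomial (Fin 2) F)

theorem surj_zero : Function.Surjective (algebraMap F ((MvPolynomial.homogeneousSubmodule (Fin 2) F) 0)) := by
  rintro ⟨x, hx⟩
  rw [MvPolynomial.homogeneousSubmodule_zero] at hx
  obtain ⟨c, rfl⟩ := Submodule.mem_one.1 hx
  exact ⟨c, rfl⟩

theorem adj : Algebra.adjoin ((MvPolynomial.homogeneousSubmodule (Fin 2) F) 0) (Set.range (MvPolynomial.X : Fin 2 → MvPolynomial (Fin 2) F)) = ⊤ := by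
  have h := MvPolynomial.adjoin_range_X (R := F) (σ := Fin 2)
  rw [eq_top_iff]
  intro x _
  have hx : x ∈ Algebra.adjoin F (Set.range (MvPolynomial.X : Fin 2 → MvPolynomial (Fin 2) F)) := by
    rw [h]; trivial
  exact Algebra.adjoin_le (S := (Algebra.adjoin ((MvPolynomial.homogeneousSubmodule (Fin 2) F) 0) (Set.range (MvPolynomial.X : Fin 2 → MvPolynomial (Fin 2) F))).restrictScalars F) Algebra.subset_adjoin hx

theorem X_mem (i : Fin 2) : (MvPolynomial.X i : MvPolynomial (Fin 2) F) ∈ (MvPolynomial.homogeneousSubmodule (Fin 2) F) 1 :=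
  MvPolynomial.isHomogeneous_X F i

/-- The coordinate `X j / X i`. -/
noncomputable def coord (i j : Fin 2) :
    HomogeneousLocalization.Away (MvPolynomial.homogeneousSubmodule (Fin 2) F) (MvPolynomial.X i : MvPolynomial (Fin 2) F) :=
  HomogeneousLocalization.Away.mk (MvPolynomial.homogeneousSubmodule (Fin 2) F) (X_mem F i) 1 (MvPolynomial.X j) (by simpa using X_mem F j)

/-- The map `F[t] → 𝒜_(X i)`, `t ↦ X j / X i`. -/
noncomputable def psi (i j : Fin 2) : Polynomial F →+*
    HomogeneousLocalization.Away (MvPolynomial.homogeneousSubmodule (Fin 2) F) (MvPolynomial.X i : MvPolynomial (Fin 2) F) :=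
  Polynomial.eval₂RingHom ((algebraMap ((MvPolynomial.homogeneousSubmodule (Fin 2) F) 0) _).comp (algebraMap F ((MvPolynomial.homogeneousSubmodule (Fin 2) F) 0))) (coord F i j)

theorem psi_surj (i j : Fin 2) (hij : i ≠ j) : Function.Surjective (psi F i j) := by
  have h := HomogeneousLocalization.Away.span_mk_prod_pow_eq_top (X_mem F i)
    (MvPolynomial.X : Fin 2 → MvPolynomial (Fin 2) F) (adj F) (fun _ => 1) (X_mem F)
  intro x
  have hx : x ∈ (⊤ : Submodule ((MvPolynomial.homogeneousSubmodule (Fin 2) F) 0) (HomogeneousLocalization.Away (MvPolynomial.homogeneousSubmodule (Fin 2) F) (MvPolynomial.X i : MvPolynomial (Fin 2) F))) := trivial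
  rw [← h] at hx
  change x ∈ (psi F i j).range
  induction hx using Submodule.span_induction with
  | mem y hy =>
    obtain ⟨a, ai, hai, rfl⟩ := hy
    refine ⟨Polynomial.X ^ (ai j), ?_⟩
    rw [map_pow]
    have : psi F i j Polynomial.X = coord F i j := by simp [psi]
    rw [this]
    ext
    have ha : ai i + ai j = a := by
      have : ∑ k, ai k = a := by simpa using hai
      rw [← this, Fin.sum_univ_two]
      fin_cases i <;> fin_cases j <;> simp_all [add_comm]
    have hp : ∏ k, (MvPolynomial.X k : MvPolynomial (Fin 2) F) ^ ai k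
        = MvPolynomial.X i ^ ai i * MvPolynomial.X j ^ ai j := by
      rw [Fin.prod_univ_two]
      fin_cases i <;> fin_cases j <;> simp_all [mul_comm]
    rw [HomogeneousLocalization.val_pow, coord, HomogeneousLocalization.Away.val_mk,
      HomogeneousLocalization.Away.val_mk, Localization.mk_pow]
    rw [Localization.mk_eq_mk_iff, Localization.r_iff_exists]
    refine ⟨1, ?_⟩
    simp only [hp, ← ha, SubmonoidClass.mk_pow, OneMemClass.coe_one, one_mul, pow_one]
    ring
  | zero => exact zero_mem _
  | add y z _ _ hy hz => exact add_mem hy hz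
  | smul r y _ hy =>
    obtain ⟨c, rfl⟩ := surj_zero F r
    rw [Algebra.smul_def]
    refine mul_mem ⟨Polynomial.C c, ?_⟩ hy
    simp [psi]

/-- Evaluation `X i ↦ 1`, `X j ↦ t`. -/
noncomputable def dehom (i : Fin 2) : MvPolynomial (Fin 2) F →+* Polynomial F :=
  MvPolynomial.eval₂Hom Polynomial.C (fun k => if k = i then 1 else Polynomial.X)

/-- The inverse map. -/
noncomputable def phi (i : Fin 2) :
    HomogeneousLocalization.Away (MvPolynomial.homogeneousSubmodule (Fin 2) F) (MvPolynomial.X i : MvPolynomial (Fin 2) F) →+* Polynomial F :=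
  (Localization.awayLift (dehom F i) (MvPolynomial.X i) (by simp [dehom])).comp
    (algebraMap _ (Localization.Away (MvPolynomial.X i : MvPolynomial (Fin 2) F)))

theorem phi_psi (i j : Fin 2) (hij : i ≠ j) : (phi F i).comp (psi F i j) = RingHom.id _ := by
  refine Polynomial.ringHom_ext ?_ ?_
  · intro a
    simp only [RingHom.comp_apply, RingHom.id_apply, psi, Polynomial.coe_eval₂RingHom, Polynomial.eval₂_C]
    simp only [phi, RingHom.comp_apply]
    rw [← IsScalarTower.algebraMap_apply ((MvPolynomial.homogeneousSubmodule (Fin 2) F) 0) (HomogeneousLocalization.Away (MvPolynomial.homogeneousSubmodule (Fin 2) F) (MvPolynomial.X i : MvPolynomial (Fin 2) F)) (Localization.Away (MvPolynomial.X i : MvPolynomial (Fin 2) F))]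
    rw [IsScalarTower.algebraMap_apply ((MvPolynomial.homogeneousSubmodule (Fin 2) F) 0) (MvPolynomial (Fin 2) F) (Localization.Away (MvPolynomial.X i : MvPolynomial (Fin 2) F))]
    rw [Localization.awayLift, IsLocalization.Away.lift_eq]
    rw [← IsScalarTower.algebraMap_apply F ((MvPolynomial.homogeneousSubmodule (Fin 2) F) 0) (MvPolynomial (Fin 2) F)]
    simp [dehom, MvPolynomial.algebraMap_eq]
  · simp only [RingHom.comp_apply, RingHom.id_apply, psi, Polynomial.coe_eval₂RingHom, Polynomial.eval₂_X]
    simp only [phi, RingHom.comp_apply, coord, HomogeneousLocalization.algebraMap_apply, HomogeneousLocalization.Away.val_mk]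
    have := Localization.awayLift_mk (dehom F i) (MvPolynomial.X i) (MvPolynomial.X j) 1
      (by simp [dehom]) 1
    rw [this]
    simp [dehom, hij.symm]

theorem psi_bij (i j : Fin 2) (hij : i ≠ j) : Function.Bijective (psi F i j) := by
  refine ⟨?_, psi_surj F i j hij⟩
  intro x y hxy
  have h := phi_psi F i j hij
  have hx := DFunLike.congr_fun h x
  have hy := DFunLike.congr_fun h y
  simp only [RingHom.comp_apply, RingHom.id_apply] at hx hy
  rw [← hx, ← hy, hxy]

theorem exists_ne (i : Fin 2) : ∃ j : Fin 2, i ≠ j := by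
  fin_cases i
  · exact ⟨1, by decide⟩
  · exact ⟨0, by decide⟩

theorem equivAway (i : Fin 2) : Nonempty (Polynomial F ≃+*
    HomogeneousLocalization.Away (MvPolynomial.homogeneousSubmodule (Fin 2) F) (MvPolynomial.X i : MvPolynomial (Fin 2) F)) := by
  obtain ⟨j, hj⟩ := exists_ne i
  exact ⟨RingEquiv.ofBijective (psi F i j) (psi_bij F i j hj)⟩

instance domAway (i : Fin 2) : IsDomain
    (HomogeneousLocalization.Away (MvPolynomial.homogeneousSubmodule (Fin 2) F) (MvPolynomial.X i : MvPolynomial (Fin 2) F)) := by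
  obtain ⟨e⟩ := equivAway F i
  exact e.symm.toMulEquiv.isDomain _

theorem dimAway (i : Fin 2) : ringKrullDim
    (HomogeneousLocalization.Away (MvPolynomial.homogeneousSubmodule (Fin 2) F) (MvPolynomial.X i : MvPolynomial (Fin 2) F)) = 1 := by
  obtain ⟨e⟩ := equivAway F i
  rw [← ringKrullDim_eq_of_ringEquiv e, Polynomial.ringKrullDim_of_isNoetherianRing,
    ringKrullDim_eq_zero_of_field, zero_add]

theorem dimSpec (i : Fin 2) : topologicalKrullDim (Spec (.of
    (HomogeneousLocalization.Away (MvPolynomial.homogeneousSubmodule (Fin 2) F) (MvPolynomial.X i : MvPolynomial (Fin 2) F)))) = 1 := by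
  have := PrimeSpectrum.topologicalKrullDim_eq_ringKrullDim
    (HomogeneousLocalization.Away (MvPolynomial.homogeneousSubmodule (Fin 2) F) (MvPolynomial.X i : MvPolynomial (Fin 2) F))
  rw [dimAway] at this
  exact this

/-- The chart. -/
noncomputable abbrev chart (i : Fin 2) : Spec (.of
    (HomogeneousLocalization.Away (MvPolynomial.homogeneousSubmodule (Fin 2) F) (MvPolynomial.X i : MvPolynomial (Fin 2) F))) ⟶ P1 F :=
  Proj.awayι (MvPolynomial.homogeneousSubmodule (Fin 2) F) (MvPolynomial.X i) (X_mem F i) Nat.one_pos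

theorem exists_chart (x : P1 F) : ∃ (i : Fin 2) (y : Spec (.of
    (HomogeneousLocalization.Away (MvPolynomial.homogeneousSubmodule (Fin 2) F) (MvPolynomial.X i : MvPolynomial (Fin 2) F)))),
    chart F i y = x := by
  have h := Proj.iSup_basicOpen_eq_top' (MvPolynomial.homogeneousSubmodule (Fin 2) F) (MvPolynomial.X : Fin 2 → MvPolynomial (Fin 2) F)
    (fun i => ⟨1, X_mem F i⟩) (adj F)
  have hx : x ∈ (⨆ i, Proj.basicOpen (MvPolynomial.homogeneousSubmodule (Fin 2) F) (MvPolynomial.X i : MvPolynomial (Fin 2) F)) := by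
    rw [h]; trivial
  obtain ⟨i, hi⟩ := Opens.mem_iSup.1 hx
  rw [← Proj.opensRange_awayι (MvPolynomial.homogeneousSubmodule (Fin 2) F) (MvPolynomial.X i) (X_mem F i) Nat.one_pos] at hi
  obtain ⟨y, hy⟩ := hi
  exact ⟨i, y, hy⟩

theorem dimP1 : topologicalKrullDim (P1 F) = 1 := by
  apply le_antisymm
  · rw [topologicalKrullDim, Order.krullDim_eq_iSup_coheight]
    refine iSup_le fun Z => ?_
    obtain ⟨z, hz⟩ := Z.isIrreducible.nonempty
    obtain ⟨i, y, rfl⟩ := exists_chart F z
    have hemb := (chart F i).isOpenEmbedding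
    have hV : ((chart F i) ⁻¹' (Z : Set (P1 F))).Nonempty := ⟨y, hz⟩
    let e := IrreducibleCloseds.orderIsoOfIsOpenEmbedding (chart F i) hemb
    have h1 := e.apply_symm_apply ⟨Z, hV⟩
    have h2 : IrreducibleCloseds.map (chart F i) hemb.continuous (e.symm ⟨Z, hV⟩) = Z :=
      congrArg Subtype.val h1
    rw [← h2, hemb.coheight_map]
    refine (Order.coheight_le_krullDim _).trans ?_
    exact (dimSpec F i).le
  · rw [← dimSpec F 0]
    exact (chart F 0).isOpenEmbedding.isInducing.topologicalKrullDim_le

instance reducedP1 : AlgebraicGeometry.IsReduced (P1 F) := by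
  have key : ∀ x : P1 F, _root_.IsReduced ((P1 F).presheaf.stalk x) := by
    intro x
    obtain ⟨i, y, rfl⟩ := exists_chart F x
    have : _root_.IsReduced ((Spec (.of (HomogeneousLocalization.Away (MvPolynomial.homogeneousSubmodule (Fin 2) F)
      (MvPolynomial.X i : MvPolynomial (Fin 2) F)))).presheaf.stalk y) := inferInstance
    exact isReduced_of_injective ((chart F i).stalkMap y).hom
      (asIso ((chart F i).stalkMap y)).commRingCatIsoToRingEquiv.injective
  exact isReduced_of_isReduced_stalk _

/-- The generic point. -/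
noncomputable def gen : P1 F :=
  (⟨⊥, by
    change (⊥ : HomogeneousIdeal (MvPolynomial.homogeneousSubmodule (Fin 2) F)).toIdeal.IsPrime
    rw [HomogeneousIdeal.toIdeal_bot]
    exact Ideal.isPrime_bot, by
    intro h
    have hX : (MvPolynomial.X 0 : MvPolynomial (Fin 2) F) ∈ (HomogeneousIdeal.irrelevant (MvPolynomial.homogeneousSubmodule (Fin 2) F)) := by
      rw [HomogeneousIdeal.mem_irrelevant_iff]
      rw [GradedRing.proj_apply, DirectSum.decompose_of_mem_ne (MvPolynomial.homogeneousSubmodule (Fin 2) F) (X_mem F 0) one_ne_zero]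
    have := h hX
    have h2 : (MvPolynomial.X 0 : MvPolynomial (Fin 2) F) ∈ (⊥ : HomogeneousIdeal (MvPolynomial.homogeneousSubmodule (Fin 2) F)).toIdeal := this
    rw [HomogeneousIdeal.toIdeal_bot, Ideal.mem_bot] at h2
    exact MvPolynomial.X_ne_zero _ h2⟩ : ProjectiveSpectrum (MvPolynomial.homogeneousSubmodule (Fin 2) F))

instance irredP1 : IrreducibleSpace (P1 F) := by
  have hd : closure {gen F} = (Set.univ : Set (P1 F)) := by
    rw [Set.eq_univ_iff_forall]
    intro x
    rw [(Proj.isBasis_basicOpen (MvPolynomial.homogeneousSubmodule (Fin 2) F)).mem_closure_iff]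
    rintro _ ⟨_, ⟨f, rfl⟩, rfl⟩ hx
    have hx' : f ∉ (x : ProjectiveSpectrum (MvPolynomial.homogeneousSubmodule (Fin 2) F)).asHomogeneousIdeal := hx
    refine ⟨gen F, ?_, rfl⟩
    change f ∉ (⊥ : HomogeneousIdeal (MvPolynomial.homogeneousSubmodule (Fin 2) F))
    intro hf
    apply hx'
    have h2 : f ∈ (⊥ : HomogeneousIdeal (MvPolynomial.homogeneousSubmodule (Fin 2) F)).toIdeal := hf
    rw [HomogeneousIdeal.toIdeal_bot, Ideal.mem_bot] at h2
    rw [h2]
    exact zero_mem _
  have h := (isIrreducible_singleton (x := gen F)).closure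
  rw [hd] at h
  exact (irreducibleSpace_def _).2 h

end Pool.Agent.Lib.MP_b73640_ag.CurveG2

namespace Pool.Agent.Lib.MP_b73640_ag

open CurveG2

attribute [local instance] MvPolynomial.gradedAlgebra

/-- Module G2. -/
theorem curve : CurveStmt := by
  intro F _
  have h1 : IsAffineHom (Spec.map (CommRingCat.ofHom (algebraMap F (MvPolynomial.homogeneousSubmodule (Fin 2) F 0)))) := inferInstance
  have h2 : LocallyOfFiniteType (Spec.map (CommRingCat.ofHom (algebraMap F (MvPolynomial.homogeneousSubmodule (Fin 2) F 0)))) := by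
    rw [HasRingHomProperty.Spec_iff (P := @LocallyOfFiniteType)]
    exact RingHom.FiniteType.of_surjective _ (surj_zero F)
  refine ⟨isIntegral_of_irreducibleSpace_of_isReduced _, ?_, ?_, ?_, dimP1 F⟩
  · unfold P1.toSpec projToSpec
    infer_instance
  · unfold P1.toSpec projToSpec
    infer_instance
  · unfold P1.toSpec projToSpec
    infer_instance

end Pool.Agent.Lib.MP_b73640_ag
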