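import Pool.Agent.Lib.MP_b73640_ag.Curve

/-! The affine open subset `x₀² + x₁² ≠ 0` of the projective line is a curve. -/

open CategoryTheory AlgebraicGeometry Opposite Limits TopologicalSpace

namespace Pool.Agent.Lib.MP_b73640_ag.CurveG2

attribute [local instance] MvPolynomial.gradedAlgebra

variable (F : Type) [Field F]

/-- `x₀² + x₁²` -/
noncomputable abbrev qq : MvPolynomial (Fin 2) F := MvPolynomial.X 0 ^ 2 + MvPolynomial.X 1 ^ 2

theorem qq_mem : qq F ∈ MvPolynomial.homogeneousSubmodule (Fin 2) F 2 := by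
  have h0 := (MvPolynomial.isHomogeneous_X F (0 : Fin 2)).pow 2
  have h1 := (MvPolynomial.isHomogeneous_X F (1 : Fin 2)).pow 2
  simp only [one_mul] at h0 h1
  exact h0.add h1

/-- The open subset `x₀² + x₁² ≠ 0`. -/
noncomputable abbrev UU : (P1 F).Opens :=
  Proj.basicOpen (MvPolynomial.homogeneousSubmodule (Fin 2) F)
    (MvPolynomial.X 0 ^ 2 + MvPolynomial.X 1 ^ 2)

theorem affine_UU : IsAffine ((UU F : (P1 F).Opens) : Scheme.{0}) :=
  Proj.isAffineOpen_basicOpen (MvPolynomial.homogeneousSubmodule (Fin 2) F) (qq F) (qq_mem F)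
    (by norm_num)

/-- Evaluation at `(1, 0)`. -/
noncomputable def ev10 : MvPolynomial (Fin 2) F →+* F :=
  MvPolynomial.eval (fun i : Fin 2 => if i = 0 then 1 else 0)

theorem ev10_span {f : MvPolynomial (Fin 2) F}
    (hf : f ∈ Ideal.span {(MvPolynomial.X 1 : MvPolynomial (Fin 2) F)}) : ev10 F f = 0 := by
  obtain ⟨g, rfl⟩ := Ideal.mem_span_singleton.1 hf
  simp [ev10]

/-- The point `x₁ = 0`. -/
noncomputable def pt0 : P1 F :=
  (⟨⟨Ideal.span {(MvPolynomial.X 1 : MvPolynomial (Fin 2) F)}, by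
      refine Ideal.homogeneous_span _ _ fun x hx => ?_
      rw [Set.mem_singleton_iff] at hx
      rw [hx]
      exact ⟨1, X_mem F 1⟩⟩, by
    change (Ideal.span {(MvPolynomial.X 1 : MvPolynomial (Fin 2) F)}).IsPrime
    rw [Ideal.span_singleton_prime (MvPolynomial.X_ne_zero _)]
    exact MvPolynomial.X_prime, by
    intro h
    have hX : (MvPolynomial.X 0 : MvPolynomial (Fin 2) F) ∈
        (HomogeneousIdeal.irrelevant (MvPolynomial.homogeneousSubmodule (Fin 2) F)) := by
      rw [HomogeneousIdeal.mem_irrelevant_iff]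
      rw [GradedRing.proj_apply, DirectSum.decompose_of_mem_ne
        (MvPolynomial.homogeneousSubmodule (Fin 2) F) (X_mem F 0) one_ne_zero]
    have h3 := h hX
    have h2 : (MvPolynomial.X 0 : MvPolynomial (Fin 2) F) ∈
      Ideal.span {(MvPolynomial.X 1 : MvPolynomial (Fin 2) F)} := h3
    have h4 := ev10_span F h2
    simp [ev10] at h4⟩ :
    ProjectiveSpectrum (MvPolynomial.homogeneousSubmodule (Fin 2) F))

theorem pt0_mem : pt0 F ∈ UU F := by
  change (MvPolynomial.X 0 ^ 2 + MvPolynomial.X 1 ^ 2 : MvPolynomial (Fin 2) F) ∉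
    Ideal.span {(MvPolynomial.X 1 : MvPolynomial (Fin 2) F)}
  intro h
  have h4 := ev10_span F h
  simp [ev10] at h4

theorem closure_gen : closure {gen F} = (Set.univ : Set (P1 F)) := by
  rw [Set.eq_univ_iff_forall]
  intro x
  rw [(Proj.isBasis_basicOpen (MvPolynomial.homogeneousSubmodule (Fin 2) F)).mem_closure_iff]
  rintro _ ⟨_, ⟨f, rfl⟩, rfl⟩ hx
  have hx' : f ∉ (x : ProjectiveSpectrum
    (MvPolynomial.homogeneousSubmodule (Fin 2) F)).asHomogeneousIdeal := hx
  refine ⟨gen F, ?_, rfl⟩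
  change f ∉ (⊥ : HomogeneousIdeal (MvPolynomial.homogeneousSubmodule (Fin 2) F))
  intro hf
  apply hx'
  have h2 : f ∈ (⊥ : HomogeneousIdeal
    (MvPolynomial.homogeneousSubmodule (Fin 2) F)).toIdeal := hf
  rw [HomogeneousIdeal.toIdeal_bot, Ideal.mem_bot] at h2
  rw [h2]
  exact zero_mem _

theorem gen_spec (x : P1 F) : gen F ⤳ x := by
  rw [specializes_iff_mem_closure, closure_gen]
  trivial

theorem gen_mem : gen F ∈ UU F := (gen_spec F _).mem_open (UU F).isOpen (pt0_mem F)

theorem gen_ne : gen F ≠ pt0 F := by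
  intro h
  have h1 : (MvPolynomial.X 1 : MvPolynomial (Fin 2) F) ∈
    (pt0 F : ProjectiveSpectrum
      (MvPolynomial.homogeneousSubmodule (Fin 2) F)).asHomogeneousIdeal :=
    Ideal.subset_span rfl
  rw [← h] at h1
  have h2 : (MvPolynomial.X 1 : MvPolynomial (Fin 2) F) ∈
    (⊥ : HomogeneousIdeal (MvPolynomial.homogeneousSubmodule (Fin 2) F)).toIdeal := h1
  rw [HomogeneousIdeal.toIdeal_bot, Ideal.mem_bot] at h2
  exact MvPolynomial.X_ne_zero _ h2

theorem dim_UU : topologicalKrullDim ((UU F : (P1 F).Opens) : Scheme.{0}) = 1 := by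
  apply le_antisymm
  · rw [← dimP1 F]
    exact (UU F).ι.isOpenEmbedding.isInducing.topologicalKrullDim_le
  · rw [topologicalKrullDim, Order.one_le_krullDim_iff]
    let g : ((UU F : (P1 F).Opens) : Scheme.{0}) := ⟨gen F, gen_mem F⟩
    let z : ((UU F : (P1 F).Opens) : Scheme.{0}) := ⟨pt0 F, pt0_mem F⟩
    refine ⟨⟨closure {z}, isIrreducible_singleton.closure, isClosed_closure⟩,
      ⟨closure {g}, isIrreducible_singleton.closure, isClosed_closure⟩, ?_⟩
    have hgz : g ⤳ z := by
      have := (UU F).ι.isOpenEmbedding.isInducing.specializes_iff (x := g) (y := z)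
      rw [← this]
      exact gen_spec F _
    rw [lt_iff_le_not_ge]
    constructor
    · intro x hx
      change x ∈ closure {g}
      exact closure_minimal (Set.singleton_subset_iff.2 hgz.mem_closure) isClosed_closure hx
    · intro h
      have h1 : g ∈ closure {z} := h (subset_closure rfl)
      have h2 : z ⤳ g := specializes_iff_mem_closure.2 h1
      have h3 : g = z := (hgz.antisymm h2).eq
      exact gen_ne F (congrArg Subtype.val h3)

end Pool.Agent.Lib.MP_b73640_ag.CurveG2

namespace Pool.Agent.Lib.MP_b73640_ag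

open CurveG2

attribute [local instance] MvPolynomial.gradedAlgebra

/-- The affine open subset `x₀² + x₁² ≠ 0` of the projective line is a curve. -/
theorem curve2 (F : Type) [Field F] :
    IsCurve ((Proj.basicOpen (MvPolynomial.homogeneousSubmodule (Fin 2) F)
      (MvPolynomial.X 0 ^ 2 + MvPolynomial.X 1 ^ 2) : (P1 F).Opens).ι ≫ P1.toSpec F) ∧
    IsAffine ((Proj.basicOpen (MvPolynomial.homogeneousSubmodule (Fin 2) F)
      (MvPolynomial.X 0 ^ 2 + MvPolynomial.X 1 ^ 2) : (P1 F).Opens) : Scheme.{0}) := by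
  have h := curve F
  have haff := affine_UU F
  have hint := h.isIntegral
  have hsep := h.isSeparated
  have hft := h.locallyOfFiniteType
  have hne : Nonempty ((UU F : (P1 F).Opens) : Scheme.{0}) := ⟨⟨pt0 F, pt0_mem F⟩⟩
  refine ⟨⟨isIntegral_of_isOpenImmersion (UU F).ι, ?_, ?_, ?_, dim_UU F⟩, haff⟩
  · infer_instance
  · infer_instance
  · have : IsAffineHom ((UU F).ι ≫ P1.toSpec F) := inferInstance
    infer_instance

end Pool.Agent.Lib.MP_b73640_ag
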