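import Mathlib
import Pool.Agent.Lib.MP_b73640_ag.Stmts

/-! Module H: finitely generated real fields of large transcendence degree. -/

open Cardinal

namespace Pool.Agent.Lib.MP_b73640_ag

/-- The real numbers contain arbitrarily large finite algebraically independent families. -/
theorem exists_algebraicIndependent_real (m : ℕ) :
    ∃ x : Fin m → ℝ, AlgebraicIndependent ℚ x := by
  obtain ⟨s, hs⟩ := exists_isTranscendenceBasis ℚ ℝ
  have hinf : s.Infinite := by
    intro hfin
    have : Countable s := hfin.countable
    have halg : Algebra.IsAlgebraic (Algebra.adjoin ℚ (Set.range ((↑) : s → ℝ))) ℝ :=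
      hs.isAlgebraic
    have hc : #(Algebra.adjoin ℚ (Set.range ((↑) : s → ℝ))) ≤ ℵ₀ := by
      have h1 := Cardinal.mk_congr (hs.1.aevalEquiv).toEquiv
      rw [← h1]
      refine (MvPolynomial.cardinalMk_le_max).trans ?_
      simp
    have h2 := Algebra.IsAlgebraic.cardinalMk_le_max
      (Algebra.adjoin ℚ (Set.range ((↑) : s → ℝ))) ℝ
    have h3 : #ℝ ≤ ℵ₀ := h2.trans (max_le hc le_rfl)
    rw [Cardinal.mk_real] at h3
    exact absurd h3 (not_le.mpr Cardinal.aleph0_lt_continuum)
  have := hinf.to_subtype
  let f : Fin m ↪ s := (Fin.valEmbedding).trans (Infinite.natEmbedding s)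
  exact ⟨fun i => (f i : ℝ), hs.1.comp f f.injective⟩

theorem fieldH : FieldStmt := by
  intro m
  obtain ⟨x, hx⟩ := exists_algebraicIndependent_real m
  let E : IntermediateField ℚ ℝ := IntermediateField.adjoin ℚ (Set.range x)
  let k : Subfield E := (algebraMap ℚ E).fieldRange
  have hfg : E.FG := by
    refine ⟨(Set.finite_range x).toFinset, ?_⟩
    simp [E]
  have hess : Algebra.EssFiniteType ℚ E := IntermediateField.essFiniteType_iff.mpr hfg
  have hcz : CharZero k := inferInstance
  refine ⟨E, inferInstance, k, PerfectField.ofCharZero, ?_, ?_, ⟨algebraMap E ℝ⟩⟩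
  · have hsurj : Function.Surjective (algebraMap ℚ k) := by
      rintro ⟨y, z, rfl⟩
      refine ⟨z, ?_⟩
      apply Subtype.ext
      simp
    have hint : Algebra.IsIntegral ℚ k := Algebra.isIntegral_of_surjective hsurj
    have halg : Algebra.IsAlgebraic ℚ k := inferInstance
    let y : Fin m → E := fun i => ⟨x i, IntermediateField.subset_adjoin _ _ ⟨i, rfl⟩⟩
    have hy : AlgebraicIndependent ℚ y := by
      apply AlgebraicIndependent.of_comp E.val
      exact hx
    have hyk : AlgebraicIndependent k y := hy.extendScalars k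
    have := hyk.lift_cardinalMk_le_trdeg
    simpa using this
  · exact Algebra.EssFiniteType.of_comp ℚ k E

end Pool.Agent.Lib.MP_b73640_ag
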