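import Mathlib
import Pool.Agent.Lib.MP_b73640_ag.Stmts

/-! Module C: Gaussian extensions are torsors. -/

open CategoryTheory AlgebraicGeometry Opposite Limits TopologicalSpace

namespace Pool.Agent.Lib.MP_b73640_ag

/-- The map on global sections. -/
noncomputable def glob {B : Type} [CommRing B] {T : Scheme.{0}} (k : T ⟶ Spec (.of B)) :
    B →+* Γ(T, ⊤) :=
  ((Scheme.ΓSpecIso (.of B)).inv ≫ k.appTop).hom

theorem glob_ext {B : Type} [CommRing B] {T : Scheme.{0}} {k l : T ⟶ Spec (.of B)}
    (h : glob k = glob l) : k = l := by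
  apply ext_of_isAffine
  rw [← cancel_epi (Scheme.ΓSpecIso (.of B)).inv]
  exact CommRingCat.hom_ext h

theorem glob_comp {B : Type} [CommRing B] {T T' : Scheme.{0}} (f : T' ⟶ T)
    (k : T ⟶ Spec (.of B)) : glob (f ≫ k) = f.appTop.hom.comp (glob k) := by
  simp only [glob, Scheme.Hom.comp_appTop, CommRingCat.hom_comp, RingHom.comp_assoc]

theorem glob_comp_map {A B : Type} [CommRing A] [CommRing B] {T : Scheme.{0}} (φ : A →+* B)
    (k : T ⟶ Spec (.of B)) : glob (k ≫ Spec.map (CommRingCat.ofHom φ)) = (glob k).comp φ := by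
  apply RingHom.ext
  intro a
  have := congrArg (fun f => f.hom a) (Scheme.ΓSpecIso_inv_naturality (CommRingCat.ofHom φ))
  simp only [glob, Scheme.Hom.comp_appTop, CommRingCat.hom_comp, RingHom.comp_apply,
    CommRingCat.hom_ofHom] at this ⊢
  rw [this]

namespace Gauss

variable {A B : Type} [CommRing A] [CommRing B] [Algebra A B] (g : Gauss A B)

include g

theorem hom_ext {C : Type} [CommRing C] {k l : B →+* C} (h : ∀ a, k (algebraMap A B a) =
    l (algebraMap A B a)) (hi : k g.i = l g.i) : k = l := by
  apply RingHom.ext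
  intro b
  obtain ⟨⟨a, c⟩, rfl⟩ := g.bij.2 b
  simp [h, hi]

theorem free (T : Scheme.{0}) (k : T ⟶ Spec (.of B))
    (hk : k ≫ Spec.map (CommRingCat.ofHom (g.σ : B →+* B)) = k) : IsEmpty T := by
  by_contra hT
  rw [not_isEmpty_iff] at hT
  obtain ⟨t⟩ := hT
  let q := T.fromSpecResidueField t
  have h1 : glob (q ≫ k) = (glob (q ≫ k)).comp (g.σ : B →+* B) := by
    rw [← glob_comp_map, Category.assoc, hk]
  let ψ : Γ(Spec (T.residueField t), ⊤) →+* T.residueField t :=
    (Scheme.ΓSpecIso (T.residueField t)).hom.hom
  let φ : B →+* T.residueField t := ψ.comp (glob (q ≫ k))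
  have h2 : φ g.i = - φ g.i := by
    have := congrArg (fun f => ψ (f g.i)) h1
    simp only [RingHom.comp_apply, RingHom.coe_coe, g.σ_i, map_neg] at this
    exact this
  have h3 : (2 : T.residueField t) ≠ 0 := by
    have h := (g.two.map (algebraMap A B)).map φ
    rw [map_ofNat, map_ofNat] at h
    exact h.ne_zero
  have h4 : φ g.i = 0 := by
    have : (2 : T.residueField t) * φ g.i = 0 := by linear_combination h2
    exact (mul_eq_zero.1 this).resolve_left h3
  have h5 := congrArg φ g.i_mul_i
  rw [map_mul, h4, map_neg, map_one, zero_mul] at h5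
  exact one_ne_zero (neg_eq_zero.1 h5.symm)

theorem two' (T : Scheme.{0}) (k l : T ⟶ Spec (.of B))
    (hkl : k ≫ Spec.map (CommRingCat.ofHom (algebraMap A B)) =
      l ≫ Spec.map (CommRingCat.ofHom (algebraMap A B))) :
    ∃ R ∈ Scheme.etaleTopology.{0} T, ∀ (T' : Scheme.{0}) (f : T' ⟶ T), R f →
      f ≫ k = f ≫ l ∨ f ≫ k = f ≫ l ≫ Spec.map (CommRingCat.ofHom (g.σ : B →+* B)) := by
  have hA : ∀ a, glob k (algebraMap A B a) = glob l (algebraMap A B a) := by
    intro a
    have := congrArg glob hkl
    rw [glob_comp_map, glob_comp_map] at this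
    exact congrArg (fun f => f a) this
  have hmul : (glob k g.i - glob l g.i) * (glob k g.i + glob l g.i) = 0 := by
    have h1 := congrArg (glob k) g.i_mul_i
    have h2 := congrArg (glob l) g.i_mul_i
    rw [map_mul, map_neg, map_one] at h1 h2
    linear_combination h1 - h2
  let D : Bool → T.Opens := fun b =>
    if b then T.basicOpen (glob k g.i + glob l g.i) else T.basicOpen (glob k g.i - glob l g.i)
  have hu : ∀ (r : Γ(T, ⊤)), IsUnit ((T.basicOpen r).ι.appTop.hom r) := by
    intro r
    apply RingedSpace.isUnit_of_isUnit_germ (X :=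
      (T.basicOpen r : Scheme.{0}).toLocallyRingedSpace.toRingedSpace)
    intro x hx
    have h1 : x ∈ (T.basicOpen r : Scheme.{0}).basicOpen ((T.basicOpen r).ι.appTop.hom r) := by
      rw [← Scheme.preimage_basicOpen_top]
      exact x.2
    exact (Scheme.mem_basicOpen_top _ _ _).1 h1
  refine ⟨Sieve.generate (Presieve.ofArrows (fun b => (D b : Scheme.{0})) (fun b => (D b).ι)),
    ?_, ?_⟩
  · apply Precoverage.generate_mem_toGrothendieck
    rw [Scheme.ofArrows_mem_precoverage_iff]
    refine ⟨?_, fun b => inferInstance⟩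
    intro x
    have h1 : IsUnit (T.presheaf.germ ⊤ x trivial (glob k g.i + glob l g.i)) ∨
        IsUnit (T.presheaf.germ ⊤ x trivial (glob k g.i - glob l g.i)) := by
      apply IsLocalRing.isUnit_or_isUnit_of_isUnit_add
      rw [← map_add]
      have h2 : glob k g.i + glob l g.i + (glob k g.i - glob l g.i) =
          glob k (algebraMap A B 2) * glob k g.i := by
        rw [map_ofNat, map_ofNat]
        ring
      rw [h2]
      have h3 : IsUnit g.i := IsUnit.of_mul_eq_one (-g.i) (by
        have := g.i_mul_i
        linear_combination -this)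
      exact (((g.two.map (algebraMap A B)).map (glob k)).mul (h3.map (glob k))).map _
    rcases h1 with h1 | h1
    · refine ⟨true, ?_⟩
      rw [Scheme.Opens.range_ι]
      exact (Scheme.mem_basicOpen_top _ _ _).2 h1
    · refine ⟨false, ?_⟩
      rw [Scheme.Opens.range_ι]
      exact (Scheme.mem_basicOpen_top _ _ _).2 h1
  · rintro T' f ⟨Z, h, f', ⟨b⟩, rfl⟩
    cases b with
    | true =>
      left
      have h1 : (D true).ι ≫ k = (D true).ι ≫ l := by
        apply glob_ext
        rw [glob_comp, glob_comp]
        apply g.hom_ext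
        · intro a
          simp only [RingHom.comp_apply, hA]
        · have h2 : IsUnit ((D true).ι.appTop.hom (glob k g.i + glob l g.i)) := hu _
          have h3 := congrArg (D true).ι.appTop.hom hmul
          rw [map_mul, map_zero, h2.mul_left_eq_zero, map_sub, sub_eq_zero] at h3
          exact h3
      rw [Category.assoc, Category.assoc, h1]
    | false =>
      right
      have h1 : (D false).ι ≫ k = (D false).ι ≫ l ≫
          Spec.map (CommRingCat.ofHom (g.σ : B →+* B)) := by
        apply glob_ext
        rw [glob_comp, glob_comp, glob_comp_map]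
        apply g.hom_ext
        · intro a
          simp only [RingHom.comp_apply, hA, RingHom.coe_coe, AlgHom.commutes]
        · have h2 : IsUnit ((D false).ι.appTop.hom (glob k g.i - glob l g.i)) := hu _
          have h3 := congrArg (D false).ι.appTop.hom hmul
          rw [map_mul, map_zero, h2.mul_right_eq_zero, map_add] at h3
          simp only [RingHom.comp_apply, RingHom.coe_coe, g.σ_i, map_neg]
          linear_combination h3
      rw [Category.assoc, Category.assoc, h1]

open Polynomial in
theorem exists_pair : ∃ P : StandardEtalePair A, P.f = X ^ 2 + 1 ∧ P.g = 1 := by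
  obtain ⟨u, hu⟩ := g.two
  refine ⟨⟨X ^ 2 + 1, by monicity!, 1, -(C (↑u⁻¹ : A) * X), 1, 0, ?_⟩, rfl, rfl⟩
  have h2 : C (↑u⁻¹ : A) * 2 = 1 := by
    have : (2 : A[X]) = C (2 : A) := (map_ofNat C 2).symm
    rw [this, ← hu, ← C_mul]
    simp
  simp only [derivative_add, derivative_X_pow, derivative_one]
  have h3 : (C (2 : A) : A[X]) = 2 := map_ofNat C 2
  simp [h3]
  linear_combination (-X ^ 2) * h2

open Polynomial in
theorem etale : Algebra.Etale A B := by
  obtain ⟨P, hf, hg⟩ := g.exists_pair
  have hi : P.HasMap g.i := by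
    constructor
    · rw [hf]
      simp [sq, g.i_mul_i]
    · rw [hg]
      simp
  have hX : P.X * P.X = -1 := by
    have := (StandardEtalePair.hasMap_X (P := P)).1
    rw [hf] at this
    simp only [map_add, map_pow, aeval_X, map_one] at this
    linear_combination this
  -- the subalgebra of all `a + c X`
  let S : Subalgebra A P.Ring :=
    { carrier := {z | ∃ a c : A, z = algebraMap A _ a + algebraMap A _ c * P.X}
      mul_mem' := by
        rintro _ _ ⟨a, c, rfl⟩ ⟨a', c', rfl⟩
        refine ⟨a * a' - c * c', a * c' + c * a', ?_⟩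
        simp only [map_sub, map_add, map_mul]
        linear_combination (algebraMap A P.Ring c * algebraMap A P.Ring c') * hX
      add_mem' := by
        rintro _ _ ⟨a, c, rfl⟩ ⟨a', c', rfl⟩
        refine ⟨a + a', c + c', ?_⟩
        simp only [map_add]
        ring
      algebraMap_mem' := fun r => ⟨r, 0, by simp⟩ }
  have hXS : P.X ∈ S := ⟨0, 1, by simp⟩
  have hmS : P.HasMap (⟨P.X, hXS⟩ : S) := by
    constructor
    · rw [hf]
      apply Subtype.ext
      simp [sq, hX]
    · rw [hg]
      simp
  have hS : ∀ z : P.Ring, ∃ a c : A, z = algebraMap A _ a + algebraMap A _ c * P.X := by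
    intro z
    have h1 : S.val.comp (P.lift _ hmS) = AlgHom.id A _ := by
      apply StandardEtalePair.hom_ext
      simp
    have h2 := congrArg (fun f => f z) h1
    simp only [AlgHom.comp_apply, AlgHom.id_apply] at h2
    rw [← h2]
    exact (P.lift _ hmS z).2
  have hbij : Function.Bijective (P.lift g.i hi) := by
    constructor
    · rw [injective_iff_map_eq_zero]
      intro z hz
      obtain ⟨a, c, rfl⟩ := hS z
      rw [map_add, map_mul, AlgHom.commutes, AlgHom.commutes, StandardEtalePair.lift_X] at hz
      have := g.bij.1 (a₁ := (a, c)) (a₂ := (0, 0)) (by simpa using hz)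
      rw [Prod.mk.injEq] at this
      rw [this.1, this.2]
      simp
    · intro b
      obtain ⟨⟨a, c⟩, h⟩ := g.bij.2 b
      refine ⟨algebraMap A _ a + algebraMap A _ c * P.X, ?_⟩
      rw [map_add, map_mul, AlgHom.commutes, AlgHom.commutes, StandardEtalePair.lift_X]
      exact h
  exact Algebra.Etale.of_equiv (AlgEquiv.ofBijective _ hbij)

theorem isIntegral : Algebra.IsIntegral A B := by
  constructor
  intro b
  obtain ⟨⟨a, c⟩, rfl⟩ := g.bij.2 b
  have hi : IsIntegral A g.i := by
    refine ⟨Polynomial.X ^ 2 + 1, by monicity!, ?_⟩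
    simp [sq, g.i_mul_i]
  exact (isIntegral_algebraMap).add (isIntegral_algebraMap.mul hi)

theorem injective : Function.Injective (algebraMap A B) := by
  intro a b h
  have := g.bij.1 (a₁ := (a, 0)) (a₂ := (b, 0)) (by simpa using h)
  exact (Prod.mk.inj this).1

theorem cover : Sieve.generate (Presieve.singleton
    (Spec.map (CommRingCat.ofHom (algebraMap A B)))) ∈ Scheme.etaleTopology.{0} (Spec (.of A)) := by
  apply Precoverage.generate_mem_toGrothendieck
  rw [Scheme.singleton_mem_precoverage_iff]
  constructor
  · have := g.isIntegral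
    have : FaithfulSMul A B := (faithfulSMul_iff_algebraMap_injective A B).2 g.injective
    exact Algebra.IsIntegral.comap_surjective A B
  · rw [HasRingHomProperty.Spec_iff (P := @Etale)]
    change (algebraMap A B).Etale
    rw [RingHom.etale_algebraMap]
    exact g.etale

end Gauss

/-- Module C. -/
theorem gauss : GaussStmt := by
  intro A B _ _ _ g
  exact ⟨g.cover, g.free, g.two'⟩

end Pool.Agent.Lib.MP_b73640_ag
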