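import Mathlib
import Pool.Agent.Lib.MP_b73640_ag.Stmts

/-! The Möbius datum on the projective line over a real field (Module G). -/

open CategoryTheory AlgebraicGeometry Opposite Limits TopologicalSpace HomogeneousLocalization

namespace Pool.Agent.Lib.MP_b73640_ag

attribute [local instance] MvPolynomial.gradedAlgebra

namespace MoebAux

/-- The grading of `F[X₀, X₁]`. -/
abbrev gr (F : Type) [Field F] := MvPolynomial.homogeneousSubmodule (Fin 2) F

section Eval

variable {F : Type} [Field F] {R : Type} [CommRing R] (e : F →+* R)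

/-- Evaluation at a point. -/
noncomputable def evP (v : Fin 2 → R) : MvPolynomial (Fin 2) F →+* R := MvPolynomial.eval₂Hom e v

/-- Evaluation at a point, on a chart. -/
noncomputable def evA (v : Fin 2 → R) (f : MvPolynomial (Fin 2) F) (hf : IsUnit (evP e v f)) :
    Away (gr F) f →+* R :=
  (IsLocalization.Away.lift (S := Localization.Away f) f hf).comp
    (algebraMap (Away (gr F) f) (Localization.Away f))

theorem evA_mk (v : Fin 2 → R) (f : MvPolynomial (Fin 2) F) (hf : IsUnit (evP e v f))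
    {m : ℕ} (hd : f ∈ gr F m) (n : ℕ) (a : MvPolynomial (Fin 2) F) (ha : a ∈ gr F (n • m)) :
    evA e v f hf (Away.mk (gr F) hd n a ha) * (evP e v f) ^ n = evP e v a := by
  have h : (Away.mk (gr F) hd n a ha).val * algebraMap _ (Localization.Away f) f ^ n =
      algebraMap _ (Localization.Away f) a := by
    rw [Away.val_mk, ← map_pow, ← Localization.mk_one_eq_algebraMap, Localization.mk_mul,
      ← Localization.mk_one_eq_algebraMap, Localization.mk_eq_mk_iff, Localization.r_iff_exists]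
    exact ⟨1, by simp [mul_comm]⟩
  have h2 := congrArg (IsLocalization.Away.lift (S := Localization.Away f) f hf) h
  rw [map_mul, map_pow, IsLocalization.Away.lift_eq, IsLocalization.Away.lift_eq] at h2
  exact h2

theorem evA_ext (v : Fin 2 → R) (f : MvPolynomial (Fin 2) F) (hf : IsUnit (evP e v f))
    {m : ℕ} (hd : f ∈ gr F m) (ψ : Away (gr F) f →+* R)
    (h : ∀ (n : ℕ) (a : MvPolynomial (Fin 2) F) (ha : a ∈ gr F (n • m)),
      ψ (Away.mk (gr F) hd n a ha) * (evP e v f) ^ n = evP e v a) : ψ = evA e v f hf := by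
  ext x
  obtain ⟨n, a, ha, rfl⟩ := Away.mk_surjective (gr F) hd x
  apply (hf.pow n).mul_left_injective
  simp only
  rw [h, evA_mk]

theorem evP_comp {R' : Type} [CommRing R'] (g : R →+* R') (v : Fin 2 → R) :
    evP (g.comp e) (g ∘ v) = g.comp (evP e v) := by
  apply MvPolynomial.ringHom_ext
  · intro r; simp [evP]
  · intro i; simp [evP]

theorem evP_smul (u : R) (v : Fin 2 → R) {n : ℕ} (a : MvPolynomial (Fin 2) F) (ha : a ∈ gr F n) :
    evP e (fun i => u * v i) a = u ^ n * evP e v a := by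
  simp only [evP, MvPolynomial.coe_eval₂Hom]
  rw [MvPolynomial.eval₂_eq', MvPolynomial.eval₂_eq', Finset.mul_sum]
  refine Finset.sum_congr rfl fun d hd => ?_
  have h1 : ∑ i, d i = n := by
    have h := (MvPolynomial.mem_homogeneousSubmodule n a).1 ha (MvPolynomial.mem_support_iff.1 hd)
    rw [← h, Finsupp.weight_apply, Finsupp.sum_fintype _ _ (by simp)]
    simp
  simp only [mul_pow, Finset.prod_mul_distrib, Finset.prod_pow_eq_pow_sum, h1]
  ring

/-- The point with homogeneous coordinates `v`. -/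
noncomputable def pt (v : Fin 2 → R) (f : MvPolynomial (Fin 2) F) (hf : IsUnit (evP e v f))
    {m : ℕ} (hd : f ∈ gr F m) (hm : 0 < m) : Spec (.of R) ⟶ P1 F :=
  Spec.map (CommRingCat.ofHom (evA e v f hf)) ≫ Proj.awayι (gr F) f hd hm

theorem pt_map {R' : Type} [CommRing R'] (g : R →+* R') (v : Fin 2 → R) (e' : F →+* R')
    (he : g.comp e = e') (v' : Fin 2 → R') (hv : ∀ i, g (v i) = v' i)
    (f : MvPolynomial (Fin 2) F) (hf : IsUnit (evP e v f)) (hf' : IsUnit (evP e' v' f))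
    {m : ℕ} (hd : f ∈ gr F m) (hm : 0 < m) :
    Spec.map (CommRingCat.ofHom g) ≫ pt e v f hf hd hm = pt e' v' f hf' hd hm := by
  obtain rfl : g ∘ v = v' := funext hv
  subst he
  rw [pt, ← Category.assoc, ← Spec.map_comp, ← CommRingCat.ofHom_comp, pt]
  congr 3
  apply evA_ext _ _ _ _ hd
  intro n a ha
  rw [evP_comp]
  simp only [RingHom.comp_apply]
  rw [← map_pow, ← map_mul, evA_mk]

theorem pt_mul (v : Fin 2 → R) (f g : MvPolynomial (Fin 2) F) (hf : IsUnit (evP e v f))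
    {m m' : ℕ} (hd : f ∈ gr F m) (hm : 0 < m) (hg : g ∈ gr F m') (x : MvPolynomial (Fin 2) F)
    (hx : x = f * g) (hxu : IsUnit (evP e v x)) {k : ℕ} (hxk : x ∈ gr F k) (hk : 0 < k)
    (hkk : m + m' = k) :
    pt e v f hf hd hm = pt e v x hxu hxk hk := by
  subst hkk
  rw [pt, pt, ← Proj.SpecMap_awayMap_awayι (gr F) hd hm hg hx, ← Category.assoc, ← Spec.map_comp,
    ← CommRingCat.ofHom_comp]
  congr 3
  symm
  apply evA_ext _ _ _ _ hd
  intro n a ha
  rw [RingHom.comp_apply, awayMap_mk]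
  have h := evA_mk e v x hxu (hx ▸ SetLike.mul_mem_graded hd hg) n (a * g ^ n) (by
    rw [smul_add]
    exact SetLike.mul_mem_graded ha (SetLike.pow_mem_graded n hg))
  have hgu : IsUnit (evP e v g) := by
    rw [hx, map_mul] at hxu
    exact isUnit_of_mul_isUnit_right hxu
  apply (hgu.pow n).mul_left_injective
  have hxx : evP e v f * evP e v g = evP e v x := by rw [hx, map_mul]
  simp only
  rw [mul_assoc, ← mul_pow, hxx, h, map_mul, map_pow]

theorem pt_smul (u : R) (v v' : Fin 2 → R) (hv : ∀ i, v' i = u * v i)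
    (f : MvPolynomial (Fin 2) F) (hf : IsUnit (evP e v f)) (hf' : IsUnit (evP e v' f))
    {m : ℕ} (hd : f ∈ gr F m) (hm : 0 < m) :
    pt e v f hf hd hm = pt e v' f hf' hd hm := by
  obtain rfl : v' = fun i => u * v i := funext hv
  rw [pt, pt]
  congr 3
  apply evA_ext _ _ _ _ hd
  intro n a ha
  rw [evP_smul e u v f hd, evP_smul e u v a ha, mul_pow, ← pow_mul, mul_left_comm, evA_mk,
    smul_eq_mul, mul_comm n m]

end Eval

section Main

variable (F : Type) [Field F]

theorem X_mem (i : Fin 2) : (MvPolynomial.X i : MvPolynomial (Fin 2) F) ∈ gr F 1 :=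
  MvPolynomial.isHomogeneous_X F i

/-- `X₀X₁`. -/
noncomputable def XX : MvPolynomial (Fin 2) F := MvPolynomial.X 0 * MvPolynomial.X 1

theorem XX_mem : XX F ∈ gr F 2 :=
  SetLike.mul_mem_graded (A := gr F) (X_mem F 0) (X_mem F 1)

/-- The unit `X₁ / X₀`. -/
noncomputable def xu : (Away (gr F) (XX F))ˣ where
  val := Away.mk (gr F) (XX_mem F) 1 (MvPolynomial.X 1 ^ 2)
    (by simpa using SetLike.pow_mem_graded (A := gr F) 2 (X_mem F 1))
  inv := Away.mk (gr F) (XX_mem F) 1 (MvPolynomial.X 0 ^ 2)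
    (by simpa using SetLike.pow_mem_graded (A := gr F) 2 (X_mem F 0))
  val_inv := by
    apply HomogeneousLocalization.val_injective
    rw [val_mul, val_one, Away.val_mk, Away.val_mk, Localization.mk_mul, ← Localization.mk_one,
      Localization.mk_eq_mk_iff, Localization.r_iff_exists]
    refine ⟨1, ?_⟩
    rw [Submonoid.coe_mul]
    simp only [XX, OneMemClass.coe_one, pow_one]
    ring
  inv_val := by
    apply HomogeneousLocalization.val_injective
    rw [val_mul, val_one, Away.val_mk, Away.val_mk, Localization.mk_mul, ← Localization.mk_one,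
      Localization.mk_eq_mk_iff, Localization.r_iff_exists]
    refine ⟨1, ?_⟩
    rw [Submonoid.coe_mul]
    simp only [XX, OneMemClass.coe_one, pow_one]
    ring

theorem evA_xu {R : Type} [CommRing R] (e : F →+* R) (v : Fin 2 → R) (hf : IsUnit (evP e v (XX F)))
    (hv : v 0 = 1) : evA e v (XX F) hf (xu F) = v 1 := by
  have h := evA_mk e v (XX F) hf (XX_mem F) 1 (MvPolynomial.X 1 ^ 2)
    (by simpa using SetLike.pow_mem_graded (A := gr F) 2 (X_mem F 1))
  have h1 : evP e v (XX F) = v 1 := by simp [XX, evP, hv]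
  rw [pow_one] at h
  rw [← hf.mul_left_inj]
  refine h.trans ?_
  rw [h1]
  simp [evP, pow_two]

/-- The identity function on `ℝ`. -/
def idC : C((⊤ : Opens ℝ), ℝ) := ⟨fun t => t, continuous_subtype_val⟩

/-- Constant functions. -/
def cst (e : F →+* ℝ) : F →+* C((⊤ : Opens ℝ), ℝ) where
  toFun a := ContinuousMap.const _ (e a)
  map_one' := by ext; simp
  map_mul' _ _ := by ext; simp
  map_zero' := by ext; simp
  map_add' _ _ := by ext; simp

variable (e : F →+* ℝ)

/-- The path `[1 : t]`. -/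
noncomputable def P0 : Spec (.of C((⊤ : Opens ℝ), ℝ)) ⟶ P1 F :=
  pt (cst F e) ![1, idC] (MvPolynomial.X 0) (by simp [evP]) (X_mem F 0) one_pos

/-- The path `[t : 1]`. -/
noncomputable def Q0 : Spec (.of C((⊤ : Opens ℝ), ℝ)) ⟶ P1 F :=
  pt (cst F e) ![idC, 1] (MvPolynomial.X 1) (by simp [evP]) (X_mem F 1) one_pos

/-- The points `[1 : 1]` and `[1 : -1]`. -/
noncomputable def r0 (a : ℝ) (ha : a ≠ 0) : Spec (.of ℝ) ⟶ P1 F :=
  pt e ![1, a] (XX F) (by simpa [evP, XX] using ha) (XX_mem F) two_pos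

theorem evP0 (a : ℝ) (ha : a ≠ 0) :
    Spec.map (CommRingCat.ofHom (evC ℝ (W := ⊤) ⟨a, trivial⟩)) ≫ P0 F e = r0 F e a ha := by
  rw [P0, pt_map (cst F e) (evC ℝ (W := ⊤) ⟨a, trivial⟩) ![1, idC] e (by rfl) ![1, a]
    (by intro i; fin_cases i <;> rfl) (MvPolynomial.X 0) _ (by simp [evP]) (X_mem F 0) one_pos, r0]
  exact pt_mul e _ _ _ _ _ _ (X_mem F 1) _ rfl _ _ _ rfl

theorem evQ0 (a : ℝ) (ha : a ≠ 0) (haa : a * a = 1) :
    Spec.map (CommRingCat.ofHom (evC ℝ (W := ⊤) ⟨a, trivial⟩)) ≫ Q0 F e = r0 F e a ha := by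
  rw [Q0, pt_map (cst F e) (evC ℝ (W := ⊤) ⟨a, trivial⟩) ![idC, 1] e (by rfl) ![a, 1]
    (by intro i; fin_cases i <;> rfl) (MvPolynomial.X 1) _ (by simp [evP]) (X_mem F 1) one_pos, r0,
    pt_mul e ![a, 1] (MvPolynomial.X 1) (MvPolynomial.X 0) _ _ _ (X_mem F 0) (XX F)
      (mul_comm _ _) (by simpa [evP, XX] using ha) (XX_mem F) two_pos rfl]
  apply pt_smul e a
  intro i
  fin_cases i
  · simp [haa]
  · simp

omit e in
theorem sup_eq_top : Proj.basicOpen (gr F) (MvPolynomial.X 0) ⊔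
    Proj.basicOpen (gr F) (MvPolynomial.X 1) = ⊤ := by
  have h := Proj.iSup_basicOpen_eq_top' (gr F) (fun i : Fin 2 => MvPolynomial.X i)
    (fun i => ⟨1, X_mem F i⟩) (by
      rw [eq_top_iff]
      intro p _
      induction p using MvPolynomial.induction_on with
      | C a =>
        have h0 : (MvPolynomial.C a : MvPolynomial (Fin 2) F) ∈ gr F 0 :=
          MvPolynomial.isHomogeneous_C _ a
        exact Subalgebra.algebraMap_mem (Algebra.adjoin (gr F 0) _) (⟨_, h0⟩ : gr F 0)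
      | add p q hp hq => exact add_mem (hp trivial) (hq trivial)
      | mul_X p i hp => exact mul_mem (hp trivial) (Algebra.subset_adjoin ⟨i, rfl⟩))
  rw [← h]
  apply le_antisymm
  · exact sup_le (le_iSup (fun i : Fin 2 => Proj.basicOpen (gr F) (MvPolynomial.X i)) 0)
      (le_iSup (fun i : Fin 2 => Proj.basicOpen (gr F) (MvPolynomial.X i)) 1)
  · refine iSup_le fun i => ?_
    fin_cases i
    · exact le_sup_left
    · exact le_sup_right

theorem pt_mem {R : Type} [CommRing R] (e : F →+* R) (v : Fin 2 → R) (f : MvPolynomial (Fin 2) F)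
    (hf : IsUnit (evP e v f)) {m : ℕ} (hd : f ∈ gr F m) (hm : 0 < m) (x : Spec (.of R)) :
    (pt e v f hf hd hm) x ∈ Proj.basicOpen (gr F) f := by
  rw [← Proj.opensRange_awayι (gr F) f hd hm, pt, Scheme.Hom.comp_apply]
  exact ⟨_, rfl⟩

/-- Lifting to an open subscheme. -/
noncomputable def lf {X T : Scheme.{0}} (W : X.Opens) (g : T ⟶ X) (h : ∀ x, g x ∈ W) :
    T ⟶ (W : Scheme.{0}) :=
  IsOpenImmersion.lift W.ι g (by
    rw [Scheme.Opens.range_ι]
    rintro _ ⟨x, rfl⟩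
    exact h x)

omit [Field F] in
theorem lf_fac {X T : Scheme.{0}} (W : X.Opens) (g : T ⟶ X) (h : ∀ x, g x ∈ W) :
    lf W g h ≫ W.ι = g :=
  IsOpenImmersion.lift_fac _ _ _

section Construction

variable {X : Scheme.{0}} (j : X ⟶ P1 F)

/-- The chart `x₀ ≠ 0`. -/
noncomputable def DU : X.Opens := j ⁻¹ᵁ Proj.basicOpen (gr F) (MvPolynomial.X 0)

/-- The chart `x₁ ≠ 0`. -/
noncomputable def DV : X.Opens := j ⁻¹ᵁ Proj.basicOpen (gr F) (MvPolynomial.X 1)

/-- The coordinate on the intersection of the charts. -/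
noncomputable def hh : ((DU F j ⊓ DV F j : X.Opens) : Scheme.{0}) ⟶
    Spec (.of (Away (gr F) (XX F))) :=
  IsOpenImmersion.lift (Proj.awayι (gr F) (XX F) (XX_mem F) two_pos) ((DU F j ⊓ DV F j).ι ≫ j) (by
    rintro _ ⟨x, rfl⟩
    have h : ((DU F j ⊓ DV F j).ι ≫ j) x ∈
        (Proj.awayι (gr F) (XX F) (XX_mem F) two_pos).opensRange := by
      rw [Proj.opensRange_awayι, XX, Proj.basicOpen_mul, Scheme.Hom.comp_apply]
      exact x.2
    exact h)

theorem hh_fac : hh F j ≫ Proj.awayι (gr F) (XX F) (XX_mem F) two_pos = (DU F j ⊓ DV F j).ι ≫ j :=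
  IsOpenImmersion.lift_fac _ _ _

variable (P' Q' : Spec (.of C((⊤ : Opens ℝ), ℝ)) ⟶ X) (hP : P' ≫ j = P0 F e)
  (hQ : Q' ≫ j = Q0 F e)

include hP in
theorem evP_mem (a : ℝ) (ha : a ≠ 0) (x : Spec (.of ℝ)) :
    (Spec.map (CommRingCat.ofHom (evC ℝ (W := ⊤) ⟨a, trivial⟩)) ≫ P') x ∈ DU F j ⊓ DV F j := by
  have h : (r0 F e a ha) x ∈ Proj.basicOpen (gr F) (XX F) := pt_mem F e _ _ _ _ _ x
  rw [← evP0, ← hP, ← Category.assoc, Scheme.Hom.comp_apply, XX, Proj.basicOpen_mul] at h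
  exact h

/-- The end points. -/
noncomputable def rr (a : ℝ) (ha : a ≠ 0) : Spec (.of ℝ) ⟶ (DU F j ⊓ DV F j : X.Opens) :=
  lf _ (Spec.map (CommRingCat.ofHom (evC ℝ (W := ⊤) ⟨a, trivial⟩)) ≫ P')
    (evP_mem F e j P' hP a ha)

theorem rr_hh (a : ℝ) (ha : a ≠ 0) : rr F e j P' hP a ha ≫ hh F j =
    Spec.map (CommRingCat.ofHom (evA e ![1, a] (XX F) (by simpa [evP, XX] using ha))) := by
  rw [← cancel_mono (Proj.awayι (gr F) (XX F) (XX_mem F) two_pos), Category.assoc, hh_fac,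
    ← Category.assoc, rr, lf_fac, Category.assoc, hP, evP0 F e a ha, r0, pt]

/-- The unit `X₁ / X₀` on the intersection of the charts. -/
noncomputable def xx : (Γ((DU F j ⊓ DV F j : X.Opens), ⊤))ˣ :=
  Units.map (((Scheme.ΓSpecIso (.of (Away (gr F) (XX F)))).inv ≫ (hh F j).appTop).hom : _ →* _)
    (xu F)

theorem rr_val (a : ℝ) (ha : a ≠ 0) :
    ((rr F e j P' hP a ha).appTop ≫ (Scheme.ΓSpecIso (.of ℝ)).hom).hom
      (xx F j : Γ((DU F j ⊓ DV F j : X.Opens), ⊤)) = a := by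
  have h : ((Scheme.ΓSpecIso (.of (Away (gr F) (XX F)))).inv ≫ (hh F j).appTop) ≫
      (rr F e j P' hP a ha).appTop ≫ (Scheme.ΓSpecIso (.of ℝ)).hom =
      CommRingCat.ofHom (evA e ![1, a] (XX F) (by simpa [evP, XX] using ha)) := by
    rw [Category.assoc, ← Category.assoc (hh F j).appTop, ← Scheme.Hom.comp_appTop, rr_hh,
      Iso.inv_comp_eq, Scheme.ΓSpecIso_naturality]
  have h2 := congrArg (fun φ => φ.hom (xu F : Away (gr F) (XX F))) h
  refine h2.trans ?_
  rw [CommRingCat.hom_ofHom, evA_xu F e _ _ (by simp)]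
  simp

include hP in
theorem hP_mem (x : Spec (.of C((⊤ : Opens ℝ), ℝ))) : P' x ∈ DU F j := by
  have h : (P0 F e) x ∈ Proj.basicOpen (gr F) (MvPolynomial.X 0) := pt_mem F _ _ _ _ _ _ x
  rw [← hP, Scheme.Hom.comp_apply] at h
  exact h

include hQ in
theorem hQ_mem (x : Spec (.of C((⊤ : Opens ℝ), ℝ))) : Q' x ∈ DV F j := by
  have h : (Q0 F e) x ∈ Proj.basicOpen (gr F) (MvPolynomial.X 1) := pt_mem F _ _ _ _ _ _ x
  rw [← hQ, Scheme.Hom.comp_apply] at h
  exact h

include e in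
theorem two_unit (Y : Scheme.{0}) (g : Y ⟶ P1 F) : IsUnit (2 : Γ(Y, ⊤)) := by
  have h2 : (2 : F) ≠ 0 := by
    intro h
    have := congrArg e h
    rw [map_ofNat, map_zero] at this
    norm_num at this
  have h := (isUnit_iff_ne_zero.2 h2).map
    ((Scheme.ΓSpecIso (.of F)).inv ≫ (g ≫ P1.toSpec F).appTop).hom
  rwa [map_ofNat] at h

/-- The Möbius datum. -/
noncomputable def moebOf [Mono j] : Moeb X where
  U := DU F j
  V := DV F j
  sup_eq := by
    have h := congrArg (fun W => j ⁻¹ᵁ W) (sup_eq_top F)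
    exact h
  two := two_unit F e _ ((DU F j ⊓ DV F j).ι ≫ j)
  x := xx F j
  P := lf _ P' (hP_mem F e j P' hP)
  Q := lf _ Q' (hQ_mem F e j Q' hQ)
  rp := rr F e j P' hP 1 one_ne_zero
  rm := rr F e j P' hP (-1) (neg_ne_zero.2 one_ne_zero)
  Pp := by
    rw [← cancel_mono (DU F j).ι, Category.assoc, lf_fac, Category.assoc, Scheme.homOfLE_ι, rr,
      lf_fac]
  Qp := by
    rw [← cancel_mono (DV F j).ι, Category.assoc, lf_fac, Category.assoc, Scheme.homOfLE_ι, rr,
      lf_fac, ← cancel_mono j, Category.assoc, Category.assoc, hP, hQ,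
      evP0 F e 1 one_ne_zero, evQ0 F e 1 one_ne_zero (by norm_num)]
  Pm := by
    rw [← cancel_mono (DU F j).ι, Category.assoc, lf_fac, Category.assoc, Scheme.homOfLE_ι, rr,
      lf_fac]
  Qm := by
    rw [← cancel_mono (DV F j).ι, Category.assoc, lf_fac, Category.assoc, Scheme.homOfLE_ι, rr,
      lf_fac, ← cancel_mono j, Category.assoc, Category.assoc, hP, hQ,
      evP0 F e (-1) (neg_ne_zero.2 one_ne_zero),
      evQ0 F e (-1) (neg_ne_zero.2 one_ne_zero) (by norm_num)]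
  xp := rr_val F e j P' hP 1 one_ne_zero
  xm := rr_val F e j P' hP (-1) (neg_ne_zero.2 one_ne_zero)

end Construction

/-- `X₀² + X₁²`. -/
noncomputable def SS : MvPolynomial (Fin 2) F := MvPolynomial.X 0 ^ 2 + MvPolynomial.X 1 ^ 2

theorem SS_mem : SS F ∈ gr F 2 := by
  refine add_mem ?_ ?_
  · simpa using SetLike.pow_mem_graded (A := gr F) 2 (X_mem F 0)
  · simpa using SetLike.pow_mem_graded (A := gr F) 2 (X_mem F 1)

theorem isUnit_C (f : C((⊤ : Opens ℝ), ℝ)) (h : ∀ t, f t ≠ 0) : IsUnit f :=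
  (ContinuousMap.isUnit_iff_forall_ne_zero f).2 h

theorem P0_mem (x : Spec (.of C((⊤ : Opens ℝ), ℝ))) : P0 F e x ∈ Proj.basicOpen (gr F) (SS F) := by
  have hu : IsUnit (evP (cst F e) ![1, idC] (SS F)) := by
    apply isUnit_C
    intro t
    simp only [evP, SS, idC, map_add, map_pow, MvPolynomial.coe_eval₂Hom, MvPolynomial.eval₂_X]
    simp
    positivity
  have hv : IsUnit (evP (cst F e) ![1, idC] (MvPolynomial.X 0 : MvPolynomial (Fin 2) F)) := by
    simp [evP]
  have h := pt_mul (cst F e) ![1, idC] (MvPolynomial.X 0) (SS F) hv (X_mem F 0) one_pos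
    (SS_mem F) (MvPolynomial.X 0 * SS F) rfl (by rw [map_mul]; exact hv.mul hu)
    (SetLike.mul_mem_graded (A := gr F) (X_mem F 0) (SS_mem F)) (by norm_num) rfl
  rw [P0, h]
  have h3 := pt_mem F (cst F e) ![1, idC] (MvPolynomial.X 0 * SS F)
    (by rw [map_mul]; exact hv.mul hu)
    (SetLike.mul_mem_graded (A := gr F) (X_mem F 0) (SS_mem F)) (by norm_num) x
  exact Proj.basicOpen_mono (gr F) _ _ ⟨_, mul_comm _ _⟩ h3

theorem Q0_mem (x : Spec (.of C((⊤ : Opens ℝ), ℝ))) : Q0 F e x ∈ Proj.basicOpen (gr F) (SS F) := by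
  have hu : IsUnit (evP (cst F e) ![idC, 1] (SS F)) := by
    apply isUnit_C
    intro t
    simp only [evP, SS, idC, map_add, map_pow, MvPolynomial.coe_eval₂Hom, MvPolynomial.eval₂_X]
    simp
    positivity
  have hv : IsUnit (evP (cst F e) ![idC, 1] (MvPolynomial.X 1 : MvPolynomial (Fin 2) F)) := by
    simp [evP]
  have h := pt_mul (cst F e) ![idC, 1] (MvPolynomial.X 1) (SS F) hv (X_mem F 1) one_pos
    (SS_mem F) (MvPolynomial.X 1 * SS F) rfl (by rw [map_mul]; exact hv.mul hu)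
    (SetLike.mul_mem_graded (A := gr F) (X_mem F 1) (SS_mem F)) (by norm_num) rfl
  rw [Q0, h]
  have h3 := pt_mem F (cst F e) ![idC, 1] (MvPolynomial.X 1 * SS F)
    (by rw [map_mul]; exact hv.mul hu)
    (SetLike.mul_mem_graded (A := gr F) (X_mem F 1) (SS_mem F)) (by norm_num) x
  exact Proj.basicOpen_mono (gr F) _ _ ⟨_, mul_comm _ _⟩ h3

end Main

end MoebAux

open MoebAux in
/-- Module G. -/
theorem moeb : MoebStmt := by
  intro F _ e
  refine ⟨⟨moebOf F e (𝟙 _) (P0 F e) (Q0 F e) (Category.comp_id _) (Category.comp_id _)⟩,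
    ⟨moebOf F e (Scheme.Opens.ι ⊤) (lf ⊤ (P0 F e) fun _ => trivial) (lf ⊤ (Q0 F e) fun _ => trivial)
      (lf_fac _ _ _) (lf_fac _ _ _)⟩,
    ⟨moebOf F e (Scheme.Opens.ι _) (lf _ (P0 F e) (P0_mem F e)) (lf _ (Q0 F e) (Q0_mem F e))
      (lf_fac _ _ _) (lf_fac _ _ _)⟩⟩

end Pool.Agent.Lib.MP_b73640_ag
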