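import Mathlib
import Pool.Agent.Lib.MP_b73640_ag.Stmts

/-! Module E: Mayer-Vietoris for an open covering by two open sets. -/

open CategoryTheory AlgebraicGeometry Opposite Limits Abelian

namespace Pool.Agent.Lib.MP_b73640_ag

/-- Morphisms from the free abelian sheaf `ℤ[Y]` to `F` are the sections of `F` over `Y`. -/
noncomputable def zfEquiv (Y : Scheme.{0}) (F : EtSh) :
    (Zf.obj Y ⟶ F) ≃ (F.obj ⋙ forget AddCommGrpCat.{1}).obj (op Y) :=
  ((sheafificationAdjunction Scheme.etaleTopology.{0} AddCommGrpCat.{1}).homEquiv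
    (uliftYoneda.{1}.obj Y ⋙ AddCommGrpCat.free.{1}) F).trans
    (((AddCommGrpCat.adj.{1}.whiskerRight Scheme.{0}ᵒᵖ).homEquiv
      (uliftYoneda.{1}.obj Y) F.obj).trans uliftYonedaEquiv)

theorem zfEquiv_naturality {Y Y' : Scheme.{0}} (f : Y' ⟶ Y) (F : EtSh) (g : Zf.obj Y ⟶ F) :
    zfEquiv Y' F (Zf.map f ≫ g) =
      (F.obj ⋙ forget AddCommGrpCat.{1}).map f.op (zfEquiv Y F g) := by
  have h1 := (sheafificationAdjunction Scheme.etaleTopology.{0}
    AddCommGrpCat.{1}).homEquiv_naturality_left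
      (((Functor.whiskeringRight _ _ _).obj AddCommGrpCat.free.{1}).map (uliftYoneda.{1}.map f)) g
  have h2 := (AddCommGrpCat.adj.{1}.whiskerRight Scheme.{0}ᵒᵖ).homEquiv_naturality_left
      (uliftYoneda.{1}.map f)
      ((sheafificationAdjunction Scheme.etaleTopology.{0} AddCommGrpCat.{1}).homEquiv
        (uliftYoneda.{1}.obj Y ⋙ AddCommGrpCat.free.{1}) F g)
  have h3 := uliftYonedaEquiv_naturality (F := F.obj ⋙ forget AddCommGrpCat.{1})
    (((AddCommGrpCat.adj.{1}.whiskerRight Scheme.{0}ᵒᵖ).homEquiv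
      (uliftYoneda.{1}.obj Y) F.obj) ((sheafificationAdjunction Scheme.etaleTopology.{0} AddCommGrpCat.{1}).homEquiv
        (uliftYoneda.{1}.obj Y ⋙ AddCommGrpCat.free.{1}) F g)) f.op
  refine Eq.trans ?_ h3.symm
  refine Eq.trans ?_ (congrArg _ h2)
  exact congrArg (fun t => uliftYonedaEquiv
    ((AddCommGrpCat.adj.{1}.whiskerRight Scheme.{0}ᵒᵖ).homEquiv
      (uliftYoneda.{1}.obj Y') F.obj t)) h1

/-- Two open sets covering `X` form an étale covering. -/
theorem cover_mem (X : Scheme.{0}) (U V : X.Opens) (h : U ⊔ V = ⊤) :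
    Sieve.ofTwoArrows U.ι V.ι ∈ Scheme.etaleTopology.{0} X := by
  apply Scheme.zariskiTopology_le_etaleTopology
  let 𝒰 : X.OpenCover := X.openCoverOfIsOpenCover (fun b : ULift.{0} Bool => if b.down then U else V)
    (by
      rw [TopologicalSpace.IsOpenCover, iSup_ulift, iSup_bool_eq]
      simpa using h)
  refine Scheme.zariskiTopology.superset_covering ?_ 𝒰.mem_grothendieckTopology
  rw [Sieve.generate_le_iff]
  rintro Y g ⟨⟨b⟩⟩
  cases b
  · exact ⟨_, 𝟙 _, _, ⟨WalkingPair.right⟩, Category.id_comp V.ι⟩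
  · exact ⟨_, 𝟙 _, _, ⟨WalkingPair.left⟩, Category.id_comp U.ι⟩

theorem glue (X : Scheme.{0}) (U V : X.Opens) (h : U ⊔ V = ⊤) (F : EtSh)
    (s : (F.obj ⋙ forget AddCommGrpCat.{1}).obj (op (U : Scheme.{0})))
    (t : (F.obj ⋙ forget AddCommGrpCat.{1}).obj (op (V : Scheme.{0})))
    (hst : (F.obj ⋙ forget AddCommGrpCat.{1}).map
        (X.homOfLE (inf_le_left : U ⊓ V ≤ U)).op s =
      (F.obj ⋙ forget AddCommGrpCat.{1}).map
        (X.homOfLE (inf_le_right : U ⊓ V ≤ V)).op t) :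
    ∃! r : (F.obj ⋙ forget AddCommGrpCat.{1}).obj (op X),
      (F.obj ⋙ forget AddCommGrpCat.{1}).map U.ι.op r = s ∧
      (F.obj ⋙ forget AddCommGrpCat.{1}).map V.ι.op r = t := by
  have hF : Presieve.IsSheaf Scheme.etaleTopology.{0} (F.obj ⋙ forget AddCommGrpCat.{1}) := by
    rw [← isSheaf_iff_isSheaf_of_type]
    exact (Presheaf.isSheaf_iff_isSheaf_comp Scheme.etaleTopology.{0} F.obj
      (forget AddCommGrpCat.{1})).1 F.property
  have h1 := (Presieve.isSheafFor_arrows_iff _ _).1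
    ((Presieve.isSheafFor_iff_generate _).2 (hF _ (cover_mem X U V h)))
  obtain ⟨r, hr, hr'⟩ := h1 (fun j => WalkingPair.casesOn j s t) (by
    have key : ∀ (W : Scheme.{0}) (a : W ⟶ (U : Scheme.{0})) (b : W ⟶ (V : Scheme.{0})),
        a ≫ U.ι = b ≫ V.ι → (F.obj ⋙ forget AddCommGrpCat.{1}).map a.op s =
          (F.obj ⋙ forget AddCommGrpCat.{1}).map b.op t := by
      intro W a b hab
      obtain ⟨c, hc1, hc2⟩ : ∃ c : W ⟶ ((U ⊓ V : X.Opens) : Scheme.{0}),
          c ≫ X.homOfLE inf_le_left = a ∧ c ≫ X.homOfLE inf_le_right = b := by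
        refine ⟨IsOpenImmersion.lift (U ⊓ V : X.Opens).ι (a ≫ U.ι) ?_, ?_, ?_⟩
        · rw [Scheme.Opens.range_ι]
          rintro _ ⟨w, rfl⟩
          refine ⟨?_, ?_⟩
          · exact (a w).2
          · rw [hab]
            exact (b w).2
        · rw [← cancel_mono U.ι]
          simp
        · rw [← cancel_mono V.ι]
          simp [hab]
      rw [← hc1, ← hc2, op_comp, op_comp, Functor.map_comp, Functor.map_comp]
      exact congrArg ((F.obj ⋙ forget AddCommGrpCat.{1}).map c.op) hst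
    rintro (_ | _) (_ | _) W a b hab
    · obtain rfl : a = b := (cancel_mono U.ι).1 hab
      rfl
    · exact key W a b hab
    · exact (key W b a hab.symm).symm
    · obtain rfl : a = b := (cancel_mono V.ι).1 hab
      rfl)
  refine ⟨r, ⟨hr WalkingPair.left, hr WalkingPair.right⟩, ?_⟩
  rintro r' ⟨h2, h3⟩
  apply hr'
  rintro (_ | _)
  · exact h2
  · exact h3

/-- The Mayer-Vietoris short complex `ℤ[U ∩ V] ⟶ ℤ[U] ⊞ ℤ[V] ⟶ ℤ[X]`. -/
noncomputable abbrev mvComplex (X : Scheme.{0}) (U V : X.Opens) : ShortComplex EtSh where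
  X₁ := Zf.obj ((U ⊓ V : X.Opens) : Scheme.{0})
  X₂ := Zf.obj (U : Scheme.{0}) ⊞ Zf.obj (V : Scheme.{0})
  X₃ := Zf.obj X
  f := biprod.lift (Zf.map (X.homOfLE inf_le_left)) (-Zf.map (X.homOfLE inf_le_right))
  g := biprod.desc (Zf.map U.ι) (Zf.map V.ι)
  zero := by
    rw [biprod.lift_desc, Preadditive.neg_comp, ← sub_eq_add_neg, sub_eq_zero, ← Functor.map_comp,
      ← Functor.map_comp]
    simp

theorem mono_Zf_map {Y Y' : Scheme.{0}} (f : Y ⟶ Y') [Mono f] : Mono (Zf.map f) := by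
  have h1 : Mono (uliftYoneda.{1}.map f) := inferInstance
  have h2 : Mono (((Functor.whiskeringRight _ _ _).obj AddCommGrpCat.free.{1}).map
      (uliftYoneda.{1}.map f)) := inferInstance
  exact (inferInstance : Mono ((presheafToSheaf Scheme.etaleTopology.{0} AddCommGrpCat.{1}).map
    (((Functor.whiskeringRight _ _ _).obj AddCommGrpCat.free.{1}).map
      (uliftYoneda.{1}.map f))))

theorem mono_mvComplex_f (X : Scheme.{0}) (U V : X.Opens) : Mono (mvComplex X U V).f := by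
  have h1 : (mvComplex X U V).f ≫ (biprod.snd : Zf.obj (U : Scheme.{0}) ⊞
      Zf.obj (V : Scheme.{0}) ⟶ _) = -Zf.map (X.homOfLE (inf_le_right : U ⊓ V ≤ V)) :=
    biprod.lift_snd _ _
  have h2 := mono_Zf_map (X.homOfLE (inf_le_right : U ⊓ V ≤ V))
  have h3 : Mono ((mvComplex X U V).f ≫ (biprod.snd : Zf.obj (U : Scheme.{0}) ⊞
      Zf.obj (V : Scheme.{0}) ⟶ _)) := by
    rw [h1]
    infer_instance
  exact mono_of_mono _ (biprod.snd : Zf.obj (U : Scheme.{0}) ⊞ Zf.obj (V : Scheme.{0}) ⟶ _)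

theorem mv_cokernel (X : Scheme.{0}) (U V : X.Opens) (h : U ⊔ V = ⊤) {F : EtSh}
    (k : (mvComplex X U V).X₂ ⟶ F) (hk : (mvComplex X U V).f ≫ k = 0) :
    ∃! l : Zf.obj X ⟶ F, (mvComplex X U V).g ≫ l = k := by
  let k₁ : Zf.obj (U : Scheme.{0}) ⟶ F := biprod.inl ≫ k
  let k₂ : Zf.obj (V : Scheme.{0}) ⟶ F := biprod.inr ≫ k
  have hk' : k = biprod.desc k₁ k₂ := by
    apply biprod.hom_ext'
    · rw [biprod.inl_desc]
    · rw [biprod.inr_desc]
  have h1 : Zf.map (X.homOfLE (inf_le_left : U ⊓ V ≤ U)) ≫ k₁ =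
      Zf.map (X.homOfLE (inf_le_right : U ⊓ V ≤ V)) ≫ k₂ := by
    rw [hk'] at hk
    have h2 : biprod.lift (Zf.map (X.homOfLE inf_le_left)) (-Zf.map (X.homOfLE inf_le_right)) ≫
      biprod.desc k₁ k₂ = (0 : Zf.obj ((U ⊓ V : X.Opens) : Scheme.{0}) ⟶ F) := hk
    rw [biprod.lift_desc, Preadditive.neg_comp, ← sub_eq_add_neg, sub_eq_zero] at h2
    exact h2
  obtain ⟨r, ⟨hr1, hr2⟩, hr3⟩ := glue X U V h F (zfEquiv _ F k₁) (zfEquiv _ F k₂) (by
    rw [← zfEquiv_naturality, ← zfEquiv_naturality, h1])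
  refine ⟨(zfEquiv X F).symm r, ?_, ?_⟩
  · change biprod.desc (Zf.map U.ι) (Zf.map V.ι) ≫ _ = k
    rw [hk']
    apply biprod.hom_ext'
    · rw [biprod.inl_desc_assoc, biprod.inl_desc]
      apply (zfEquiv _ F).injective
      rw [zfEquiv_naturality, Equiv.apply_symm_apply, hr1]
    · rw [biprod.inr_desc_assoc, biprod.inr_desc]
      apply (zfEquiv _ F).injective
      rw [zfEquiv_naturality, Equiv.apply_symm_apply, hr2]
  · intro l hl
    rw [Equiv.eq_symm_apply]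
    apply hr3
    rw [← zfEquiv_naturality, ← zfEquiv_naturality]
    have h3 : biprod.desc (Zf.map U.ι) (Zf.map V.ι) ≫ l = k := hl
    constructor
    · rw [← biprod.inl_desc (Zf.map U.ι) (Zf.map V.ι), Category.assoc, h3]
    · rw [← biprod.inr_desc (Zf.map U.ι) (Zf.map V.ι), Category.assoc, h3]

/-- The Mayer-Vietoris short complex is short exact. -/
theorem mv_shortExact (X : Scheme.{0}) (U V : X.Opens) (h : U ⊔ V = ⊤) :
    (mvComplex X U V).ShortExact := by
  have hcok : IsColimit (CokernelCofork.ofπ (mvComplex X U V).g (mvComplex X U V).zero) :=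
    CokernelCofork.IsColimit.ofπ _ _
      (fun k hk => (mv_cokernel X U V h k hk).choose)
      (fun k hk => (mv_cokernel X U V h k hk).choose_spec.1)
      (fun k hk m hm => (mv_cokernel X U V h k hk).choose_spec.2 m hm)
  have := mono_mvComplex_f X U V
  exact
    { exact := ShortComplex.exact_of_g_is_cokernel _ hcok
      mono_f := mono_mvComplex_f X U V
      epi_g := ((mvComplex X U V).exact_and_epi_g_iff_g_is_cokernel.2 ⟨hcok⟩).2 }

universe w' v' u'

theorem mv_abstract {C : Type u'} [Category.{v'} C] [Abelian C] [HasExt.{w'} C] {A B B' D : C}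
    (f₁ : A ⟶ B) (f₂ : A ⟶ B') (g₁ : B ⟶ D) (g₂ : B' ⟶ D)
    (w : biprod.lift f₁ (-f₂) ≫ biprod.desc g₁ g₂ = 0)
    (hS : (ShortComplex.mk (biprod.lift f₁ (-f₂)) (biprod.desc g₁ g₂) w).ShortExact)
    (G : C) (n : ℕ) (β : Ext A G n) :
    ∃ α : Ext D G (n + 1), (Ext.mk₀ g₁).comp α (zero_add (n + 1)) = 0 ∧
      (Ext.mk₀ g₂).comp α (zero_add (n + 1)) = 0 ∧
      (∀ k : ℕ, k • β = 0 → k • α = 0) ∧
      (α = 0 → ∃ (b : Ext B G n) (c : Ext B' G n),
        β = (Ext.mk₀ f₁).comp b (zero_add n) - (Ext.mk₀ f₂).comp c (zero_add n)) := by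
  have key : (Ext.mk₀ (biprod.desc g₁ g₂)).comp (hS.extClass.comp β (add_comm 1 n))
      (zero_add (n + 1)) = 0 := hS.comp_extClass_assoc β (add_comm 1 n)
  refine ⟨hS.extClass.comp β (add_comm 1 n), ?_, ?_, ?_, ?_⟩
  · generalize hS.extClass.comp β (add_comm 1 n) = α at key ⊢
    have key' : (Ext.mk₀ (biprod.desc g₁ g₂)).comp α (zero_add (n + 1)) = 0 := key
    rw [← biprod.inl_desc g₁ g₂, ← Ext.mk₀_comp_mk₀_assoc, key', Ext.comp_zero]
  · generalize hS.extClass.comp β (add_comm 1 n) = α at key ⊢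
    have key' : (Ext.mk₀ (biprod.desc g₁ g₂)).comp α (zero_add (n + 1)) = 0 := key
    rw [← biprod.inr_desc g₁ g₂, ← Ext.mk₀_comp_mk₀_assoc, key', Ext.comp_zero]
  · intro k hk
    have h1 : hS.extClass.precomp G (add_comm 1 n) (k • β) =
      k • hS.extClass.precomp G (add_comm 1 n) β := map_nsmul _ k β
    rw [hk] at h1
    have h2 : hS.extClass.precomp G (add_comm 1 n) 0 = 0 := map_zero _
    rw [h2] at h1
    exact h1.symm
  · intro h0
    obtain ⟨x₂, hx₂⟩ := Ext.contravariant_sequence_exact₁ hS G β (add_comm 1 n) h0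
    refine ⟨(Ext.mk₀ biprod.inl).comp x₂ (zero_add n),
      (Ext.mk₀ biprod.inr).comp x₂ (zero_add n), ?_⟩
    rw [Ext.mk₀_comp_mk₀_assoc, Ext.mk₀_comp_mk₀_assoc, ← hx₂]
    have h3 : biprod.lift f₁ (-f₂) = f₁ ≫ biprod.inl + -(f₂ ≫ biprod.inr) := by
      apply biprod.hom_ext <;> simp
    have h4 : (Ext.mk₀ (biprod.lift f₁ (-f₂))).comp x₂ (zero_add n) =
        (Ext.mk₀ (f₁ ≫ biprod.inl)).comp x₂ (zero_add n) -
          (Ext.mk₀ (f₂ ≫ biprod.inr)).comp x₂ (zero_add n) := by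
      rw [h3, Ext.mk₀_add, Ext.add_comp, Ext.mk₀_neg, Ext.neg_comp, sub_eq_add_neg]
    exact h4

theorem mv : MVStmt := by
  intro G X U V h n β
  exact mv_abstract _ _ _ _ _ (mv_shortExact X U V h) G n β

end Pool.Agent.Lib.MP_b73640_ag
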