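import Mathlib
import Pool.Agent.Lib.MP_b73640_ag.Stmts

/-! Module A: étale coverings of `Spec C(W, ℂ)` split locally on `W`. -/

open CategoryTheory AlgebraicGeometry Opposite Limits TopologicalSpace
open scoped Topology

namespace Pool.Agent.Lib.MP_b73640_ag

theorem evC_eval {W : Opens ℝ} (b : W) (p : Polynomial C(W, ℂ)) (x : C(W, ℂ)) :
    (p.eval x) b = (p.map (evC ℂ b)).eval (x b) := by
  have h := Polynomial.hom_eval₂ p (RingHom.id _) (evC ℂ b) x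
  rw [RingHom.comp_id] at h
  rw [Polynomial.eval_map]
  exact h

theorem evC_comp_resC {W W' : Opens ℝ} (h : W' ≤ W) (b : W') :
    (evC ℂ b).comp (resC ℂ h) = evC ℂ ⟨(b : ℝ), h b.2⟩ := rfl

theorem resC_eval {W W' : Opens ℝ} (h : W' ≤ W) (b : W') (p : Polynomial C(W, ℂ))
    (x : C(W', ℂ)) :
    ((p.map (resC ℂ h)).eval x) b = (p.map (evC ℂ ⟨(b : ℝ), h b.2⟩)).eval (x b) := by
  rw [evC_eval, Polynomial.map_map, evC_comp_resC]

/-- The opens of `ℝ` given by opens of an open subset. -/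
theorem exists_opens {W : Opens ℝ} (V : Set W) (hV : IsOpen V) :
    ∃ (W' : Opens ℝ) (_ : W' ≤ W), ∀ b : W, (b : ℝ) ∈ W' ↔ b ∈ V := by
  refine ⟨⟨Subtype.val '' V, W.isOpen.isOpenMap_subtype_val V hV⟩, ?_, ?_⟩
  · rintro _ ⟨b, _, rfl⟩
    exact b.2
  · intro b
    constructor
    · rintro ⟨b', hb', hbb⟩
      have : b' = b := Subtype.ext hbb
      exact this ▸ hb'
    · intro hb
      exact ⟨b, hb, rfl⟩

/-- The universal polynomial of degree at most `n`. -/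
noncomputable def univPoly (n : ℕ) (p : (Fin (n + 1) → ℂ) × ℂ) : ℂ :=
  ∑ i : Fin (n + 1), p.1 i * p.2 ^ (i : ℕ)

theorem univPoly_contDiff (n : ℕ) : ContDiff ℂ 1 (univPoly n) := by
  unfold univPoly
  fun_prop

theorem univPoly_eq {n : ℕ} (P : Polynomial ℂ) (hP : P.natDegree ≤ n) (z : ℂ) :
    univPoly n (fun i => P.coeff i, z) = P.eval z := by
  rw [univPoly, Polynomial.eval_eq_sum_range' (Nat.lt_succ_of_le hP)]
  exact (Finset.sum_range (fun i => P.coeff i * z ^ i)).symm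

theorem exists_cont_root {W : Opens ℝ} (a : W) (f g : Polynomial C(W, ℂ)) (x₀ : ℂ)
    (h0 : (f.map (evC ℂ a)).eval x₀ = 0)
    (h1 : (f.map (evC ℂ a)).derivative.eval x₀ ≠ 0)
    (hg : (g.map (evC ℂ a)).eval x₀ ≠ 0) :
    ∃ (W' : Opens ℝ) (h : W' ≤ W) (x : C(W', ℂ)), (a : ℝ) ∈ W' ∧
      (f.map (resC ℂ h)).eval x = 0 ∧ ∀ b, ((g.map (resC ℂ h)).eval x) b ≠ 0 := by
  classical
  set n := f.natDegree with hn
  set c : W → (Fin (n + 1) → ℂ) := fun b i => (f.coeff i) b with hc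
  have hcc : Continuous c := by
    refine continuous_pi fun i => ?_
    exact (f.coeff i).continuous
  have hcoeff : ∀ b, c b = fun i : Fin (n + 1) => (f.map (evC ℂ b)).coeff i := by
    intro b
    funext i
    rw [Polynomial.coeff_map]
    rfl
  have hdeg : ∀ b, (f.map (evC ℂ b)).natDegree ≤ n := fun b => Polynomial.natDegree_map_le
  have hΦ : ∀ b z, univPoly n (c b, z) = (f.map (evC ℂ b)).eval z := by
    intro b z
    rw [hcoeff b]
    exact univPoly_eq _ (hdeg b) z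
  set u : (Fin (n + 1) → ℂ) × ℂ := (c a, x₀) with hu
  have cdf : ContDiffAt ℂ 1 (univPoly n) u := (univPoly_contDiff n).contDiffAt
  have hfd : HasFDerivAt (univPoly n) (fderiv ℂ (univPoly n) u) u :=
    (cdf.differentiableAt (by norm_num)).hasFDerivAt
  have hder : ((fderiv ℂ (univPoly n) u) ∘L .inr ℂ (Fin (n + 1) → ℂ) ℂ) 1
      = (f.map (evC ℂ a)).derivative.eval x₀ := by
    have h2 : HasFDerivAt (fun z : ℂ => (c a, z))
        (.inr ℂ (Fin (n + 1) → ℂ) ℂ) x₀ := hasFDerivAt_prodMk_right _ _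
    have h3 : HasFDerivAt (fun z : ℂ => univPoly n (c a, z))
        ((fderiv ℂ (univPoly n) u) ∘L .inr ℂ (Fin (n + 1) → ℂ) ℂ) x₀ := hfd.comp x₀ h2
    have h4 : (fun z : ℂ => univPoly n (c a, z)) = fun z => (f.map (evC ℂ a)).eval z :=
      funext (hΦ a)
    rw [h4] at h3
    have h5 := h3.hasDerivAt
    exact h5.unique (Polynomial.hasDerivAt _ _)
  have hinv : ((fderiv ℂ (univPoly n) u) ∘L .inr ℂ (Fin (n + 1) → ℂ) ℂ).IsInvertible := by
    refine ⟨ContinuousLinearEquiv.unitsEquivAut ℂ (Units.mk0 _ (hder ▸ h1)), ?_⟩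
    ext
    simp
  set ψ := cdf.implicitFunction (by norm_num) hinv with hψ
  have e1 : ∀ᶠ y in 𝓝 (c a), univPoly n (y, ψ y) = univPoly n u :=
    cdf.eventually_apply_implicitFunction (by norm_num) hinv
  have e2 : ∀ᶠ y in 𝓝 (c a), ContinuousAt ψ y := by
    have h6 := (cdf.contDiffAt_implicitFunction (by norm_num) hinv).eventually (by simp)
    filter_upwards [h6] with y hy using hy.continuousAt
  have e3 : ψ (c a) = x₀ := cdf.implicitFunction_apply_self (by norm_num) hinv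
  have hu0 : univPoly n u = 0 := by rw [hu, hΦ a, h0]
  obtain ⟨V, hVsub, hVo, hVa⟩ := mem_nhds_iff.1 (e1.and e2)
  obtain ⟨W₁, h₁, hW₁⟩ := exists_opens (c ⁻¹' V) (hVo.preimage hcc)
  have hmem : ∀ b : W₁, c ⟨(b : ℝ), h₁ b.2⟩ ∈ V := fun b => (hW₁ ⟨(b : ℝ), h₁ b.2⟩).1 b.2
  have ha₁ : (a : ℝ) ∈ W₁ := (hW₁ a).2 hVa
  let x₁ : C(W₁, ℂ) := ⟨fun b => ψ (c ⟨(b : ℝ), h₁ b.2⟩), by
    rw [continuous_iff_continuousAt]
    intro b
    have h7 : ContinuousAt (fun b : W₁ => c ⟨(b : ℝ), h₁ b.2⟩) b :=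
      (hcc.comp (by fun_prop : Continuous fun b : W₁ => (⟨(b : ℝ), h₁ b.2⟩ : W))).continuousAt
    exact ContinuousAt.comp (f := fun b : W₁ => c ⟨(b : ℝ), h₁ b.2⟩) (hVsub (hmem b)).2 h7⟩
  have hx₁ : ∀ b : W₁, (f.map (evC ℂ ⟨(b : ℝ), h₁ b.2⟩)).eval (x₁ b) = 0 := by
    intro b
    rw [← hΦ]
    exact ((hVsub (hmem b)).1).trans hu0
  let G : C(W₁, ℂ) := (g.map (resC ℂ h₁)).eval x₁
  have hGa : G ⟨a, ha₁⟩ ≠ 0 := by
    change ((g.map (resC ℂ h₁)).eval x₁) ⟨a, ha₁⟩ ≠ 0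
    rw [resC_eval]
    have : x₁ ⟨a, ha₁⟩ = x₀ := e3
    rw [this]
    exact hg
  obtain ⟨W₂, h₂, hW₂⟩ := exists_opens {b : W₁ | G b ≠ 0} (isOpen_ne_fun G.continuous
    continuous_const)
  refine ⟨W₂, h₂.trans h₁, resC ℂ h₂ x₁, (hW₂ ⟨a, ha₁⟩).2 hGa, ?_, ?_⟩
  · ext b
    rw [resC_eval]
    exact hx₁ ⟨(b : ℝ), h₂ b.2⟩
  · intro b
    rw [resC_eval]
    have h8 : G ⟨(b : ℝ), h₂ b.2⟩ ≠ 0 := (hW₂ ⟨(b : ℝ), h₂ b.2⟩).1 b.2
    change ((g.map (resC ℂ h₁)).eval x₁) ⟨(b : ℝ), h₂ b.2⟩ ≠ 0 at h8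
    rw [resC_eval] at h8
    exact h8

/-- Étale algebras over `C(W, ℂ)` with a point over `a` split near `a`. -/
theorem exists_split {W : Opens ℝ} (a : W) (B : Type) [CommRing B] [Algebra C(W, ℂ) B]
    [Algebra.Etale C(W, ℂ) B] (φ : B →+* ℂ)
    (hφ : φ.comp (algebraMap C(W, ℂ) B) = evC ℂ a) :
    ∃ (W' : Opens ℝ) (h : W' ≤ W) (ψ : B →+* C(W', ℂ)), (a : ℝ) ∈ W' ∧
      ψ.comp (algebraMap C(W, ℂ) B) = resC ℂ h := by
  classical
  have : (RingHom.ker φ).IsPrime := RingHom.ker_isPrime φ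
  obtain ⟨r, hr, hstd⟩ := Algebra.IsEtaleAt.exists_isStandardEtale (R := C(W, ℂ))
    (RingHom.ker φ)
  have hr' : IsUnit (φ r) := by
    rw [isUnit_iff_ne_zero]
    exact fun h => hr h
  obtain ⟨P⟩ := hstd.nonempty_standardEtalePresentation
  let algC : Algebra C(W, ℂ) ℂ := (evC ℂ a).toAlgebra
  have hmapC : (algebraMap C(W, ℂ) ℂ) = evC ℂ a := rfl
  let φ' : Localization.Away r →ₐ[C(W, ℂ)] ℂ :=
    { IsLocalization.Away.lift r hr' with
      commutes' := by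
        intro c
        change IsLocalization.Away.lift r hr' (algebraMap C(W, ℂ) (Localization.Away r) c) = _
        rw [IsScalarTower.algebraMap_apply C(W, ℂ) B (Localization.Away r),
          IsLocalization.Away.lift_eq, hmapC, ← hφ]
        rfl }
  have hx₀ : P.P.HasMap (φ' P.x) := P.hasMap.map φ'
  have hev : ∀ p : Polynomial C(W, ℂ), Polynomial.aeval (φ' P.x) p
      = (p.map (evC ℂ a)).eval (φ' P.x) := by
    intro p
    rw [Polynomial.aeval_def, Polynomial.eval₂_eq_eval_map]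
    rfl
  have h0 := hx₀.1
  have hg := hx₀.2.ne_zero
  have h1 := hx₀.isUnit_derivative_f.ne_zero
  rw [hev] at h0 hg h1
  rw [← Polynomial.derivative_map] at h1
  obtain ⟨W', h, x, haW', hx, hxg⟩ := exists_cont_root a _ _ _ h0 h1 hg
  let algW : Algebra C(W, ℂ) C(W', ℂ) := (resC ℂ h).toAlgebra
  have hev' : ∀ p : Polynomial C(W, ℂ), Polynomial.aeval x p
      = (p.map (resC ℂ h)).eval x := by
    intro p
    rw [Polynomial.aeval_def, Polynomial.eval₂_eq_eval_map]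
    rfl
  have hxm : P.P.HasMap x := by
    refine ⟨?_, ?_⟩
    · rw [hev']
      exact hx
    · rw [hev', ContinuousMap.isUnit_iff_forall_ne_zero]
      exact hxg
  let L : Localization.Away r →ₐ[C(W, ℂ)] C(W', ℂ) :=
    (P.P.lift x hxm).comp P.equivRing.toAlgHom
  refine ⟨W', h, L.toRingHom.comp (algebraMap B (Localization.Away r)), haW', ?_⟩
  ext1 c
  change L (algebraMap B (Localization.Away r) (algebraMap C(W, ℂ) B c)) = resC ℂ h c
  rw [← IsScalarTower.algebraMap_apply]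
  exact L.commutes c

/-- A complex point factors through an affine open. -/
theorem exists_affine_lift (X : Scheme.{0}) (l : Spec (.of ℂ) ⟶ X) :
    ∃ (B : CommRingCat.{0}) (ρ₀ : Spec B ⟶ X) (l' : Spec (.of ℂ) ⟶ Spec B),
      IsOpenImmersion ρ₀ ∧ l' ≫ ρ₀ = l := by
  obtain ⟨j, v, hv⟩ := X.affineCover.exists_eq (l (IsLocalRing.closedPoint ℂ))
  have hj : IsOpenImmersion (X.affineCover.f j) := X.affineCover.map_prop j
  refine ⟨_, X.affineCover.f j, @IsOpenImmersion.lift _ _ _ (X.affineCover.f j) l hj ?_,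
    hj, @IsOpenImmersion.lift_fac _ _ _ _ _ hj _⟩
  rintro _ ⟨p, rfl⟩
  have hp : p = IsLocalRing.closedPoint ℂ := Subsingleton.elim _ _
  rw [hp]
  exact ⟨v, hv⟩

theorem liftC : LiftCStmt := by
  intro R hR
  obtain ⟨Y, f, hf, y, hy⟩ := (Scheme.geometricFiber ℂ).jointly_surjective R hR
    (𝟙 (Spec (.of ℂ)))
  have h : y ≫ f = 𝟙 _ := hy
  rw [← h]
  exact R.downward_closed hf y

theorem lift : LiftStmt := by
  intro W a R hR
  obtain ⟨𝒰, hle⟩ := (Scheme.mem_grothendieckTopology_iff (P := @Etale)).1 hR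
  have hR' : Sieve.generate (Presieve.ofArrows 𝒰.X 𝒰.f) ∈ Scheme.etaleTopology.{0} _ := by
    exact (Scheme.mem_grothendieckTopology_iff (P := @Etale)).2 ⟨𝒰, Sieve.le_generate _⟩
  obtain ⟨Y, f, hf, y, hy⟩ : ∃ (Y : Scheme.{0}) (f : Y ⟶ Spec (.of C(W, ℂ)))
      (_ : Sieve.generate (Presieve.ofArrows 𝒰.X 𝒰.f) f) (y : Spec (.of ℂ) ⟶ Y),
      y ≫ f = Spec.map (CommRingCat.ofHom (evC ℂ a)) :=
    (Scheme.geometricFiber ℂ).jointly_surjective _ hR' (Spec.map (CommRingCat.ofHom (evC ℂ a)))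
  obtain ⟨Z, k, g, ⟨i⟩, hk⟩ := hf
  have hy' : (y ≫ k) ≫ 𝒰.f i = Spec.map (CommRingCat.ofHom (evC ℂ a)) := by
    rw [← hy, ← hk]
    exact Category.assoc _ _ _
  have hRi : R (𝒰.f i) := hle _ _ ⟨i⟩
  have hEt : Etale (𝒰.f i) := 𝒰.map_prop i
  set π := 𝒰.f i with hπ
  set l : Spec (.of ℂ) ⟶ 𝒰.X i := y ≫ k with hl
  obtain ⟨B, ρ₀, l', hopen, hl'⟩ := exists_affine_lift (𝒰.X i) l
  have hρ : Etale (ρ₀ ≫ π) := inferInstance
  set β : CommRingCat.of C(W, ℂ) ⟶ B := Spec.preimage (ρ₀ ≫ π) with hβ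
  have hβ' : Spec.map β = ρ₀ ≫ π := Spec.map_preimage _
  have hβe : β.hom.Etale := by
    rw [← hβ'] at hρ
    exact (HasRingHomProperty.Spec_iff (P := @Etale)).1 hρ
  set φ : B ⟶ CommRingCat.of ℂ := Spec.preimage l' with hφ
  have hφ' : Spec.map φ = l' := Spec.map_preimage _
  have hcomp : β ≫ φ = CommRingCat.ofHom (evC ℂ a) := by
    apply Spec.map_injective
    rw [Spec.map_comp, hφ', hβ', ← Category.assoc, hl']
    exact hy'
  let _ : Algebra C(W, ℂ) B := β.hom.toAlgebra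
  have : Algebra.Etale C(W, ℂ) B := hβe
  obtain ⟨W', h, ψ, haW', hψ⟩ := exists_split a B φ.hom (by
    have := congrArg CommRingCat.Hom.hom hcomp
    exact this)
  refine ⟨W', h, haW', ?_⟩
  have hfin : Spec.map (CommRingCat.ofHom (resC ℂ h)) = (Spec.map (CommRingCat.ofHom ψ) ≫ ρ₀) ≫ π := by
    rw [Category.assoc, ← hβ', ← Spec.map_comp]
    congr 1
    ext1
    exact hψ.symm
  rw [hfin]
  exact R.downward_closed hRi _

end Pool.Agent.Lib.MP_b73640_ag
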