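import Mathlib
import Pool.Agent.Lib.MP_b73640_ag.Stmts
import Pool.Agent.Lib.MP_b73640_ag.LocTriv
import Pool.Agent.Lib.MP_b73640_ag.Gauss
import Pool.Agent.Lib.MP_b73640_ag.Cup

/-! Units as classes of degree `0`, and the norm criterion. -/

open CategoryTheory AlgebraicGeometry Opposite Limits Abelian TopologicalSpace

namespace Pool.Agent.Lib.MP_b73640_ag

theorem pb_id (G : EtSh) {n : ℕ} {X : Scheme.{0}} (α : HG G n X) : pb G (𝟙 X) α = α := by
  rw [pb_apply, CategoryTheory.Functor.map_id, Ext.mk₀_id_comp]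

theorem pb_comp (G : EtSh) {n : ℕ} {X Y Z : Scheme.{0}} (f : Y ⟶ X) (g : Z ⟶ Y)
    (α : HG G n X) : pb G (g ≫ f) α = pb G g (pb G f α) := by
  rw [pb_apply, pb_apply, pb_apply, Functor.map_comp, ← Ext.mk₀_comp_mk₀_assoc]

/-- The class of degree `0` of a unit. -/
noncomputable def uc {X : Scheme.{0}} (u : (Γ(X, ⊤))ˣ) : HG Gm 0 X :=
  Ext.mk₀ ((secEquiv X Gm).symm ⟨Additive.ofMul u⟩)

theorem uc_surj {X : Scheme.{0}} (β : HG Gm 0 X) : ∃ u, uc u = β := by
  obtain ⟨f, rfl⟩ := (Ext.mk₀_bijective _ _).2 β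
  refine ⟨((secEquiv X Gm) f).down.toMul, ?_⟩
  rw [uc]
  congr 1
  exact (secEquiv X Gm).symm_apply_apply f

theorem uc_inj {X : Scheme.{0}} {u v : (Γ(X, ⊤))ˣ} (h : uc u = uc v) : u = v := by
  have := (secEquiv X Gm).symm.injective ((Ext.mk₀_bijective _ _).1 h)
  exact Additive.ofMul.injective (ULift.up_injective this)

theorem uc_mul {X : Scheme.{0}} (u v : (Γ(X, ⊤))ˣ) : uc (u * v) = uc u + uc v := by
  rw [uc, uc, uc, ← Ext.mk₀_add, ← map_add]
  rfl

theorem pb_uc {X Y : Scheme.{0}} (f : Y ⟶ X) (u : (Γ(X, ⊤))ˣ) :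
    pb Gm f (uc u) = uc (Units.map (f.appTop.hom : _ →* _) u) := by
  rw [pb_apply, uc, uc, Ext.mk₀_comp_mk₀]
  congr 1
  rw [AddEquiv.eq_symm_apply, secEquiv_map, AddEquiv.apply_symm_apply]
  rfl

/-- The class of degree `0` of a unit of a ring. -/
noncomputable def us {A : Type} [CommRing A] (u : Aˣ) : HG Gm 0 (Spec (.of A)) :=
  uc (Units.map ((Scheme.ΓSpecIso (.of A)).inv.hom : _ →* _) u)

theorem us_surj {A : Type} [CommRing A] (β : HG Gm 0 (Spec (.of A))) : ∃ u : Aˣ, us u = β := by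
  obtain ⟨v, rfl⟩ := uc_surj β
  refine ⟨Units.map ((Scheme.ΓSpecIso (.of A)).hom.hom : Γ(Spec (.of A), ⊤) →* A) v, ?_⟩
  rw [us]
  congr 1
  ext
  simp

theorem us_inj {A : Type} [CommRing A] {u v : Aˣ} (h : us u = us v) : u = v := by
  have h1 := uc_inj h
  have h2 := congrArg (Units.map ((Scheme.ΓSpecIso (.of A)).hom.hom : Γ(Spec (.of A), ⊤) →* A)) h1
  ext
  have h3 := congrArg Units.val h2
  simpa using h3

theorem us_mul {A : Type} [CommRing A] (u v : Aˣ) : us (u * v) = us u + us v := by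
  rw [us, us, us, ← uc_mul, map_mul]

theorem pb_us {A B : Type} [CommRing A] [CommRing B] (φ : A →+* B) (u : Aˣ) :
    pb Gm (Spec.map (CommRingCat.ofHom φ)) (us u) = us (Units.map (φ : A →* B) u) := by
  rw [us, us, pb_uc]
  congr 1
  ext
  have := congrArg (fun f => f.hom (u : A)) (Scheme.ΓSpecIso_inv_naturality (CommRingCat.ofHom φ))
  simp only [CommRingCat.hom_comp, RingHom.comp_apply, CommRingCat.hom_ofHom] at this
  simpa using this.symm

section

variable {A B : Type} [CommRing A] [CommRing B] [Algebra A B] (g : Gauss A B)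

/-- The torsor of a Gaussian extension. -/
noncomputable def torOf : Tor where
  X := Spec (.of A)
  Y := Spec (.of B)
  π := Spec.map (CommRingCat.ofHom (algebraMap A B))
  σ := Spec.map (CommRingCat.ofHom (g.σ : B →+* B))
  σ_π := by
    rw [← Spec.map_comp, ← CommRingCat.ofHom_comp]
    congr 2
    ext a
    simp
  σ_σ := by
    rw [← Spec.map_comp, ← CommRingCat.ofHom_comp, ← Spec.map_id]
    congr 1
    have : ((g.σ : B →+* B).comp (g.σ : B →+* B)) = RingHom.id B := by
      refine g.hom_ext (fun a => ?_) ?_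
      · simp
      · simp [g.σ_i]
    rw [this]
    rfl
  cover := (gauss A B g).1
  free := (gauss A B g).2.1
  two := (gauss A B g).2.2

theorem torOf_π : (torOf g).π = Spec.map (CommRingCat.ofHom (algebraMap A B)) := rfl

theorem torOf_σ : (torOf g).σ = Spec.map (CommRingCat.ofHom (g.σ : B →+* B)) := rfl

theorem pb_tr_us (b : Bˣ) : pb Gm (torOf g).π ((torOf g).tr Gm 0 (us b)) =
    us (b * Units.map ((g.σ : B →+* B) : B →* B) b) := by
  rw [Tor.pb_tr, us_mul]
  congr 1
  exact pb_us (g.σ : B →+* B) b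

theorem pb_π_injective (T : Tor) (G : EtSh) : Function.Injective (pb G (n := 0) T.π) :=
  Ext.precomp_mk₀_injective_of_epi G T.p

/-- Norms have trivial cup product. -/
theorem cup_us_eq_zero (a : Aˣ) (b : Bˣ)
    (h : algebraMap A B a = b * g.σ b) : (torOf g).cup Gm 0 (us a) = 0 := by
  have h1 : (torOf g).tr Gm 0 (us b) = us a := by
    apply pb_π_injective (torOf g) Gm
    rw [pb_tr_us]
    refine Eq.trans ?_ (pb_us (algebraMap A B) a).symm
    congr 1
    ext
    simpa using h.symm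
  rw [← h1, Tor.cup_tr]

/-- Units with trivial cup product are norms, if `H¹` vanishes upstairs. -/
theorem exists_norm (a : Aˣ) (h : (torOf g).cup Gm 0 (us a) = 0)
    (h0 : ∀ γ : HG Gm 1 (Spec (.of B)), γ = 0) : ∃ b : Bˣ, algebraMap A B a = b * g.σ b := by
  obtain ⟨γ, hγ⟩ := (torOf g).exists_tr Gm (us a) h h0
  obtain ⟨b, rfl⟩ := us_surj γ
  refine ⟨b, ?_⟩
  have h1 := congrArg (pb Gm (torOf g).π) hγ
  rw [pb_tr_us] at h1
  have h2 : us (b * Units.map ((g.σ : B →+* B) : B →* B) b) =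
      us (Units.map (algebraMap A B : A →* B) a) := h1.trans (pb_us (algebraMap A B) a)
  have h3 := congrArg Units.val (us_inj h2)
  simpa using h3.symm

end

/-- Morphisms of Gaussian extensions. -/
noncomputable def homOf {A B A' B' : Type} [CommRing A] [CommRing B] [Algebra A B] [CommRing A']
    [CommRing B'] [Algebra A' B'] (g : Gauss A B) (g' : Gauss A' B') (φ : A →+* A') (ψ : B →+* B')
    (h : ∀ a, ψ (algebraMap A B a) = algebraMap A' B' (φ a)) (hi : ψ g.i = g'.i) :
    TorHom (torOf g') (torOf g) where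
  f := Spec.map (CommRingCat.ofHom φ)
  g := Spec.map (CommRingCat.ofHom ψ)
  w := by
    change Spec.map (CommRingCat.ofHom ψ) ≫ Spec.map (CommRingCat.ofHom (algebraMap A B)) =
      Spec.map (CommRingCat.ofHom (algebraMap A' B')) ≫ Spec.map (CommRingCat.ofHom φ)
    rw [← Spec.map_comp, ← Spec.map_comp, ← CommRingCat.ofHom_comp, ← CommRingCat.ofHom_comp]
    congr 2
    ext a
    exact h a
  v := by
    change Spec.map (CommRingCat.ofHom (g'.σ : B' →+* B')) ≫ Spec.map (CommRingCat.ofHom ψ) =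
      Spec.map (CommRingCat.ofHom ψ) ≫ Spec.map (CommRingCat.ofHom (g.σ : B →+* B))
    rw [← Spec.map_comp, ← Spec.map_comp, ← CommRingCat.ofHom_comp, ← CommRingCat.ofHom_comp]
    congr 2
    refine g.hom_ext (fun a => ?_) ?_
    · simp [h]
    · simp [hi, g.σ_i, g'.σ_i]

end Pool.Agent.Lib.MP_b73640_ag
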