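import Mathlib
import Pool.Agent.Lib.MP_b73640_ag.Units
import Pool.Agent.Lib.MP_b73640_ag.Lift

/-! Local constancy of classes of degree two at real points. -/

open CategoryTheory AlgebraicGeometry Opposite Limits Abelian TopologicalSpace

namespace Pool.Agent.Lib.MP_b73640_ag

/-- `ℂ` as a Gaussian extension of `ℝ`. -/
noncomputable def gaussC : Gauss ℝ ℂ where
  i := Complex.I
  i_mul_i := Complex.I_mul_I
  two := by
    rw [isUnit_iff_ne_zero]
    norm_num
  bij := by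
    constructor
    · rintro ⟨a, b⟩ ⟨c, d⟩ h
      have h1 := congrArg Complex.re h
      have h2 := congrArg Complex.im h
      simp at h1 h2
      rw [h1, h2]
    · intro z
      exact ⟨(z.re, z.im), by simp [Complex.re_add_im]⟩
  σ := Complex.conjAe
  σ_i := by simp

/-- The inclusion of real functions in complex functions. -/
noncomputable def incl (W : Opens ℝ) : C(W, ℝ) →+* C(W, ℂ) where
  toFun f := ⟨fun t => (f t : ℂ), by fun_prop⟩
  map_one' := by ext; simp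
  map_mul' _ _ := by ext; simp
  map_zero' := by ext; simp
  map_add' _ _ := by ext; simp

noncomputable instance (W : Opens ℝ) : Algebra C(W, ℝ) C(W, ℂ) := (incl W).toAlgebra

theorem algebraMap_apply' (W : Opens ℝ) (f : C(W, ℝ)) (t : W) :
    algebraMap C(W, ℝ) C(W, ℂ) f t = (f t : ℂ) := rfl

/-- Complex functions as a Gaussian extension of real functions. -/
noncomputable def gaussW (W : Opens ℝ) : Gauss C(W, ℝ) C(W, ℂ) where
  i := ⟨fun _ => Complex.I, continuous_const⟩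
  i_mul_i := by ext; simp
  two := by
    refine ⟨⟨2, ⟨fun _ => 1 / 2, continuous_const⟩, ?_, ?_⟩, rfl⟩
    · ext t
      change (2 : ℝ) * (1 / 2) = 1
      norm_num
    · ext t
      change (1 / 2 : ℝ) * 2 = 1
      norm_num
  bij := by
    constructor
    · rintro ⟨a, b⟩ ⟨c, d⟩ h
      have h' : ∀ t, a t = c t ∧ b t = d t := by
        intro t
        have ht := congrArg (fun f : C(W, ℂ) => f t) h
        simp only [ContinuousMap.add_apply, ContinuousMap.mul_apply, algebraMap_apply',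
          ContinuousMap.coe_mk] at ht
        have h1 := congrArg Complex.re ht
        have h2 := congrArg Complex.im ht
        simp at h1 h2
        exact ⟨h1, h2⟩
      rw [Prod.mk.injEq]
      exact ⟨ContinuousMap.ext fun t => (h' t).1, ContinuousMap.ext fun t => (h' t).2⟩
    · intro z
      refine ⟨(⟨fun t => (z t).re, by fun_prop⟩, ⟨fun t => (z t).im, by fun_prop⟩), ?_⟩
      ext t
      simp only [ContinuousMap.add_apply, ContinuousMap.mul_apply, algebraMap_apply',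
          ContinuousMap.coe_mk]
      exact Complex.re_add_im _
  σ :=
    { toFun := fun z => ⟨fun t => star (z t), by fun_prop⟩
      map_one' := by ext; simp
      map_mul' := fun _ _ => by ext; simp
      map_zero' := by ext; simp
      map_add' := fun _ _ => by ext; simp
      commutes' := fun f => by
        ext t
        simp only [algebraMap_apply', ContinuousMap.coe_mk]
        simp }
  σ_i := by
    ext t
    simp

theorem gaussW_σ (W : Opens ℝ) (z : C(W, ℂ)) (t : W) : (gaussW W).σ z t = star (z t) := rfl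

/-- Restriction of torsors. -/
noncomputable def resT {W' W : Opens ℝ} (h : W' ≤ W) :
    TorHom (torOf (gaussW W')) (torOf (gaussW W)) :=
  homOf (gaussW W) (gaussW W') (resC ℝ h) (resC ℂ h) (fun _ => rfl) rfl

/-- Evaluation of torsors. -/
noncomputable def evT {W : Opens ℝ} (a : W) : TorHom (torOf gaussC) (torOf (gaussW W)) :=
  homOf (gaussW W) gaussC (evC ℝ a) (evC ℂ a) (fun _ => rfl) rfl

/-- Evaluation of a class at a real point. -/
noncomputable def ev {W : Opens ℝ} {n : ℕ} (a : W) (β : HG Gm n (Spec (.of C(W, ℝ)))) :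
    HG Gm n (Spec (.of ℝ)) := pb Gm (Spec.map (CommRingCat.ofHom (evC ℝ a))) β

/-- Restriction of a class. -/
noncomputable def rs {W' W : Opens ℝ} (h : W' ≤ W) {n : ℕ} (β : HG Gm n (Spec (.of C(W, ℝ)))) :
    HG Gm n (Spec (.of C(W', ℝ))) := pb Gm (Spec.map (CommRingCat.ofHom (resC ℝ h))) β

theorem ev_rs {W' W : Opens ℝ} (h : W' ≤ W) {n : ℕ} (β : HG Gm n (Spec (.of C(W, ℝ)))) (a : W') :
    ev a (rs h β) = ev (⟨a, h a.2⟩ : W) β := by
  rw [ev, rs, ev, ← pb_comp, ← Spec.map_comp, ← CommRingCat.ofHom_comp]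
  rfl

/-- Classes of positive degree over complex functions are locally trivial. -/
theorem exists_res_eq_zero {W : Opens ℝ} (a : W) {n : ℕ}
    (β : HG Gm (n + 1) (Spec (.of C(W, ℂ)))) : ∃ (W' : Opens ℝ) (h : W' ≤ W), (a : ℝ) ∈ W' ∧
      pb Gm (Spec.map (CommRingCat.ofHom (resC ℂ h))) β = 0 := by
  obtain ⟨R, hR, h⟩ := locTriv Gm _ n β
  obtain ⟨W', h', ha, hW'⟩ := lift W a R hR
  exact ⟨W', h', ha, h _ _ hW'⟩

/-- Classes of degree two are locally cup products of units. -/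
theorem exists_res_eq_cup {W : Opens ℝ} (a : W) (β : HG Gm 2 (Spec (.of C(W, ℝ)))) :
    ∃ (W' : Opens ℝ) (h : W' ≤ W) (f : (C(W', ℝ))ˣ), (a : ℝ) ∈ W' ∧
      rs h β = (torOf (gaussW W')).cup Gm 0 (us f) := by
  obtain ⟨W₁, h₁, ha₁, hβ₁⟩ := exists_res_eq_zero a (n := 1) (pb Gm (torOf (gaussW W)).π β)
  have h2 : pb Gm (torOf (gaussW W₁)).π (rs h₁ β) = 0 := by
    have e : (torOf (gaussW W₁)).π ≫ (resT h₁).f = (resT h₁).g ≫ (torOf (gaussW W)).π :=
      (resT h₁).w.symm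
    have e1 : pb Gm (torOf (gaussW W₁)).π (pb Gm (resT h₁).f β) =
        pb Gm (resT h₁).g (pb Gm (torOf (gaussW W)).π β) := by
      rw [← pb_comp, ← pb_comp, e]
    exact e1.trans hβ₁
  obtain ⟨γ, hγ⟩ := (torOf (gaussW W₁)).exists_cup Gm (n := 0) (rs h₁ β) h2
  obtain ⟨W₂, h₂, ha₂, hγ₂⟩ := exists_res_eq_zero (⟨a, ha₁⟩ : W₁) (n := 0) γ
  obtain ⟨β', hβ'⟩ := hγ _ (resT h₂) hγ₂
  obtain ⟨f, rfl⟩ := us_surj β'
  refine ⟨W₂, h₂.trans h₁, f, ha₂, ?_⟩
  refine Eq.trans ?_ hβ'.symm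
  change pb Gm _ β = pb Gm (Spec.map (CommRingCat.ofHom (resC ℝ h₂)))
    (pb Gm (Spec.map (CommRingCat.ofHom (resC ℝ h₁))) β)
  rw [← pb_comp, ← Spec.map_comp, ← CommRingCat.ofHom_comp]
  rfl

/-- Positive real numbers are norms. -/
theorem cup_pos (u v : ℝˣ) (h : 0 < (u : ℝ) * v) :
    (torOf gaussC).cup Gm 0 (us u) = (torOf gaussC).cup Gm 0 (us v) := by
  have hv : (v : ℝ) ≠ 0 := v.ne_zero
  have hr : 0 < (u : ℝ) / v := by
    rw [div_eq_mul_inv]
    rcases lt_or_gt_of_ne hv with h1 | h1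
    · have hu : (u : ℝ) < 0 := by
        by_contra hu
        push Not at hu
        have := mul_nonpos_of_nonneg_of_nonpos hu h1.le
        linarith
      exact mul_pos_of_neg_of_neg hu (inv_lt_zero.2 h1)
    · have hu : 0 < (u : ℝ) := pos_of_mul_pos_left h h1.le
      positivity
  have hs : (Real.sqrt ((u : ℝ) / v) : ℂ) ≠ 0 := by
    rw [Complex.ofReal_ne_zero]
    exact (Real.sqrt_pos.2 hr).ne'
  have h1 : (torOf gaussC).cup Gm 0 (us (u * v⁻¹)) = 0 := by
    apply cup_us_eq_zero gaussC _ (Units.mk0 _ hs)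
    change (((u * v⁻¹ : ℝˣ) : ℝ) : ℂ) = (Real.sqrt ((u : ℝ) / v) : ℂ) *
      (starRingEnd ℂ) (Real.sqrt ((u : ℝ) / v) : ℂ)
    rw [Complex.conj_ofReal, ← Complex.ofReal_mul, Real.mul_self_sqrt hr.le]
    simp [div_eq_mul_inv]
  calc (torOf gaussC).cup Gm 0 (us u) = (torOf gaussC).cup Gm 0 (us (u * v⁻¹ * v)) := by
        rw [inv_mul_cancel_right]
    _ = (torOf gaussC).cup Gm 0 (us v) := by
        have e := ((torOf gaussC).cup Gm 0).map_add (us (u * v⁻¹)) (us v)
        refine Eq.trans (congrArg _ (us_mul _ _)) (e.trans ?_)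
        rw [h1]
        exact zero_add _

/-- The value of a class of degree two at real points is locally constant. -/
theorem isLocallyConstant_ev (β : HG Gm 2 (Spec (.of C((⊤ : Opens ℝ), ℝ)))) :
    IsLocallyConstant (fun t : ℝ => ev (⟨t, trivial⟩ : (⊤ : Opens ℝ)) β) := by
  rw [IsLocallyConstant.iff_exists_open]
  intro a
  obtain ⟨W, h, f, ha, hf⟩ := exists_res_eq_cup (⟨a, trivial⟩ : (⊤ : Opens ℝ)) β
  have key : ∀ t : W, ev (⟨t, trivial⟩ : (⊤ : Opens ℝ)) β =
      (torOf gaussC).cup Gm 0 (us (Units.map ((evC ℝ t : C(W, ℝ) →+* ℝ) : C(W, ℝ) →* ℝ) f)) := by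
    intro t
    have e1 := ev_rs h β t
    rw [← e1, hf]
    have e2 := (evT t).pb_cup Gm (n := 0) (us f)
    refine Eq.trans e2 ?_
    congr 1
    exact pb_us (evC ℝ t) f
  have hcont : Continuous (fun t : W => (f : C(W, ℝ)) t * (f : C(W, ℝ)) ⟨a, ha⟩) := by fun_prop
  refine ⟨Subtype.val '' {t : W | 0 < (f : C(W, ℝ)) t * (f : C(W, ℝ)) ⟨a, ha⟩}, ?_, ?_, ?_⟩
  · exact W.isOpen.isOpenMap_subtype_val _ (isOpen_lt continuous_const hcont)
  · refine ⟨⟨a, ha⟩, ?_, rfl⟩
    have : (f : C(W, ℝ)) ⟨a, ha⟩ ≠ 0 :=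
      (Units.map ((evC ℝ (⟨a, ha⟩ : W) : C(W, ℝ) →+* ℝ) : C(W, ℝ) →* ℝ) f).ne_zero
    exact mul_self_pos.2 this
  · rintro _ ⟨t, ht, rfl⟩
    rw [key t, key ⟨a, ha⟩]
    exact cup_pos _ _ ht

/-- The claim. -/
theorem ev_one_eq (β : HG Gm 2 (Spec (.of C((⊤ : Opens ℝ), ℝ)))) :
    ev (⟨1, trivial⟩ : (⊤ : Opens ℝ)) β = ev (⟨-1, trivial⟩ : (⊤ : Opens ℝ)) β :=
  (isLocallyConstant_ev β).apply_eq_of_preconnectedSpace 1 (-1)

theorem H1_C (γ : HG Gm 1 (Spec (.of ℂ))) : γ = 0 := by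
  obtain ⟨R, hR, h⟩ := locTriv Gm _ 0 γ
  have := h _ _ (liftC R hR)
  rwa [pb_id] at this

/-- `(-1, -1)` is not trivial over `ℝ`. -/
theorem cup_neg_one_ne : (torOf gaussC).cup Gm 0 (us (-1 : ℝˣ)) ≠ 0 := by
  intro h
  obtain ⟨b, hb⟩ := exists_norm gaussC (-1) h H1_C
  have h1 : ((-1 : ℝˣ) : ℝ) = Complex.normSq b := by
    have : (((-1 : ℝˣ) : ℝ) : ℂ) = b * (starRingEnd ℂ) b := hb
    rw [Complex.mul_conj] at this
    exact_mod_cast this
  have h2 := Complex.normSq_nonneg (b : ℂ)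
  rw [← h1] at h2
  norm_num at h2

theorem cup_one : (torOf gaussC).cup Gm 0 (us (1 : ℝˣ)) = 0 :=
  cup_us_eq_zero gaussC 1 1 (by simp)

end Pool.Agent.Lib.MP_b73640_ag
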