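import Mathlib
import Pool.Agent.Lib.MP_b73640_ag.Real
import Pool.Agent.Lib.MP_b73640_ag.MV

/-! The class of a Möbius datum. -/

open CategoryTheory AlgebraicGeometry Opposite Limits Abelian TopologicalSpace

namespace Pool.Agent.Lib.MP_b73640_ag

/-- `A[i]` as a Gaussian extension of `A`. -/
noncomputable def gaussA (A : Type) [CommRing A] (h2 : IsUnit (2 : A)) :
    Gauss A (QuadraticAlgebra A (-1) 0) where
  i := QuadraticAlgebra.omega
  i_mul_i := by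
    rw [QuadraticAlgebra.omega_mul_omega_eq_mk]
    ext <;> simp [QuadraticAlgebra.re_one, QuadraticAlgebra.im_one]
  two := h2
  bij := by
    constructor
    · rintro ⟨a, b⟩ ⟨c, d⟩ h
      have h1 := congrArg QuadraticAlgebra.re h
      have h3 := congrArg QuadraticAlgebra.im h
      simp at h1 h3
      rw [h1, h3]
    · intro z
      refine ⟨(z.re, z.im), ?_⟩
      ext <;> simp
  σ := QuadraticAlgebra.lift ⟨-QuadraticAlgebra.omega, by
    rw [neg_mul_neg, QuadraticAlgebra.omega_mul_omega_eq_mk]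
    ext <;> simp [QuadraticAlgebra.re_one, QuadraticAlgebra.im_one]⟩
  σ_i := by simp

/-- Evaluation `A[i] → ℂ`. -/
noncomputable def evQ {A : Type} [CommRing A] (φ : A →+* ℝ) : QuadraticAlgebra A (-1) 0 →+* ℂ :=
  letI := ((algebraMap ℝ ℂ).comp φ).toAlgebra
  (QuadraticAlgebra.lift (R := A) (a := -1) (b := 0) ⟨Complex.I, by simp⟩).toRingHom

/-- The morphism of torsors given by a real point. -/
noncomputable def evTA {A : Type} [CommRing A] (h2 : IsUnit (2 : A)) (φ : A →+* ℝ) :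
    TorHom (torOf gaussC) (torOf (gaussA A h2)) :=
  homOf (gaussA A h2) gaussC φ (evQ φ) (fun a => by
    let _ := ((algebraMap ℝ ℂ).comp φ).toAlgebra
    change (QuadraticAlgebra.lift (R := A) (a := -1) (b := 0) ⟨Complex.I, _⟩)
      (algebraMap A _ a) = _
    rw [AlgHom.commutes]
    rfl) (by
    let _ := ((algebraMap ℝ ℂ).comp φ).toAlgebra
    change (QuadraticAlgebra.lift (R := A) (a := -1) (b := 0) ⟨Complex.I, _⟩)
      QuadraticAlgebra.omega = Complex.I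
    simp)

/-- The class `(-1, x)` on a scheme. -/
noncomputable def symb {Z : Scheme.{0}} (h2 : IsUnit (2 : Γ(Z, ⊤))) (x : (Γ(Z, ⊤))ˣ) : HG Gm 2 Z :=
  pb Gm Z.toSpecΓ ((torOf (gaussA Γ(Z, ⊤) h2)).cup Gm 0 (us x))

theorem two_symb {Z : Scheme.{0}} (h2 : IsUnit (2 : Γ(Z, ⊤))) (x : (Γ(Z, ⊤))ˣ) :
    2 • symb h2 x = 0 := by
  rw [symb, ← map_nsmul]
  have := (torOf (gaussA Γ(Z, ⊤) h2)).two_cup Gm (n := 0) (us x)
  exact (congrArg _ this).trans (map_zero _)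

theorem pb_symb {Z : Scheme.{0}} (h2 : IsUnit (2 : Γ(Z, ⊤))) (x : (Γ(Z, ⊤))ˣ)
    (r : Spec (.of ℝ) ⟶ Z) : pb Gm r (symb h2 x) = (torOf gaussC).cup Gm 0
      (us (Units.map ((r.appTop ≫ (Scheme.ΓSpecIso (.of ℝ)).hom).hom : Γ(Z, ⊤) →* ℝ) x)) := by
  set φ : Γ(Z, ⊤) →+* ℝ := (r.appTop ≫ (Scheme.ΓSpecIso (.of ℝ)).hom).hom with hφ
  have h1 : r ≫ Z.toSpecΓ = Spec.map (CommRingCat.ofHom φ) := by
    rw [Scheme.toSpecΓ_naturality, hφ, CommRingCat.ofHom_hom, Spec.map_comp,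
      SpecMap_ΓSpecIso_hom]
  rw [symb, ← pb_comp, h1]
  refine Eq.trans ((evTA h2 φ).pb_cup Gm (n := 0) (us x)) ?_
  congr 1
  exact pb_us φ x

theorem atPoint_eq_zero {X : Scheme.{0}} {n : ℕ} (U V : X.Opens) (h : U ⊔ V = ⊤)
    (α : HG Gm n X) (h1 : pb Gm U.ι α = 0) (h2 : pb Gm V.ι α = 0) (s : X) : atPoint α s = 0 := by
  have hs : s ∈ U ⊔ V := by rw [h]; trivial
  have key : ∀ W : X.Opens, s ∈ W → pb Gm W.ι α = 0 → atPoint α s = 0 := by
    intro W hsW hW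
    have hr : Set.range (X.fromSpecResidueField s) ⊆ Set.range W.ι := by
      rw [Scheme.range_fromSpecResidueField, Scheme.Opens.range_ι]
      simpa using hsW
    rw [atPoint, ← IsOpenImmersion.lift_fac W.ι (X.fromSpecResidueField s) hr, pb_comp, hW, map_zero]
  rcases hs with hs | hs
  · exact key U hs h1
  · exact key V hs h2

theorem main : MainStmt := by
  rintro X ⟨D⟩
  obtain ⟨α, hU, hV, htor, hzero⟩ := mv Gm X D.U D.V D.sup_eq 2 (symb D.two D.x)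
  refine ⟨α, ?_, atPoint_eq_zero D.U D.V D.sup_eq α hU hV⟩
  have hα2 : 2 • α = 0 := htor 2 (two_symb D.two D.x)
  refine addOrderOf_eq_prime hα2 ?_
  intro hα
  obtain ⟨b, c, hbc⟩ := hzero hα
  have hp : pb Gm D.rp (symb D.two D.x) =
      ev (⟨1, trivial⟩ : (⊤ : Opens ℝ)) (pb Gm D.P b) -
        ev (⟨1, trivial⟩ : (⊤ : Opens ℝ)) (pb Gm D.Q c) := by
    rw [hbc, map_sub, ← pb_comp, ← pb_comp, ← D.Pp, ← D.Qp, pb_comp, pb_comp]
    rfl
  have hm : pb Gm D.rm (symb D.two D.x) =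
      ev (⟨-1, trivial⟩ : (⊤ : Opens ℝ)) (pb Gm D.P b) -
        ev (⟨-1, trivial⟩ : (⊤ : Opens ℝ)) (pb Gm D.Q c) := by
    rw [hbc, map_sub, ← pb_comp, ← pb_comp, ← D.Pm, ← D.Qm, pb_comp, pb_comp]
    rfl
  rw [ev_one_eq, ev_one_eq, ← hm, pb_symb, pb_symb] at hp
  have e1 : Units.map ((D.rp.appTop ≫ (Scheme.ΓSpecIso (.of ℝ)).hom).hom :
      Γ((D.U ⊓ D.V : X.Opens), ⊤) →* ℝ) D.x = 1 := by
    ext
    exact D.xp
  have e2 : Units.map ((D.rm.appTop ≫ (Scheme.ΓSpecIso (.of ℝ)).hom).hom :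
      Γ((D.U ⊓ D.V : X.Opens), ⊤) →* ℝ) D.x = -1 := by
    ext
    exact D.xm
  rw [e1, e2, cup_one] at hp
  exact cup_neg_one_ne hp.symm

end Pool.Agent.Lib.MP_b73640_ag
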