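import Mathlib
import Pool.Agent.Lib.MP_b73640_ag.Main

/-! Classes of all odd degrees. -/

open CategoryTheory AlgebraicGeometry Opposite Limits Abelian TopologicalSpace

namespace Pool.Agent.Lib.MP_b73640_ag

/-- Iterated cup product with the class of a torsor. -/
noncomputable def Tor.cupI (T : Tor) (G : EtSh) : (k : ℕ) → HG G 0 T.X →+ HG G (2 * k) T.X
  | 0 => AddMonoidHom.id _
  | k + 1 => (T.cup G (2 * k)).comp (Tor.cupI T G k)

theorem Tor.cupI_succ (T : Tor) (G : EtSh) (k : ℕ) (β : HG G 0 T.X) :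
    T.cupI G (k + 1) β = T.cup G (2 * k) (T.cupI G k β) := rfl

theorem TorHom.pb_cupI {T' T : Tor} (h : TorHom T' T) (G : EtSh) (k : ℕ) (β : HG G 0 T.X) :
    pb G h.f (T.cupI G k β) = T'.cupI G k (pb G h.f β) := by
  induction k with
  | zero => rfl
  | succ k ih =>
    rw [Tor.cupI_succ, Tor.cupI_succ, ← ih]
    exact h.pb_cup G _

theorem Tor.cupI_eq_zero (T : Tor) (G : EtSh) (k : ℕ) (β : HG G 0 T.X) (h : T.cup G 0 β = 0) :
    T.cupI G (k + 1) β = 0 := by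
  induction k with
  | zero => exact h
  | succ k ih =>
    rw [Tor.cupI_succ, ih]
    exact map_zero _

theorem Tor.two_cupI (T : Tor) (G : EtSh) (k : ℕ) (β : HG G 0 T.X) :
    2 • T.cupI G (k + 1) β = 0 :=
  T.two_cup G (T.cupI G k β)

/-- Classes of even degree are locally iterated cup products of units. -/
theorem exists_res_eq_cupI (k : ℕ) : ∀ {W : Opens ℝ} (a : W)
    (β : HG Gm (2 * k) (Spec (.of C(W, ℝ)))),
    ∃ (W' : Opens ℝ) (h : W' ≤ W) (f : (C(W', ℝ))ˣ), (a : ℝ) ∈ W' ∧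
      rs h β = (torOf (gaussW W')).cupI Gm k (us f) := by
  induction k with
  | zero =>
    intro W a β
    obtain ⟨f, rfl⟩ := us_surj β
    refine ⟨W, le_rfl, f, a.2, ?_⟩
    refine Eq.trans (pb_us (resC ℝ (le_refl W)) f) ?_
    change us _ = us f
    congr 1
  | succ k ih =>
    intro W a β
    obtain ⟨W₁, h₁, ha₁, hβ₁⟩ :=
      exists_res_eq_zero a (n := 2 * k + 1) (pb Gm (torOf (gaussW W)).π β)
    have h2 : pb Gm (torOf (gaussW W₁)).π (rs h₁ β) = 0 := by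
      have e : (torOf (gaussW W₁)).π ≫ (resT h₁).f = (resT h₁).g ≫ (torOf (gaussW W)).π :=
        (resT h₁).w.symm
      have e1 : pb Gm (torOf (gaussW W₁)).π (pb Gm (resT h₁).f β) =
          pb Gm (resT h₁).g (pb Gm (torOf (gaussW W)).π β) := by
        rw [← pb_comp, ← pb_comp, e]
      exact e1.trans hβ₁
    obtain ⟨γ, hγ⟩ := (torOf (gaussW W₁)).exists_cup Gm (n := 2 * k) (rs h₁ β) h2
    obtain ⟨W₂, h₂, ha₂, hγ₂⟩ := exists_res_eq_zero (⟨a, ha₁⟩ : W₁) (n := 2 * k) γ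
    obtain ⟨β', hβ'⟩ := hγ _ (resT h₂) hγ₂
    obtain ⟨W₃, h₃, f, ha₃, hf⟩ := ih (⟨a, ha₂⟩ : W₂) β'
    refine ⟨W₃, (h₃.trans h₂).trans h₁, f, ha₃, ?_⟩
    rw [Tor.cupI_succ, ← hf]
    have e3 := (resT h₃).pb_cup Gm (n := 2 * k) β'
    refine Eq.trans ?_ e3
    refine Eq.trans ?_ (congrArg (pb Gm (resT h₃).f) hβ').symm
    change pb Gm _ β = pb Gm (Spec.map (CommRingCat.ofHom (resC ℝ h₃)))
      (pb Gm (Spec.map (CommRingCat.ofHom (resC ℝ h₂)))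
        (pb Gm (Spec.map (CommRingCat.ofHom (resC ℝ h₁))) β))
    rw [← pb_comp, ← pb_comp, ← Spec.map_comp, ← Spec.map_comp, ← CommRingCat.ofHom_comp,
      ← CommRingCat.ofHom_comp]
    rfl

/-- Positive real numbers are norms. -/
theorem cupI_pos (k : ℕ) (u v : ℝˣ) (h : 0 < (u : ℝ) * v) :
    (torOf gaussC).cupI Gm (k + 1) (us u) = (torOf gaussC).cupI Gm (k + 1) (us v) := by
  induction k with
  | zero => exact cup_pos u v h
  | succ k ih =>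
    rw [Tor.cupI_succ, ih]
    rfl

/-- The value of a class of even degree at real points is locally constant. -/
theorem isLocallyConstant_evI (k : ℕ) (β : HG Gm (2 * (k + 1)) (Spec (.of C((⊤ : Opens ℝ), ℝ)))) :
    IsLocallyConstant (fun t : ℝ => ev (⟨t, trivial⟩ : (⊤ : Opens ℝ)) β) := by
  rw [IsLocallyConstant.iff_exists_open]
  intro a
  obtain ⟨W, h, f, ha, hf⟩ := exists_res_eq_cupI (k + 1) (⟨a, trivial⟩ : (⊤ : Opens ℝ)) β
  have key : ∀ t : W, ev (⟨t, trivial⟩ : (⊤ : Opens ℝ)) β = (torOf gaussC).cupI Gm (k + 1)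
      (us (Units.map ((evC ℝ t : C(W, ℝ) →+* ℝ) : C(W, ℝ) →* ℝ) f)) := by
    intro t
    have e1 := ev_rs h β t
    rw [← e1, hf]
    have e2 := (evT t).pb_cupI Gm (k + 1) (us f)
    refine Eq.trans e2 ?_
    exact congrArg _ (pb_us (evC ℝ t) f)
  have hcont : Continuous (fun t : W => (f : C(W, ℝ)) t * (f : C(W, ℝ)) ⟨a, ha⟩) := by fun_prop
  refine ⟨Subtype.val '' {t : W | 0 < (f : C(W, ℝ)) t * (f : C(W, ℝ)) ⟨a, ha⟩}, ?_, ?_, ?_⟩
  · exact W.isOpen.isOpenMap_subtype_val _ (isOpen_lt continuous_const hcont)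
  · refine ⟨⟨a, ha⟩, ?_, rfl⟩
    have : (f : C(W, ℝ)) ⟨a, ha⟩ ≠ 0 :=
      (Units.map ((evC ℝ (⟨a, ha⟩ : W) : C(W, ℝ) →+* ℝ) : C(W, ℝ) →* ℝ) f).ne_zero
    exact mul_self_pos.2 this
  · rintro _ ⟨t, ht, rfl⟩
    rw [key t, key ⟨a, ha⟩]
    exact cupI_pos k _ _ ht

/-- The claim. -/
theorem evI_one_eq (k : ℕ) (β : HG Gm (2 * (k + 1)) (Spec (.of C((⊤ : Opens ℝ), ℝ)))) :
    ev (⟨1, trivial⟩ : (⊤ : Opens ℝ)) β = ev (⟨-1, trivial⟩ : (⊤ : Opens ℝ)) β :=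
  (isLocallyConstant_evI k β).apply_eq_of_preconnectedSpace 1 (-1)

theorem Hn_C {n : ℕ} (γ : HG Gm (n + 1) (Spec (.of ℂ))) : γ = 0 := by
  obtain ⟨R, hR, h⟩ := locTriv Gm _ n γ
  have := h _ _ (liftC R hR)
  rwa [pb_id] at this

/-- `(-1, …, -1)` is not trivial over `ℝ`. -/
theorem cupI_neg_one_ne (k : ℕ) : (torOf gaussC).cupI Gm (k + 1) (us (-1 : ℝˣ)) ≠ 0 := by
  induction k with
  | zero => exact cup_neg_one_ne
  | succ k ih =>
    intro h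
    rw [Tor.cupI_succ] at h
    obtain ⟨γ, hγ⟩ := (torOf gaussC).exists_tr Gm _ h Hn_C
    have hγ0 : γ = 0 := Hn_C (n := 2 * k + 1) γ
    rw [hγ0, map_zero] at hγ
    exact ih hγ.symm

theorem cupI_one (k : ℕ) : (torOf gaussC).cupI Gm (k + 1) (us (1 : ℝˣ)) = 0 :=
  Tor.cupI_eq_zero _ _ _ _ cup_one

/-- The class `(-1, …, -1, x)` on a scheme. -/
noncomputable def symbI (k : ℕ) {Z : Scheme.{0}} (h2 : IsUnit (2 : Γ(Z, ⊤))) (x : (Γ(Z, ⊤))ˣ) :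
    HG Gm (2 * (k + 1)) Z :=
  pb Gm Z.toSpecΓ ((torOf (gaussA Γ(Z, ⊤) h2)).cupI Gm (k + 1) (us x))

theorem two_symbI (k : ℕ) {Z : Scheme.{0}} (h2 : IsUnit (2 : Γ(Z, ⊤))) (x : (Γ(Z, ⊤))ˣ) :
    2 • symbI k h2 x = 0 := by
  rw [symbI, ← map_nsmul]
  have := (torOf (gaussA Γ(Z, ⊤) h2)).two_cupI Gm k (us x)
  exact (congrArg _ this).trans (map_zero _)

theorem pb_symbI (k : ℕ) {Z : Scheme.{0}} (h2 : IsUnit (2 : Γ(Z, ⊤))) (x : (Γ(Z, ⊤))ˣ)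
    (r : Spec (.of ℝ) ⟶ Z) : pb Gm r (symbI k h2 x) = (torOf gaussC).cupI Gm (k + 1)
      (us (Units.map ((r.appTop ≫ (Scheme.ΓSpecIso (.of ℝ)).hom).hom : Γ(Z, ⊤) →* ℝ) x)) := by
  set φ : Γ(Z, ⊤) →+* ℝ := (r.appTop ≫ (Scheme.ΓSpecIso (.of ℝ)).hom).hom with hφ
  have h1 : r ≫ Z.toSpecΓ = Spec.map (CommRingCat.ofHom φ) := by
    rw [Scheme.toSpecΓ_naturality, hφ, CommRingCat.ofHom_hom, Spec.map_comp,
      SpecMap_ΓSpecIso_hom]
  rw [symbI, ← pb_comp, h1]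
  refine Eq.trans ((evTA h2 φ).pb_cupI Gm (k + 1) (us x)) ?_
  exact congrArg _ (pb_us φ x)

/-- For every Möbius datum on `X` and every odd `n ≥ 3` there is a class of order `2` in
`Hⁿ(X, 𝔾ₘ)` that vanishes at every point of `X`. -/
theorem mainI (k : ℕ) (X : Scheme.{0}) (D : Moeb X) :
    ∃ α : HG Gm (2 * (k + 1) + 1) X, addOrderOf α = 2 ∧ ∀ s : X, atPoint α s = 0 := by
  obtain ⟨α, hU, hV, htor, hzero⟩ := mv Gm X D.U D.V D.sup_eq _ (symbI k D.two D.x)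
  refine ⟨α, ?_, atPoint_eq_zero D.U D.V D.sup_eq α hU hV⟩
  have hα2 : 2 • α = 0 := htor 2 (two_symbI k D.two D.x)
  refine addOrderOf_eq_prime hα2 ?_
  intro hα
  obtain ⟨b, c, hbc⟩ := hzero hα
  have hp : pb Gm D.rp (symbI k D.two D.x) =
      ev (⟨1, trivial⟩ : (⊤ : Opens ℝ)) (pb Gm D.P b) -
        ev (⟨1, trivial⟩ : (⊤ : Opens ℝ)) (pb Gm D.Q c) := by
    rw [hbc, map_sub, ← pb_comp, ← pb_comp, ← D.Pp, ← D.Qp, pb_comp, pb_comp]
    rfl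
  have hm : pb Gm D.rm (symbI k D.two D.x) =
      ev (⟨-1, trivial⟩ : (⊤ : Opens ℝ)) (pb Gm D.P b) -
        ev (⟨-1, trivial⟩ : (⊤ : Opens ℝ)) (pb Gm D.Q c) := by
    rw [hbc, map_sub, ← pb_comp, ← pb_comp, ← D.Pm, ← D.Qm, pb_comp, pb_comp]
    rfl
  rw [evI_one_eq, evI_one_eq, ← hm, pb_symbI, pb_symbI] at hp
  have e1 : Units.map ((D.rp.appTop ≫ (Scheme.ΓSpecIso (.of ℝ)).hom).hom :
      Γ((D.U ⊓ D.V : X.Opens), ⊤) →* ℝ) D.x = 1 := by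
    ext
    exact D.xp
  have e2 : Units.map ((D.rm.appTop ≫ (Scheme.ΓSpecIso (.of ℝ)).hom).hom :
      Γ((D.U ⊓ D.V : X.Opens), ⊤) →* ℝ) D.x = -1 := by
    ext
    exact D.xm
  rw [e1, e2, cupI_one] at hp
  exact cupI_neg_one_ne k hp.symm

end Pool.Agent.Lib.MP_b73640_ag
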