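import Mathlib
import Pool.Agent.Lib.MP_b73640_ag.Odd
import Pool.Agent.Lib.MP_b73640_ag.Moeb
import Pool.Agent.Lib.MP_b73640_ag.Curve
import Pool.Agent.Lib.MP_b73640_ag.Curve2
import Pool.Agent.Lib.MP_b73640_ag.FieldH

/-! Classes of order two which vanish at every point. -/

open CategoryTheory AlgebraicGeometry Opposite Limits

namespace Pool.Agent.Lib.MP_b73640_ag

attribute [local instance] MvPolynomial.gradedAlgebra

/-- `X` has a class of order two in `Hⁿ(X, 𝔾ₘ)` whose restriction to every point of `X` is zero. -/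
def HasGhost (n : ℕ) (X : Scheme.{0}) : Prop :=
  ∃ α : HG Gm n X, addOrderOf α = 2 ∧ ∀ s : X, atPoint α s = 0

/-- The open subset `x² + y² ≠ 0` of the projective line. -/
noncomputable def P1.circle (F : Type) [Field F] : (P1 F).Opens :=
  Proj.basicOpen (MvPolynomial.homogeneousSubmodule (Fin 2) F)
    (MvPolynomial.X 0 ^ 2 + MvPolynomial.X 1 ^ 2)

theorem isCurve_circle (F : Type) [Field F] : IsCurve ((P1.circle F).ι ≫ P1.toSpec F) :=
  (curve2 F).1

theorem isAffine_circle (F : Type) [Field F] : IsAffine (P1.circle F : Scheme.{0}) :=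
  (curve2 F).2

/-- Odd numbers `n ≥ 3`. -/
theorem exists_odd {n : ℕ} (hn : Odd n) (h3 : 3 ≤ n) : ∃ k, n = 2 * (k + 1) + 1 := by
  obtain ⟨j, rfl⟩ := hn
  exact ⟨j - 1, by omega⟩

theorem hasGhost_P1 {n : ℕ} (hn : Odd n) (h3 : 3 ≤ n) (F : Type) [Field F] (φ : F →+* ℝ) :
    HasGhost n (P1 F) := by
  obtain ⟨k, rfl⟩ := exists_odd hn h3
  exact mainI k _ (moeb F φ).1.some

theorem hasGhost_top {n : ℕ} (hn : Odd n) (h3 : 3 ≤ n) (F : Type) [Field F] (φ : F →+* ℝ) :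
    HasGhost n ((⊤ : (P1 F).Opens) : Scheme.{0}) := by
  obtain ⟨k, rfl⟩ := exists_odd hn h3
  exact mainI k _ (moeb F φ).2.1.some

theorem hasGhost_circle {n : ℕ} (hn : Odd n) (h3 : 3 ≤ n) (F : Type) [Field F] (φ : F →+* ℝ) :
    HasGhost n (P1.circle F : Scheme.{0}) := by
  obtain ⟨k, rfl⟩ := exists_odd hn h3
  exact mainI k _ (moeb F φ).2.2.some

theorem nonempty_P1 (F : Type) [Field F] (φ : F →+* ℝ) :
    ((⊤ : (P1 F).Opens) : Set (P1 F)).Nonempty := by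
  obtain ⟨D⟩ := (moeb F φ).1
  exact ⟨(D.rp ≫ (D.U ⊓ D.V : (P1 F).Opens).ι) (IsLocalRing.closedPoint ℝ), trivial⟩

theorem not_isNHilbertian {n : ℕ} {F : Type} [Field F] (h2 : (2 : F) ≠ 0) {U : (P1 F).Opens}
    (hU : (U : Set (P1 F)).Nonempty) (hg : HasGhost n (U : Scheme.{0})) : ¬ IsNHilbertian n F := by
  intro h
  obtain ⟨α, hα, h0⟩ := hg
  have h2 := h U hU α (by rw [hα]; exact_mod_cast h2)
  obtain ⟨s, -, -, hs⟩ := h2.nonempty
  rw [h0 s, hα, addOrderOf_zero] at hs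
  norm_num at hs

theorem not_isNBrauertsch {n : ℕ} {F : Type} [Field F] (h2 : (2 : F) ≠ 0) {S : Scheme.{0}}
    {p : S ⟶ Spec (.of F)} (hp : IsCurve p) (hg : HasGhost n S) : ¬ IsNBrauertsch n F := by
  intro h
  obtain ⟨α, hα, h0⟩ := hg
  have h2 := h S p hp 1 (fun _ => α) (fun _ => by rw [hα]; exact_mod_cast h2)
  obtain ⟨s, -, hs⟩ := h2.nonempty
  have hs := hs 0
  rw [h0 s, hα, addOrderOf_zero] at hs
  norm_num at hs

end Pool.Agent.Lib.MP_b73640_ag
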